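import Pool.Agent.Helper43.SH.Exp

/-!
# SHARP (MP_b21509_co): the expansion of `EP` when `lo` is centred at the base point; the weight `2 - w`; the aligned
moments of families in the moving frame
-/

set_option autoImplicit false

open MeasureTheory Set Filter Topology

namespace Pool.Agent.Helper43.SH

open Helper49.LT hiding sg
open Helper49.RC (om)
open Helper49.Sharp
open Helper44.GQ (aQ cQ F1Q F2Q AAQ BBQ)
open Helper56.RC (fc)
open Helper87.RC (BM intg_of_bdd intg_of_bddC fc_add fc_sub fc_cmul pars)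
open Helper95.RC (Lf BF av)
open Helper95.SH (Dat mo mo_BM mo_sub eM_mo eM_summable lk_int)
open Pool.Agent.Helper20.RC (wR hw alQ L1 lk lk_ge lk_sq sM eM eD DensI wR_wgt)

/-- `lo` centred at `(bs, zs)` with the factor `f` and the prices `p2`, `p3` -/
def LoC (P : Par) (bs zs : ℝ → ℂ) (f : ℝ → ℝ) (p2 p3 : ℝ) : Prop := ∀ t b z, P.lo t b z =
  f t * Lf (z - zs t) - p2 * (b.re - (bs t).re) ^ 2 - p3 * (b.im - (bs t).im) ^ 2

/-- the local quadratic form at a point -/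
noncomputable def ql (P : Par) (f : ℝ → ℝ) (p2 p3 : ℝ) (t : ℝ) (β ρ : ℂ) : ℝ :=
  (9 - P.cs - (P.m - P.lam) * p2) * β.re ^ 2 + (9 - P.cs - (P.m - P.lam) * p3) * β.im ^ 2
    + (P.m - P.lam) * f t * Lf ρ

/-- the quadratic part of `EP` without `NS` -/
noncomputable def QuadL (P : Par) (f : ℝ → ℝ) (p2 p3 : ℝ) (β ρ : ℝ → ℂ) : ℝ :=
  2 / 3 * ‖sgR β‖ ^ 2 + (∑' j : ℤ, ‖fc (dl β) (2 * j)‖ ^ 2 / (2 * (j : ℝ) + 1))
  + 2 * hR β * e0R P β ρ - P.pr2 * hR β ^ 2 + D2 P.nu (hK β) (eR P β ρ) (fun _ => 0)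
  + mean (fun t => ql P f p2 p3 t (β t) (ρ t) / P.w t)

/-- the lower bound of it with the weight `2 - w` -/
noncomputable def QuadM (P : Par) (f : ℝ → ℝ) (p2 p3 : ℝ) (β ρ : ℝ → ℂ) : ℝ :=
  2 / 3 * ‖sgR β‖ ^ 2 + (∑' j : ℤ, ‖fc (dl β) (2 * j)‖ ^ 2 / (2 * (j : ℝ) + 1))
  + 2 * hR β * e0R P β ρ - P.pr2 * hR β ^ 2 + D2 P.nu (hK β) (eR P β ρ) (fun _ => 0)
  + mean (fun t => (2 - P.w t) * ql P f p2 p3 t (β t) (ρ t))

section

variable {P : Par} {b z bs zs : ℝ → ℂ} {f : ℝ → ℝ} {p2 p3 : ℝ}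

theorem Lf_br {ρ : ℝ → ℂ} {C : ℝ} (h : BM ρ C) : BR fun t => Lf (ρ t) := by
  have h1 := (BR.re h).sq.cmul (3 / 2)
  have h2 := (BR.im h).sq.cmul (1 / 2)
  have e : (fun t => Lf (ρ t)) = fun t => 3 / 2 * (ρ t).re ^ 2 + 1 / 2 * (ρ t).im ^ 2 := by
    funext t
    unfold Lf
    ring
  rw [e]
  exact h1.add h2

theorem winv_br (hr : P.Reg) : BR fun t => (P.w t)⁻¹ := ⟨(w_br hr).m.inv, 2, fun t => by
  have := w_pos hr t
  rw [abs_inv, abs_of_pos (by linarith)]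
  have h4 : (P.w t)⁻¹ ≤ (1 / 2 : ℝ)⁻¹ := inv_anti₀ (by norm_num) this
  simpa using h4⟩

theorem ql_br {β ρ : ℝ → ℂ} {C D : ℝ} (hf : BR f) (h : BM β C) (k : BM ρ D) :
    BR fun t => ql P f p2 p3 t (β t) (ρ t) := by
  have h1 := (BR.re h).sq.cmul (9 - P.cs - (P.m - P.lam) * p2)
  have h2 := (BR.im h).sq.cmul (9 - P.cs - (P.m - P.lam) * p3)
  have h3 := ((hf.cmul (P.m - P.lam))).mul (Lf_br k)
  exact (h1.add h2).add h3

theorem Lf_mul' (w : ℝ) (x : ℂ) : Lf ((w : ℂ) * x) = w ^ 2 * Lf x := by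
  unfold Lf
  rw [Complex.re_ofReal_mul, Complex.im_ofReal_mul]
  ring

/-- the quadratic part with the price of `lo` -/
theorem Quad_lo (hr : P.Reg) (hf : BR f) (hlo : LoC P bs zs f p2 p3) (d : Dat b z) (ds : Dat bs zs) :
    QuadP P (wd P.w b bs) (wd P.w z zs)
      + (P.m - P.lam) * mean (fun t => P.w t * (P.lo t (b t) (z t) - P.lo t (bs t) (zs t))) =
    QuadL P f p2 p3 (wd P.w b bs) (wd P.w z zs) := by
  obtain ⟨C, hC⟩ := wd_BM hr d.hb ds.hb
  obtain ⟨C', hC'⟩ := wd_BM hr d.hz ds.hz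
  have e1 : ∀ t, P.w t * (P.lo t (b t) (z t) - P.lo t (bs t) (zs t)) =
      (f t * Lf (wd P.w z zs t) - p2 * (wd P.w b bs t).re ^ 2 - p3 * (wd P.w b bs t).im ^ 2) * (P.w t)⁻¹ := by
    intro t
    have hw : P.w t ≠ 0 := by
      have := w_pos hr t
      intro h
      rw [h] at this
      norm_num at this
    rw [hlo, hlo]
    unfold wd
    rw [Lf_mul', Complex.re_ofReal_mul, Complex.im_ofReal_mul, Complex.sub_re, Complex.sub_im]
    have h0 : Lf (zs t - zs t) = 0 := by rw [sub_self]; unfold Lf; simp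
    rw [h0]
    field_simp
    ring
  have b1 : BR fun t => (f t * Lf (wd P.w z zs t) - p2 * (wd P.w b bs t).re ^ 2 - p3 * (wd P.w b bs t).im ^ 2)
      * (P.w t)⁻¹ :=
    (((hf.mul (Lf_br hC')).sub ((BR.re hC).sq.cmul p2)).sub ((BR.im hC).sq.cmul p3)).mul (winv_br hr)
  have b2 : BR fun t => (9 - P.cs) * ‖wd P.w b bs t‖ ^ 2 * (P.w t)⁻¹ :=
    ((BR.nrm hC).sq.cmul _).mul (winv_br hr)
  have e2 : mean (fun t => P.w t * (P.lo t (b t) (z t) - P.lo t (bs t) (zs t))) =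
      mean fun t => (f t * Lf (wd P.w z zs t) - p2 * (wd P.w b bs t).re ^ 2 - p3 * (wd P.w b bs t).im ^ 2)
        * (P.w t)⁻¹ := mean_congr e1
  have e3 : mean (fun t => (9 - P.cs) * ‖wd P.w b bs t‖ ^ 2 / P.w t) =
      mean fun t => (9 - P.cs) * ‖wd P.w b bs t‖ ^ 2 * (P.w t)⁻¹ := mean_congr fun t => by rw [div_eq_mul_inv]
  have e4 : mean (fun t => ql P f p2 p3 t (wd P.w b bs t) (wd P.w z zs t) / P.w t) =
      mean (fun t => (9 - P.cs) * ‖wd P.w b bs t‖ ^ 2 * (P.w t)⁻¹) + (P.m - P.lam) *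
      mean (fun t => (f t * Lf (wd P.w z zs t) - p2 * (wd P.w b bs t).re ^ 2 - p3 * (wd P.w b bs t).im ^ 2)
        * (P.w t)⁻¹) := by
    rw [← mean_cmul, ← mean_add b2 (b1.cmul _)]
    refine mean_congr fun t => ?_
    have hn : ‖wd P.w b bs t‖ ^ 2 = (wd P.w b bs t).re ^ 2 + (wd P.w b bs t).im ^ 2 := by
      rw [← Complex.normSq_eq_norm_sq, Complex.normSq_apply]; ring
    unfold ql
    rw [hn, div_eq_mul_inv]
    ring
  unfold QuadP QuadL
  rw [e2, e3, e4]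
  ring

/-- EXPANSION with `lo` centred at the base point -/
theorem EP_exp_lo (hr : P.Reg) (hf : BR f) (hlo : LoC P bs zs f p2 p3) (d : Dat b z) (ds : Dat bs zs) :
    P.EP b z = P.EP bs zs + LinP P bs zs (wd P.w b bs) (wd P.w z zs)
      + QuadL P f p2 p3 (wd P.w b bs) (wd P.w z zs) + (P.NS b z - P.NS bs zs) := by
  have hB : ∀ {b z : ℝ → ℂ}, Dat b z → P.Blo b z := by
    intro b z d
    obtain ⟨C1, h1⟩ := d.hb.b
    obtain ⟨C2, h2⟩ := d.hz.b
    obtain ⟨C3, h3⟩ := ds.hb.b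
    obtain ⟨C4, h4⟩ := ds.hz.b
    have kb : BM b C1 := ⟨d.hb.m, h1⟩
    have kz : BM z C2 := ⟨d.hz.m, h2⟩
    have kbs : BM bs C3 := ⟨ds.hb.m, h3⟩
    have kzs : BM zs C4 := ⟨ds.hz.m, h4⟩
    have k := ((hf.mul (Lf_br (kz.sub kzs))).sub ((((BR.re kb).sub (BR.re kbs)).sq).cmul p2)).sub
      ((((BR.im kb).sub (BR.im kbs)).sq).cmul p3)
    have e : (fun t => P.lo t (b t) (z t)) = fun t => f t * Lf (z t - zs t) - p2 * ((b t).re - (bs t).re) ^ 2
        - p3 * ((b t).im - (bs t).im) ^ 2 := funext fun t => hlo t (b t) (z t)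
    refine ⟨?_, ?_⟩
    · rw [e]; exact k.m
    · obtain ⟨K, hK⟩ := k.b
      exact ⟨K, fun t => by rw [hlo]; exact hK t⟩
  have h1 := EP_exp hr d ds (hB d) (hB ds)
  have h2 := Quad_lo hr hf hlo d ds
  rw [h1, ← h2]
  ring

/-- the weight `1/w ≥ 2 - w` -/
theorem QuadM_le (hr : P.Reg) (hf : BR f) (h2 : 0 ≤ 9 - P.cs - (P.m - P.lam) * p2)
    (h3 : 0 ≤ 9 - P.cs - (P.m - P.lam) * p3) (hf0 : ∀ t, 0 ≤ f t) {β ρ : ℝ → ℂ} {C D : ℝ} (h : BM β C)
    (k : BM ρ D) : QuadM P f p2 p3 β ρ ≤ QuadL P f p2 p3 β ρ := by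
  have hq := ql_br (P := P) (p2 := p2) (p3 := p3) hf h k
  unfold QuadM QuadL
  have e : mean (fun t => ql P f p2 p3 t (β t) (ρ t) / P.w t) =
      mean fun t => ql P f p2 p3 t (β t) (ρ t) * (P.w t)⁻¹ := mean_congr fun t => by rw [div_eq_mul_inv]
  rw [e]
  have key : mean (fun t => (2 - P.w t) * ql P f p2 p3 t (β t) (ρ t)) ≤
      mean fun t => ql P f p2 p3 t (β t) (ρ t) * (P.w t)⁻¹ := by
    refine mean_mono (((BR.const 2).sub (w_br hr)).mul hq) (hq.mul (winv_br hr)) fun t => ?_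
    have hw := w_pos hr t
    have hL : 0 ≤ Lf (ρ t) := by unfold Lf; positivity
    have hq0 : 0 ≤ ql P f p2 p3 t (β t) (ρ t) := by
      unfold ql
      have m1 := mul_nonneg h2 (sq_nonneg (β t).re)
      have m2 := mul_nonneg h3 (sq_nonneg (β t).im)
      have m3 := mul_nonneg (mul_nonneg hr.m0 (hf0 t)) hL
      linarith
    have h5 : 2 - P.w t ≤ (P.w t)⁻¹ := by
      have hp : 0 < P.w t := by linarith
      rw [← sub_nonneg]
      have e5 : (P.w t)⁻¹ - (2 - P.w t) = (P.w t - 1) ^ 2 / P.w t := by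
        field_simp
        ring
      rw [e5]
      positivity
    calc (2 - P.w t) * ql P f p2 p3 t (β t) (ρ t) ≤ (P.w t)⁻¹ * ql P f p2 p3 t (β t) (ρ t) :=
          mul_le_mul_of_nonneg_right h5 hq0
      _ = _ := mul_comm _ _
  linarith

end

/-! ### aligned moments in the moving frame -/

/-- the density of a family in the moving frame, `a = φ - t` -/
noncomputable def eF (l : ℝ) (g : ℂ) (a : ℝ) : ℂ :=
  (1 - l) / 2 * (g * ee (-((l + 1) * a))) + (1 + l) / 2 * ((starRingEnd ℂ) g * ee (-((l - 1) * a)))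

theorem eD_frame (g : ℂ) (t φ l : ℝ) (G : ℝ → ℂ) (θ : ℝ) (Φ : ℝ → ℝ) (hG : G θ = ee t * g) (hΦ : Φ θ = φ) :
    eD G Φ l θ = ee (-(l * t)) * eF l g (φ - t) := by
  unfold eD eF
  rw [hG, hΦ]
  set x : ℂ := ee t * g * ee (-φ) with hx
  have hre : (x.re : ℂ) = (x + (starRingEnd ℂ) x) / 2 := by
    rw [Complex.add_conj]; push_cast; ring
  have him : Complex.I * (l : ℂ) * (x.im : ℂ) = (l : ℂ) * (x - (starRingEnd ℂ) x) / 2 := by
    rw [Complex.sub_conj]; push_cast; ring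
  rw [hre, him]
  have e1 : x * ee (-(l * φ)) = ee (-(l * t)) * (g * ee (-((l + 1) * (φ - t)))) := by
    have : ee (-(l * t)) * ee (-((l + 1) * (φ - t))) = ee t * (ee (-φ) * ee (-(l * φ))) := by
      rw [← ee_add, ← ee_add, ← ee_add]
      congr 1
      ring
    rw [hx]
    linear_combination (-g) * this
  have e2 : (starRingEnd ℂ) x * ee (-(l * φ)) = ee (-(l * t)) * ((starRingEnd ℂ) g * ee (-((l - 1) * (φ - t)))) := by
    have : ee (-(l * t)) * ee (-((l - 1) * (φ - t))) = ee (-t) * (ee (-(-φ)) * ee (-(l * φ))) := by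
      rw [← ee_add, ← ee_add, ← ee_add]
      congr 1
      ring
    rw [hx, map_mul, map_mul, ← ee_neg, ← ee_neg]
    linear_combination (-(starRingEnd ℂ) g) * this
  linear_combination ((1 - l) / 2 : ℂ) * e1 + ((1 + l) / 2 : ℂ) * e2

theorem eF_BM {l : ℝ} {G : ℝ → ℂ} {D : ℝ} (h : BM G D) {a : ℝ → ℝ} (ha : Measurable a) :
    ∃ E, BM (fun t => eF l (G t) (a t)) E := by
  have k1 : BM (fun t => ee (-((l + 1) * a t))) 1 :=
    ⟨continuous_ee.measurable.comp ((ha.const_mul _).neg), fun t => by rw [norm_ee]⟩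
  have k2 : BM (fun t => ee (-((l - 1) * a t))) 1 :=
    ⟨continuous_ee.measurable.comp ((ha.const_mul _).neg), fun t => by rw [norm_ee]⟩
  exact ⟨_, ((h.mul k1).cmul ((1 - l) / 2)).add ((h.conj.mul k2).cmul ((1 + l) / 2))⟩

theorem shiftC {f : ℝ → ℂ} (hp : ∀ t, f (t + 2 * Real.pi) = f t) (c : ℝ) :
    ∫ t in (0 : ℝ)..(2 * Real.pi), f (t + c) = ∫ t in (0 : ℝ)..(2 * Real.pi), f t := by
  rw [intervalIntegral.integral_comp_add_right]
  have h : Function.Periodic f (2 * Real.pi) := hp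
  have := h.intervalIntegral_add_eq c 0
  rw [zero_add, add_comm (2 * Real.pi) c]
  rw [zero_add] at this
  exact this

theorem ee_int_per (l : ℤ) (x : ℝ) : ee (x + 2 * Real.pi * l) = ee x := by
  unfold ee
  have e : ((x + 2 * Real.pi * l : ℝ) : ℂ) * Complex.I = (x : ℂ) * Complex.I + (l : ℂ) * (2 * Real.pi * Complex.I) := by
    push_cast; ring
  rw [e, Complex.exp_add, Complex.exp_int_mul_two_pi_mul_I, mul_one]

/-- THE ALIGNED MOMENTS OF FAMILIES IN THE MOVING FRAME -/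
theorem eM_frame {G1 G2 : ℝ → ℂ} {D1 D2 : ℝ} (h1 : BM G1 D1) (h2 : BM G2 D2)
    (q1 : ∀ t, G1 (t + 2 * Real.pi) = G1 t) (q2 : ∀ t, G2 (t + 2 * Real.pi) = G2 t) {φ1 φ2 : ℝ → ℝ}
    (m1 : Measurable φ1) (m2 : Measurable φ2) (r1 : ∀ θ, φ1 (θ + 2 * Real.pi) = φ1 θ + 2 * Real.pi)
    (r2 : ∀ θ, φ2 (θ + 2 * Real.pi) = φ2 θ + 2 * Real.pi) (l : ℤ) :
    eM (fun θ => ee (θ - Real.pi / 3) * G1 (θ - Real.pi / 3))
      (fun θ => ee (θ - 2 * Real.pi / 3) * G2 (θ - 2 * Real.pi / 3)) φ1 φ2 (l : ℝ) =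
    av fun t => ee (-((l : ℝ) * t)) * (eF l (G1 t) (φ1 (t + Real.pi / 3) - t)
      + eF l (G2 t) (φ2 (t + 2 * Real.pi / 3) - t)) := by
  set A : ℝ → ℂ := fun t => ee (-((l : ℝ) * t)) * eF l (G1 t) (φ1 (t + Real.pi / 3) - t) with hA
  set B : ℝ → ℂ := fun t => ee (-((l : ℝ) * t)) * eF l (G2 t) (φ2 (t + 2 * Real.pi / 3) - t) with hB
  have kE : BM (fun t : ℝ => ee (-((l : ℝ) * t))) 1 :=
    ⟨continuous_ee.measurable.comp ((measurable_id.const_mul _).neg), fun t => by rw [norm_ee]⟩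
  obtain ⟨E1, e1⟩ := eF_BM (l := l) h1 (a := fun t => φ1 (t + Real.pi / 3) - t)
    ((m1.comp (measurable_id.add_const _)).sub measurable_id)
  obtain ⟨E2, e2⟩ := eF_BM (l := l) h2 (a := fun t => φ2 (t + 2 * Real.pi / 3) - t)
    ((m2.comp (measurable_id.add_const _)).sub measurable_id)
  have kA : BM A (1 * E1) := kE.mul e1
  have kB : BM B (1 * E2) := kE.mul e2
  have pE : ∀ t : ℝ, ee (-((l : ℝ) * (t + 2 * Real.pi))) = ee (-((l : ℝ) * t)) := by
    intro t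
    have := ee_int_per (-l) (-((l : ℝ) * t))
    rw [← this]
    congr 1
    push_cast
    ring
  have pA : ∀ t, A (t + 2 * Real.pi) = A t := by
    intro t
    simp only [hA]
    rw [pE, q1, show t + 2 * Real.pi + Real.pi / 3 = t + Real.pi / 3 + 2 * Real.pi by ring, r1]
    congr 2
    ring
  have pB : ∀ t, B (t + 2 * Real.pi) = B t := by
    intro t
    simp only [hB]
    rw [pE, q2, show t + 2 * Real.pi + 2 * Real.pi / 3 = t + 2 * Real.pi / 3 + 2 * Real.pi by ring, r2]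
    congr 2
    ring
  have dA : ∀ θ, eD (fun θ => ee (θ - Real.pi / 3) * G1 (θ - Real.pi / 3)) φ1 l θ = A (θ + -(Real.pi / 3)) := by
    intro θ
    simp only [hA]
    have := eD_frame (G1 (θ - Real.pi / 3)) (θ - Real.pi / 3) (φ1 θ) l
      (fun θ => ee (θ - Real.pi / 3) * G1 (θ - Real.pi / 3)) θ φ1 rfl rfl
    rw [this, ← sub_eq_add_neg, sub_add_cancel]
  have dB : ∀ θ, eD (fun θ => ee (θ - 2 * Real.pi / 3) * G2 (θ - 2 * Real.pi / 3)) φ2 l θ =
      B (θ + -(2 * Real.pi / 3)) := by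
    intro θ
    simp only [hB]
    have := eD_frame (G2 (θ - 2 * Real.pi / 3)) (θ - 2 * Real.pi / 3) (φ2 θ) l
      (fun θ => ee (θ - 2 * Real.pi / 3) * G2 (θ - 2 * Real.pi / 3)) θ φ2 rfl rfl
    rw [this, ← sub_eq_add_neg, sub_add_cancel]
  unfold eM av
  congr 1
  have s1 : ∫ θ in (0 : ℝ)..(2 * Real.pi), A (θ + -(Real.pi / 3)) = ∫ t in (0 : ℝ)..(2 * Real.pi), A t := shiftC pA _
  have s2 : ∫ θ in (0 : ℝ)..(2 * Real.pi), B (θ + -(2 * Real.pi / 3)) = ∫ t in (0 : ℝ)..(2 * Real.pi), B t :=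
    shiftC pB _
  simp_rw [dA, dB]
  have iA : IntervalIntegrable (fun θ => A (θ + -(Real.pi / 3))) volume 0 (2 * Real.pi) :=
    intg_of_bddC (kA.m.comp (measurable_id.add_const _)) (fun t => kA.b _) _ _
  have iB : IntervalIntegrable (fun θ => B (θ + -(2 * Real.pi / 3))) volume 0 (2 * Real.pi) :=
    intg_of_bddC (kB.m.comp (measurable_id.add_const _)) (fun t => kB.b _) _ _
  rw [intervalIntegral.integral_add iA iB, s1, s2, ← intervalIntegral.integral_add (kA.i _ _) (kB.i _ _)]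
  refine intervalIntegral.integral_congr fun t _ => ?_
  simp only [hA, hB]
  ring

/-- the aligned moments of the rest -/
theorem eM_rest {P : Par} (hr : P.Reg) {β ρ : ℝ → ℂ} {C D : ℝ} (h : BM β C) (k : BM ρ D)
    (q1 : ∀ t, β (t + 2 * Real.pi) = β t) (q2 : ∀ t, ρ (t + 2 * Real.pi) = ρ t) (l : ℤ) :
    eM (f1R β ρ) (f2R β ρ) P.ph1 P.ph2 (l : ℝ) =
    av fun t => ee (-((l : ℝ) * t)) * (eF l (g1L (β t) (ρ t)) (P.ph1 (t + Real.pi / 3) - t)
      + eF l (g2L (β t) (ρ t)) (P.ph2 (t + 2 * Real.pi / 3) - t)) := by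
  obtain ⟨E1, e1⟩ := g1L_BM h k
  obtain ⟨E2, e2⟩ := g2L_BM h k
  exact eM_frame e1 e2 (fun t => by rw [q1, q2]) (fun t => by rw [q1, q2]) hr.mph1 hr.mph2 hr.pph1 hr.pph2 l

/-- the aligned moments of the data -/
theorem eM_data {P : Par} (hr : P.Reg) {b z : ℝ → ℂ} (d : Dat b z) (l : ℤ) :
    eM (P.F1 b z) (P.F2 b z) P.ph1 P.ph2 (l : ℝ) =
    av fun t => ee (-((l : ℝ) * t)) * (eF l ((P.w t : ℂ) * g1 (b t) (z t)) (P.ph1 (t + Real.pi / 3) - t)
      + eF l ((P.w t : ℂ) * g2 (b t) (z t)) (P.ph2 (t + 2 * Real.pi / 3) - t)) := by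
  obtain ⟨D, k1, k2, _⟩ := g_BMd d
  obtain ⟨C, hC⟩ := (w_br hr).b
  have hw : BM (fun t => (P.w t : ℂ)) C :=
    ⟨Complex.measurable_ofReal.comp (w_br hr).m, fun t => by rw [Complex.norm_real, Real.norm_eq_abs]; exact hC t⟩
  have hp : ∀ t, P.w (t + 2 * Real.pi) = P.w t := fun t => by
    rw [show t + 2 * Real.pi = t + Real.pi + Real.pi by ring, hr.wgt.per, hr.wgt.per]
  have hb : ∀ t, b (t + 2 * Real.pi) = b t := fun t => by
    rw [show t + 2 * Real.pi = t + Real.pi + Real.pi by ring, d.pb, d.pb]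
  have hz : ∀ t, z (t + 2 * Real.pi) = z t := fun t => by
    rw [show t + 2 * Real.pi = t + Real.pi + Real.pi by ring, d.pz, d.pz, neg_neg]
  have h := eM_frame (hw.mul k1) (hw.mul k2) (fun t => by rw [hp, hb, hz]) (fun t => by rw [hp, hb, hz])
    hr.mph1 hr.mph2 hr.pph1 hr.pph2 l
  rw [← h]
  have e1 : P.F1 b z = fun θ => ee (θ - Real.pi / 3) *
      ((P.w (θ - Real.pi / 3) : ℂ) * g1 (b (θ - Real.pi / 3)) (z (θ - Real.pi / 3))) := by
    funext θ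
    have := F1_at (P := P) (b := b) (z := z) (θ - Real.pi / 3)
    rw [sub_add_cancel] at this
    rw [this]
    ring
  have e2 : P.F2 b z = fun θ => ee (θ - 2 * Real.pi / 3) *
      ((P.w (θ - 2 * Real.pi / 3) : ℂ) * g2 (b (θ - 2 * Real.pi / 3)) (z (θ - 2 * Real.pi / 3))) := by
    funext θ
    have := F2_at (P := P) (b := b) (z := z) (θ - 2 * Real.pi / 3)
    rw [sub_add_cancel] at this
    rw [this]
    ring
  rw [e1, e2]

end Pool.Agent.Helper43.SH
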