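import Pool.Agent.Helper43.SH.Sym

/-!
# SHARP (MP_b21509_co), link (4): the form with `f` a function of `|z₀|²`
-/

set_option autoImplicit false

namespace Pool.Agent.Helper43.SH

open Pool.Agent.Helper88.P4

/-- LINK (4), dead zone form, `f` a function of `|z₀|²` -/
def P4DF (f : ℝ → ℝ) (P2 P3 lo hi be R : ℝ) : Prop :=
  ∀ x0 y0 : ℝ, x0 ^ 2 + 3 * y0 ^ 2 ≤ R ^ 2 → ∀ c h : ℝ, lo ≤ c → c ≤ hi → |h| ≤ be →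
  ∀ b g x y : ℝ, Dom b g x y → Ineq (f (x0 ^ 2 + 3 * y0 ^ 2)) P2 P3 c h x0 y0 b g x y

/-- the statement on the quarter `x0, y0 ≥ 0` -/
def P4QF (f : ℝ → ℝ) (P2 P3 lo hi be R : ℝ) : Prop :=
  ∀ x0 y0 : ℝ, 0 ≤ x0 → 0 ≤ y0 → x0 ^ 2 + 3 * y0 ^ 2 ≤ R ^ 2 → ∀ c h : ℝ, lo ≤ c → c ≤ hi → |h| ≤ be →
  ∀ b g x y : ℝ, Dom b g x y → Ineq (f (x0 ^ 2 + 3 * y0 ^ 2)) P2 P3 c h x0 y0 b g x y

/-- the inequality is monotone in `f` -/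
theorem Ineq_mono {f f' P2 P3 c h x0 y0 b g x y : ℝ} (hf : f' ≤ f) (H : Ineq f P2 P3 c h x0 y0 b g x y) :
    Ineq f' P2 P3 c h x0 y0 b g x y := by
  unfold Ineq at *
  have h1 : 0 ≤ (f - f') * ((x - x0) ^ 2 + (y - y0) ^ 2) := mul_nonneg (sub_nonneg.2 hf) (by positivity)
  nlinarith [H, h1]

/-- LINK (4) on the quarter `x0, y0 ≥ 0` gives it everywhere -/
theorem P4DF_of_P4QF {f : ℝ → ℝ} {P2 P3 lo hi be R : ℝ} (H : P4QF f P2 P3 lo hi be R) :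
    P4DF f P2 P3 lo hi be R := by
  have K : ∀ x0 y0 : ℝ, 0 ≤ y0 → x0 ^ 2 + 3 * y0 ^ 2 ≤ R ^ 2 →
      ∀ c h : ℝ, lo ≤ c → c ≤ hi → |h| ≤ be →
      ∀ b g x y : ℝ, Dom b g x y → Ineq (f (x0 ^ 2 + 3 * y0 ^ 2)) P2 P3 c h x0 y0 b g x y := by
    intro x0 y0 hy h2 c h hc1 hc2 hh b g x y hD
    rcases le_total 0 x0 with hx | hx
    · exact H x0 y0 hx hy h2 c h hc1 hc2 hh b g x y hD
    · have h3 := H (-x0) y0 (by linarith) hy (by rwa [neg_sq]) c (-h) hc1 hc2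
        (by rwa [abs_neg]) b (-g) (-x) y (Dom_mir hD)
      rw [neg_sq] at h3
      exact Ineq_mir h3
  intro x0 y0 h2 c h hc1 hc2 hh b g x y hD
  rcases le_total 0 y0 with hy | hy
  · exact K x0 y0 hy h2 c h hc1 hc2 hh b g x y hD
  · have h3 := K (-x0) (-y0) (by linarith) (by rwa [neg_sq, neg_sq]) c h hc1
      hc2 hh b g (-x) (-y) (Dom_neg hD)
    rw [neg_sq, neg_sq] at h3
    exact Ineq_neg h3

/-- a quarter statement from rectangular cells with constants `F i ≥ f` on the cell -/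
theorem P4QF_of_cells {ι : Type} {f : ℝ → ℝ} {P2 P3 lo hi be R : ℝ} (X0 X1 Y0 Y1 : ι → ℝ) (G : ι → ℝ)
    (hcov : ∀ x0 y0 : ℝ, 0 ≤ x0 → 0 ≤ y0 → x0 ^ 2 + 3 * y0 ^ 2 ≤ R ^ 2 →
      ∃ i, X0 i ≤ x0 ∧ x0 ≤ X1 i ∧ Y0 i ≤ y0 ∧ y0 ≤ Y1 i)
    (hF : ∀ i x0 y0, X0 i ≤ x0 → x0 ≤ X1 i → Y0 i ≤ y0 → y0 ≤ Y1 i → f (x0 ^ 2 + 3 * y0 ^ 2) ≤ G i)
    (H : ∀ i x0 y0, X0 i ≤ x0 → x0 ≤ X1 i → Y0 i ≤ y0 → y0 ≤ Y1 i → x0 ^ 2 + 3 * y0 ^ 2 ≤ R ^ 2 →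
      ∀ c h : ℝ, lo ≤ c → c ≤ hi → |h| ≤ be → ∀ b g x y : ℝ, Dom b g x y →
      Ineq (G i) P2 P3 c h x0 y0 b g x y) : P4QF f P2 P3 lo hi be R := by
  intro x0 y0 hx hy h2 c h hc1 hc2 hh b g x y hD
  obtain ⟨i, i1, i2, i3, i4⟩ := hcov x0 y0 hx hy h2
  exact Ineq_mono (hF i x0 y0 i1 i2 i3 i4) (H i x0 y0 i1 i2 i3 i4 h2 c h hc1 hc2 hh b g x y hD)

/-- for `f = α - β |z₀|²` with `β ≥ 0` the constant of a cell in the quarter is the value at its lower left corner -/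
theorem quad_le_cell {α β X0 Y0 x0 y0 G : ℝ} (hβ : 0 ≤ β) (hX : 0 ≤ X0) (hY : 0 ≤ Y0) (hx : X0 ≤ x0)
    (hy : Y0 ≤ y0) (hG : α - β * (X0 ^ 2 + 3 * Y0 ^ 2) ≤ G) : α - β * (x0 ^ 2 + 3 * y0 ^ 2) ≤ G := by
  have h1 : X0 ^ 2 ≤ x0 ^ 2 := by nlinarith
  have h2 : Y0 ^ 2 ≤ y0 ^ 2 := by nlinarith
  nlinarith

/-- the square grid of side `s` covers the quarter -/
theorem grid_cover {s x0 y0 : ℝ} (hs : 0 < s) (hx : 0 ≤ x0) (hy : 0 ≤ y0) :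
    ∃ i j : ℕ, s * i ≤ x0 ∧ x0 ≤ s * (i + 1) ∧ s * j ≤ y0 ∧ y0 ≤ s * (j + 1) := by
  refine ⟨⌊x0 / s⌋₊, ⌊y0 / s⌋₊, ?_, ?_, ?_, ?_⟩
  · have := Nat.floor_le (div_nonneg hx hs.le)
    rwa [le_div_iff₀ hs, mul_comm] at this
  · have := (Nat.lt_floor_add_one (x0 / s)).le
    rwa [div_le_iff₀ hs, mul_comm] at this
  · have := Nat.floor_le (div_nonneg hy hs.le)
    rwa [le_div_iff₀ hs, mul_comm] at this
  · have := (Nat.lt_floor_add_one (y0 / s)).le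
    rwa [div_le_iff₀ hs, mul_comm] at this

end Pool.Agent.Helper43.SH
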