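import Pool.Agent.Helper88.SH.P4

/-!
# SHARP (MP_b21509_co), link (4): the symmetries, reduction to the quarter `x0, y0 ≥ 0`
-/

set_option autoImplicit false

namespace Pool.Agent.Helper43.SH

open Pool.Agent.Helper88.P4

/-- `rk` is invariant under `x → -x` in both vectors -/
theorem rk_mir (Dx Dy ex ey : ℝ) : rk (-Dx) Dy (-ex) ey = rk Dx Dy ex ey := by
  unfold rk
  rw [nr_neg_left, nr_neg_left, neg_mul_neg]

/-- the symmetry `z → -z` of the four edges -/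
theorem RS_neg (x0 y0 b g x y : ℝ) : RS (-x0) (-y0) b g (-x) (-y) = RS x0 y0 b g x y := by
  unfold RS
  simp only [sub_neg_eq_add, ← sub_eq_add_neg]
  ring

/-- the mirror symmetry `x → -x`, `g → -g` of the four edges -/
theorem RS_mir (x0 y0 b g x y : ℝ) : RS (-x0) y0 b (-g) (-x) y = RS x0 y0 b g x y := by
  unfold RS
  have e1 := rk_mir (-1 / 2 + x0) (1 / 2 + y0) (-1 / 2 - b / 2 + 3 * g + x) (1 / 2 - b / 2 - g / 4 + y)
  have e2 := rk_mir (-1 / 2 - x0) (1 / 2 - y0) (-1 / 2 - b / 2 + 3 * g - x) (1 / 2 - b / 2 - g / 4 - y)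
  have e3 := rk_mir (1 / 2 + x0) (1 / 2 + y0) (1 / 2 + b / 2 + 3 * g + x) (1 / 2 - b / 2 + g / 4 + y)
  have e4 := rk_mir (1 / 2 - x0) (1 / 2 - y0) (1 / 2 + b / 2 + 3 * g - x) (1 / 2 - b / 2 + g / 4 - y)
  rw [← e1, ← e2, ← e3, ← e4]
  ring_nf

theorem Dom_neg {b g x y : ℝ} (h : Dom b g x y) : Dom b g (-x) (-y) := by
  obtain ⟨h1, X, V, hX, hV, hx, hy⟩ := h
  refine ⟨h1, -X, -V, by rwa [abs_neg], by rwa [abs_neg], ?_, ?_⟩
  · rw [hx]; ring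
  · rw [hy]; ring

theorem Dom_mir {b g x y : ℝ} (h : Dom b g x y) : Dom b (-g) (-x) y := by
  obtain ⟨h1, X, V, hX, hV, hx, hy⟩ := h
  refine ⟨by rwa [neg_sq], -X, V, by rwa [abs_neg], hV, ?_, ?_⟩
  · rw [hx]; ring
  · rw [hy]; ring

theorem Ineq_neg {f P2 P3 c h x0 y0 b g x y : ℝ} (H : Ineq f P2 P3 c h (-x0) (-y0) b g (-x) (-y)) :
    Ineq f P2 P3 c h x0 y0 b g x y := by
  unfold Ineq at *
  rw [RS_neg] at H
  nlinarith [H]

theorem Ineq_mir {f P2 P3 c h x0 y0 b g x y : ℝ} (H : Ineq f P2 P3 c (-h) (-x0) y0 b (-g) (-x) y) :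
    Ineq f P2 P3 c h x0 y0 b g x y := by
  unfold Ineq at *
  rw [RS_mir] at H
  nlinarith [H]

/-- LINK (4) on the quarter `x0, y0 ≥ 0` gives it everywhere -/
theorem P4D_of_P4Q {f P2 P3 lo hi be r R : ℝ} (H : P4Q f P2 P3 lo hi be r R) :
    P4D f P2 P3 lo hi be r R := by
  -- the half `x0 ≥ 0` or `x0 ≤ 0` with `y0 ≥ 0`
  have K : ∀ x0 y0 : ℝ, 0 ≤ y0 → r ^ 2 ≤ x0 ^ 2 + 3 * y0 ^ 2 → x0 ^ 2 + 3 * y0 ^ 2 ≤ R ^ 2 →
      ∀ c h : ℝ, lo ≤ c → c ≤ hi → |h| ≤ be →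
      ∀ b g x y : ℝ, Dom b g x y → Ineq f P2 P3 c h x0 y0 b g x y := by
    intro x0 y0 hy h1 h2 c h hc1 hc2 hh b g x y hD
    rcases le_total 0 x0 with hx | hx
    · exact H x0 y0 hx hy h1 h2 c h hc1 hc2 hh b g x y hD
    · refine Ineq_mir (H (-x0) y0 (by linarith) hy (by rwa [neg_sq]) (by rwa [neg_sq]) c (-h) hc1 hc2
        (by rwa [abs_neg]) b (-g) (-x) y (Dom_mir hD))
  intro x0 y0 h1 h2 c h hc1 hc2 hh b g x y hD
  rcases le_total 0 y0 with hy | hy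
  · exact K x0 y0 hy h1 h2 c h hc1 hc2 hh b g x y hD
  · exact Ineq_neg (K (-x0) (-y0) (by linarith) (by rwa [neg_sq, neg_sq]) (by rwa [neg_sq, neg_sq]) c h hc1
      hc2 hh b g (-x) (-y) (Dom_neg hD))

end Pool.Agent.Helper43.SH
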