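import Pool.Agent.Helper25.SH.Leaf
import Pool.Agent.Helper50.SH.Loc
import Pool.Agent.Helper43.SH.Sym2

/-!
# SHARP (MP_b21509_co), link (4): from the list of root cells to the local lemma

`loc_of_roots`: if every root `(F, B)` of a list is proved (`AllIn 1048576 (PG F) B`, helper25's `run_good`) and the list covers the quarter
`x0, y0 ≥ 0` of the disc `|z₀| ≤ 1/2` with sufficient numbers `F` (`covAll`, decidable), then `P4F (17/20) (4/5) 1 (3/2) ..` holds on that disc.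
-/

set_option autoImplicit false

namespace Pool.Agent.Helper43.SH

open Pool.Agent.Helper25.SH Pool.Agent.Helper88.P4 Helper50.SH

/-- the root `r` contains the base cell and the whole `ζ` box, and its number `F` is at least `N f(lower left corner of the cell)` -/
def inR (r : ℕ × Bx) (x u y v : ℕ) : Bool :=
  Nat.ble r.2.x x && (Nat.ble (x + u) (r.2.x + r.2.u) && (Nat.ble r.2.y y && (Nat.ble (y + v) (r.2.y + r.2.v) &&
  (Nat.ble r.2.a 131072 && (Nat.ble 5636096 (r.2.a + r.2.p) && (Nat.ble r.2.e 131072 && (Nat.ble 2752512 (r.2.e + r.2.q) &&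
  Nat.ble 18691697672192 (20971520 * r.1 + 16 * (x * x + 3 * (y * y))))))))))

/-- the cell is covered, with at most `d` bisections -/
def cov (L : List (ℕ × Bx)) : ℕ → ℕ → ℕ → ℕ → ℕ → Bool
  | 0, x, u, y, v => L.any (fun r => inR r x u y v)
  | d + 1, x, u, y, v => L.any (fun r => inR r x u y v) ||
      ((cov L d x (u / 2) y v && cov L d (x + u / 2) (u - u / 2) y v) ||
       (cov L d x u y (v / 2) && cov L d x u (y + v / 2) (v - v / 2)))

/-- all cells of the `1/32 × 1/64` grid with lower left corner in the disc -/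
def covAll (L : List (ℕ × Bx)) : Bool :=
  (List.range 16).all (fun i => (List.range 19).all (fun j =>
    Nat.blt 274877906944 ((32768 * i) * (32768 * i) + 3 * ((16384 * j) * (16384 * j))) ||
      cov L 3 (32768 * i) 32768 (16384 * j) 16384))

/-- the statement at one base point -/
def Ok (x0 y0 : ℝ) : Prop :=
  ∀ c h : ℝ, -(18875 / 1048576) ≤ c → c ≤ 37749 / 1048576 → |h| ≤ 33903 / 1048576 →
    ∀ b g x y : ℝ, Dom b g x y → Ineq (17 / 20 - 4 / 5 * (x0 ^ 2 + 3 * y0 ^ 2)) 1 (3 / 2) c h x0 y0 b g x y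

theorem ok_of_inR {r : ℕ × Bx} (hr : AllIn 1048576 (PG r.1) r.2) {x u y v : ℕ} (h : inR r x u y v = true)
    {x0 y0 : ℝ} (h1 : (x : ℝ) ≤ 1048576 * x0) (h2 : 1048576 * x0 ≤ x + u) (h3 : (y : ℝ) ≤ 1048576 * y0)
    (h4 : 1048576 * y0 ≤ y + v) (hd : x0 ^ 2 + 3 * y0 ^ 2 ≤ 1 / 4) : Ok x0 y0 := by
  have hx : 0 ≤ x0 := by
    have : (0 : ℝ) ≤ x := Nat.cast_nonneg x
    linarith
  have hy : 0 ≤ y0 := by
    have : (0 : ℝ) ≤ y := Nat.cast_nonneg y
    linarith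
  simp only [inR, Bool.and_eq_true] at h
  obtain ⟨i1, i2, i3, i4, i5, i6, i7, i8, i9⟩ := h
  have c1 : ((r.2.x : ℕ) : ℝ) ≤ x := Nat.cast_le.2 (Nat.le_of_ble_eq_true i1)
  have c2 : ((x + u : ℕ) : ℝ) ≤ ((r.2.x + r.2.u : ℕ) : ℝ) := Nat.cast_le.2 (Nat.le_of_ble_eq_true i2)
  have c3 : ((r.2.y : ℕ) : ℝ) ≤ y := Nat.cast_le.2 (Nat.le_of_ble_eq_true i3)
  have c4 : ((y + v : ℕ) : ℝ) ≤ ((r.2.y + r.2.v : ℕ) : ℝ) := Nat.cast_le.2 (Nat.le_of_ble_eq_true i4)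
  have c5 : ((r.2.a : ℕ) : ℝ) ≤ ((131072 : ℕ) : ℝ) := Nat.cast_le.2 (Nat.le_of_ble_eq_true i5)
  have c6 : ((5636096 : ℕ) : ℝ) ≤ ((r.2.a + r.2.p : ℕ) : ℝ) := Nat.cast_le.2 (Nat.le_of_ble_eq_true i6)
  have c7 : ((r.2.e : ℕ) : ℝ) ≤ ((131072 : ℕ) : ℝ) := Nat.cast_le.2 (Nat.le_of_ble_eq_true i7)
  have c8 : ((2752512 : ℕ) : ℝ) ≤ ((r.2.e + r.2.q : ℕ) : ℝ) := Nat.cast_le.2 (Nat.le_of_ble_eq_true i8)
  have c9 : ((18691697672192 : ℕ) : ℝ) ≤ ((20971520 * r.1 + 16 * (x * x + 3 * (y * y)) : ℕ) : ℝ) :=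
    Nat.cast_le.2 (Nat.le_of_ble_eq_true i9)
  push_cast at c2 c4 c5 c6 c7 c8 c9
  have x1 : x0 ≤ 1 / 2 := le_of_sq (by nlinarith [sq_nonneg y0]) (by norm_num)
  have y1 : y0 ≤ 289 / 1000 := le_of_sq (by nlinarith [sq_nonneg x0]) (by norm_num)
  intro c h hc1 hc2 hh b g X Y hD
  obtain ⟨b1, b2, -⟩ := dom_seven b g X Y hD
  have b1' := abs_le.1 (show |X| ≤ 231 / 100 by linarith)
  have b2' := abs_le.1 (show |Y| ≤ 103 / 100 by linarith)
  have key := hr x0 y0 (X - x0 + 3) (Y - y0 + 3 / 2) (by linarith) (by linarith) (by linarith) (by linarith)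
    (by linarith) (by linarith) (by linarith) (by linarith) hx x1 hy (by linarith) hd c h hc1 hc2 hh b g
  have eX : x0 + (X - x0 + 3 - 3) = X := by ring
  have eY : y0 + (Y - y0 + 3 / 2 - 3 / 2) = Y := by ring
  rw [eX, eY] at key
  refine Ineq_mono ?_ (key hD)
  have k1 : (x : ℝ) * x ≤ (1048576 * x0) * (1048576 * x0) := mul_le_mul h1 h1 (Nat.cast_nonneg x) (by positivity)
  have k2 : (y : ℝ) * y ≤ (1048576 * y0) * (1048576 * y0) := mul_le_mul h3 h3 (Nat.cast_nonneg y) (by positivity)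
  have k3 : (18691697672192 : ℝ) ≤ 20971520 * r.1 + 16 * (1099511627776 * (x0 ^ 2 + 3 * y0 ^ 2)) := by nlinarith
  rw [le_div_iff₀ (by norm_num)]
  nlinarith

theorem ok_of_cov (L : List (ℕ × Bx)) (hL : ∀ r ∈ L, AllIn 1048576 (PG r.1) r.2) (d : ℕ) :
    ∀ x u y v : ℕ, cov L d x u y v = true → ∀ x0 y0 : ℝ, (x : ℝ) ≤ 1048576 * x0 → 1048576 * x0 ≤ x + u →
      (y : ℝ) ≤ 1048576 * y0 → 1048576 * y0 ≤ y + v → x0 ^ 2 + 3 * y0 ^ 2 ≤ 1 / 4 → Ok x0 y0 := by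
  have base : ∀ x u y v : ℕ, L.any (fun r => inR r x u y v) = true → ∀ x0 y0 : ℝ, (x : ℝ) ≤ 1048576 * x0 →
      1048576 * x0 ≤ x + u → (y : ℝ) ≤ 1048576 * y0 → 1048576 * y0 ≤ y + v → x0 ^ 2 + 3 * y0 ^ 2 ≤ 1 / 4 →
      Ok x0 y0 := by
    intro x u y v h x0 y0 h1 h2 h3 h4 hd
    obtain ⟨r, hr, hr2⟩ := List.any_eq_true.1 h
    exact ok_of_inR (hL r hr) hr2 h1 h2 h3 h4 hd
  induction d with
  | zero => exact base
  | succ d ih =>
    intro x u y v h x0 y0 h1 h2 h3 h4 hd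
    simp only [cov, Bool.or_eq_true, Bool.and_eq_true] at h
    rcases h with h | ⟨ha, hb⟩ | ⟨ha, hb⟩
    · exact base x u y v h x0 y0 h1 h2 h3 h4 hd
    · rcases le_total (1048576 * x0) (x + (u / 2 : ℕ)) with hc | hc
      · exact ih _ _ _ _ ha x0 y0 h1 hc h3 h4 hd
      · refine ih _ _ _ _ hb x0 y0 (by push_cast; exact hc) ?_ h3 h4 hd
        rw [half_cast, Nat.cast_add]
        linarith
    · rcases le_total (1048576 * y0) (y + (v / 2 : ℕ)) with hc | hc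
      · exact ih _ _ _ _ ha x0 y0 h1 h2 h3 hc hd
      · refine ih _ _ _ _ hb x0 y0 h1 h2 (by push_cast; exact hc) ?_ hd
        rw [half_cast, Nat.cast_add]
        linarith

theorem ok_of_covAll (L : List (ℕ × Bx)) (hL : ∀ r ∈ L, AllIn 1048576 (PG r.1) r.2) (h : covAll L = true)
    (x0 y0 : ℝ) (hx : 0 ≤ x0) (hy : 0 ≤ y0) (hd : x0 ^ 2 + 3 * y0 ^ 2 ≤ 1 / 4) : Ok x0 y0 := by
  have x1 : x0 ≤ 1 / 2 := le_of_sq (by nlinarith [sq_nonneg y0]) (by norm_num)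
  have y1 : y0 ≤ 289 / 1000 := le_of_sq (by nlinarith [sq_nonneg x0]) (by norm_num)
  obtain ⟨i, i1, i2, i3⟩ : ∃ i : ℕ, i < 16 ∧ (i : ℝ) ≤ 32 * x0 ∧ 32 * x0 ≤ i + 1 := by
    rcases lt_or_ge (32 * x0) 16 with hc | hc
    · refine ⟨⌊32 * x0⌋₊, ?_, Nat.floor_le (by positivity), (Nat.lt_floor_add_one _).le⟩
      exact (Nat.floor_lt (by positivity)).2 (by exact_mod_cast hc)
    · exact ⟨15, by norm_num, by push_cast; linarith, by push_cast; linarith⟩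
  obtain ⟨j, j1, j2, j3⟩ : ∃ j : ℕ, j < 19 ∧ (j : ℝ) ≤ 64 * y0 ∧ 64 * y0 ≤ j + 1 := by
    refine ⟨⌊64 * y0⌋₊, ?_, Nat.floor_le (by positivity), (Nat.lt_floor_add_one _).le⟩
    refine (Nat.floor_lt (by positivity)).2 ?_
    push_cast
    linarith
  have h1 := List.all_eq_true.1 (List.all_eq_true.1 h i (List.mem_range.2 i1)) j (List.mem_range.2 j1)
  rcases Bool.or_eq_true _ _ |>.mp h1 with h2 | h2
  · exfalso
    have h3 : 274877906944 < (32768 * i) * (32768 * i) + 3 * ((16384 * j) * (16384 * j)) :=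
      Nat.le_of_ble_eq_true h2
    have h4 : ((274877906944 : ℕ) : ℝ) <
        (((32768 * i) * (32768 * i) + 3 * ((16384 * j) * (16384 * j)) : ℕ) : ℝ) := Nat.cast_lt.2 h3
    push_cast at h4
    have k1 : (i : ℝ) * i ≤ (32 * x0) * (32 * x0) := mul_le_mul i2 i2 (Nat.cast_nonneg i) (by positivity)
    have k2 : (j : ℝ) * j ≤ (64 * y0) * (64 * y0) := mul_le_mul j2 j2 (Nat.cast_nonneg j) (by positivity)
    nlinarith
  · refine ok_of_cov L hL 3 _ _ _ _ h2 x0 y0 ?_ ?_ ?_ ?_ hd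
    · push_cast; linarith
    · push_cast; linarith
    · push_cast; linarith
    · push_cast; linarith

/-- LINK (4): the local lemma from the list of root cells, `f = 17/20 - 4/5 |z₀|²`, `|z₀| ≤ 1/2` -/
theorem loc_of_roots (L : List (ℕ × Bx)) (hL : ∀ r ∈ L, AllIn 1048576 (PG r.1) r.2) (h : covAll L = true) :
    P4F (17 / 20) (4 / 5) 1 (3 / 2) (-(18875 / 1048576)) (37749 / 1048576) (33903 / 1048576) (1 / 2) := by
  refine P4F_of_quarter ?_
  intro x0 y0 hx hy hd c h' hc1 hc2 hh b g x y hD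
  exact ok_of_covAll L hL h x0 y0 hx hy (by rw [show (1 : ℝ) / 4 = (1 / 2) ^ 2 by norm_num]; exact hd) c h' hc1 hc2
    hh b g x y hD

theorem P4F_mono {α β P2 P3 lo hi be R α' β' lo' hi' be' R' : ℝ} (H : P4F α β P2 P3 lo hi be R) (h1 : α' ≤ α)
    (h2 : β ≤ β') (h3 : lo ≤ lo') (h4 : hi' ≤ hi) (h5 : be' ≤ be) (h6 : R' ^ 2 ≤ R ^ 2) :
    P4F α' β' P2 P3 lo' hi' be' R' := by
  intro x0 y0 hd c h hc1 hc2 hh b g x y hD
  refine Ineq_mono ?_ (H x0 y0 (hd.trans h6) c h (h3.trans hc1) (hc2.trans h4) (hh.trans h5) b g x y hD)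
  nlinarith [sq_nonneg x0, sq_nonneg y0]

end Pool.Agent.Helper43.SH
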