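import Pool.Agent.Helper33.SH.Inst
import Pool.Agent.Helper43.SH.LocT
import Pool.Agent.Helper43.SH.Exp2
import Pool.Agent.Helper17.RC.Dens
import Pool.Agent.Helper30.SH.Cur
import Pool.Agent.Helper56.SH.Near

/-!
# SHARP (MP_b21509_co), zone I: the static conditions `Reg`, `Cur`, `Loc`, `Blo` of the instance `PI`

All for `|A| + 2 |B| ≤ 1/4`, which contains every `ZI_R`, `R ≤ 1/5`.
-/

set_option autoImplicit false

open MeasureTheory Set Filter Metric

namespace Pool.Agent.Helper43.SH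

open Helper49.LT hiding sg s3
open Helper49.RC Helper44.GQ Helper49.Sharp
open Helper56.RC (fc)
open Helper56.SH (Stat Cert StZ1 ZI)
open Helper87.RC (BM)
open Helper95.RC (Lf BF)
open Helper95.SH (Dat)
open Pool.Agent.Helper20.RC (wR hw DensI)
open Pool.Agent.Helper33.SH

/-! ### slopes of the exact angles -/

theorem ee_dd (a : ℝ) : HasDerivAt ee (Complex.I * ee a) a := by
  have h1 : HasDerivAt (fun x : ℝ => (x : ℂ) * Complex.I) Complex.I a := by
    simpa using (Complex.ofRealCLM.hasDerivAt (x := a)).mul_const Complex.I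
  have h2 := h1.cexp
  have e : Complex.exp ((a : ℂ) * Complex.I) * Complex.I = Complex.I * ee a := by
    unfold ee; ring
  rw [e] at h2
  exact h2

theorem ee_dk (k a : ℝ) : HasDerivAt (fun t => ee (k * t)) (Complex.I * k * ee (k * a)) a := by
  have h1 : HasDerivAt (fun t : ℝ => k * t) k a := by
    simpa using (hasDerivAt_id a).const_mul k
  have h2 := (ee_dd (k * a)).scomp a h1
  have e : k • (Complex.I * ee (k * a)) = Complex.I * k * ee (k * a) := by
    rw [Complex.real_smul]; ring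
  rw [e] at h2
  exact h2

/-- `z0' = -i X` -/
noncomputable def XB (A B : ℂ) (t : ℝ) : ℂ :=
  3 * (A * ee (-3 * t)) + 5 * (B * ee (-5 * t)) + 5 / 2 * (starRingEnd ℂ) (B * ee (-5 * t))

theorem zB_dd (A B : ℂ) (a : ℝ) : HasDerivAt (zB A B) (-(Complex.I * XB A B a)) a := by
  have h := (((ee_dk (-3) a).const_mul A).add ((ee_dk (-5) a).const_mul B)).sub
    ((ee_dk 5 a).const_mul (1 / 2 * (starRingEnd ℂ) B))
  have e1 : (fun t => A * ee (-3 * t) + B * ee (-5 * t) - 1 / 2 * (starRingEnd ℂ) B * ee (5 * t)) = zB A B := by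
    funext t
    rw [zB_eq]
    ring
  have e2 : A * (Complex.I * ((-3 : ℝ) : ℂ) * ee (-3 * a)) + B * (Complex.I * ((-5 : ℝ) : ℂ) * ee (-5 * a))
      - 1 / 2 * (starRingEnd ℂ) B * (Complex.I * ((5 : ℝ) : ℂ) * ee (5 * a)) = -(Complex.I * XB A B a) := by
    unfold XB
    rw [map_mul, conj_ee, show -(-5 * a) = 5 * a by ring]
    push_cast
    ring
  rw [← e2, ← e1]
  exact h

theorem slope (e z X : ℂ) (a b : ℝ) (he : ‖e‖ = 1) (h1 : ‖2 * z - X‖ ≤ a + 13 / 2 * b)
    (h2 : ‖z - X‖ ≤ 2 * a + 7 * b) (h3 : ‖z‖ ≤ a + 3 / 2 * b) (ha : 0 ≤ a) (hb : 0 ≤ b) (hab : a + 2 * b ≤ 1 / 4) :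
    1 / 100 ≤ 1 + (-(Complex.I * X) / (e + z)).im := by
  have hz : ‖z‖ ≤ 1 / 4 := by linarith
  have hw1 : 3 / 4 ≤ ‖e + z‖ := by
    have := norm_sub_norm_le e (-z)
    rw [sub_neg_eq_add, norm_neg, he] at this
    linarith
  have hw2 : ‖e + z‖ ≤ 5 / 4 := by
    have := norm_add_le e z
    rw [he] at this
    linarith
  have hn : 0 < Complex.normSq (e + z) := Complex.normSq_pos.2 fun h => by
    rw [h, norm_zero] at hw1
    linarith
  have e1 : (-(Complex.I * X) / (e + z)).im = -((X * (starRingEnd ℂ) (e + z)).re) / Complex.normSq (e + z) := by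
    rw [Complex.div_im, Complex.neg_im, Complex.neg_re, Complex.I_mul_im, Complex.I_mul_re, Complex.mul_re,
      Complex.conj_re, Complex.conj_im]
    field_simp
    ring
  have e2 : Complex.normSq (e + z) - (X * (starRingEnd ℂ) (e + z)).re = 1
      + ((2 * z - X) * (starRingEnd ℂ) e).re + ((z - X) * (starRingEnd ℂ) z).re := by
    have h4 : e.re * e.re + e.im * e.im = 1 := by
      have : Complex.normSq e = 1 := by rw [Complex.normSq_eq_norm_sq, he, one_pow]
      rwa [Complex.normSq_apply] at this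
    rw [Complex.normSq_apply]
    simp only [Complex.mul_re, Complex.conj_re, Complex.conj_im, Complex.add_re, Complex.add_im, Complex.sub_re,
      Complex.sub_im, Complex.re_ofNat, Complex.im_ofNat, Complex.mul_im]
    linear_combination h4
  have h4 := (abs_le.1 (Complex.abs_re_le_norm ((2 * z - X) * (starRingEnd ℂ) e))).1
  have h5 := (abs_le.1 (Complex.abs_re_le_norm ((z - X) * (starRingEnd ℂ) z))).1
  rw [norm_mul, Complex.norm_conj, he, mul_one] at h4
  rw [norm_mul, Complex.norm_conj] at h5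
  have h6 : ‖z - X‖ * ‖z‖ ≤ (2 * a + 7 * b) * (a + 3 / 2 * b) := mul_le_mul h2 h3 (norm_nonneg _) (by positivity)
  have h7 : a + 13 / 2 * b + (2 * a + 7 * b) * (a + 3 / 2 * b) ≤ 1 - 3 / 128 := by
    nlinarith [mul_nonneg ha hb, mul_nonneg ha (sub_nonneg.2 hab), mul_nonneg hb (sub_nonneg.2 hab), sq_nonneg b]
  have h8 : Complex.normSq (e + z) ≤ 25 / 16 := by
    rw [Complex.normSq_eq_norm_sq]
    nlinarith [norm_nonneg (e + z)]
  rw [e1, ← sub_nonneg]
  have e3 : 1 + -((X * (starRingEnd ℂ) (e + z)).re) / Complex.normSq (e + z) - 1 / 100 =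
      (99 / 100 * Complex.normSq (e + z) - (X * (starRingEnd ℂ) (e + z)).re) / Complex.normSq (e + z) := by
    field_simp
    ring
  rw [e3]
  refine div_nonneg ?_ hn.le
  linarith

theorem zX1 (A B : ℂ) (t : ℝ) : ‖2 * zB A B t - XB A B t‖ ≤ ‖A‖ + 13 / 2 * ‖B‖ := by
  have e : 2 * zB A B t - XB A B t = -(A * ee (-3 * t)) - 3 * (B * ee (-5 * t))
      - 7 / 2 * (starRingEnd ℂ) (B * ee (-5 * t)) := by
    unfold zB zp XB
    ring
  rw [e]
  refine (norm_sub_le _ _).trans ?_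
  refine (add_le_add (norm_sub_le _ _) le_rfl).trans ?_
  rw [norm_neg, norm_mul, norm_mul, norm_mul, norm_mul, Complex.norm_conj, norm_mul, norm_ee, norm_ee]
  norm_num
  linarith

theorem zX2 (A B : ℂ) (t : ℝ) : ‖zB A B t - XB A B t‖ ≤ 2 * ‖A‖ + 7 * ‖B‖ := by
  have e : zB A B t - XB A B t = -(2 * (A * ee (-3 * t))) - 4 * (B * ee (-5 * t))
      - 3 * (starRingEnd ℂ) (B * ee (-5 * t)) := by
    unfold zB zp XB
    ring
  rw [e]
  refine (norm_sub_le _ _).trans ?_
  refine (add_le_add (norm_sub_le _ _) le_rfl).trans ?_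
  rw [norm_neg, norm_mul, norm_mul, norm_mul, norm_mul, norm_mul, Complex.norm_conj, norm_mul, norm_ee, norm_ee]
  norm_num
  linarith

theorem zX3 (A B : ℂ) (t : ℝ) : ‖zB A B t‖ ≤ ‖A‖ + 3 / 2 * ‖B‖ := by
  refine (norm_zp_le _ _).trans (le_of_eq ?_)
  rw [norm_mul, norm_mul, norm_ee, norm_ee, mul_one, mul_one]

section

variable {A B : ℂ} (hZ : ‖A‖ + 2 * ‖B‖ ≤ 1 / 4)

include hZ

theorem slope1 (t : ℝ) : 1 / 100 ≤ 1 + (-(Complex.I * XB A B t) / (om + zB A B t)).im :=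
  slope om _ _ ‖A‖ ‖B‖ om_norm (zX1 A B t) (zX2 A B t) (zX3 A B t) (norm_nonneg _) (norm_nonneg _) hZ

theorem slope2 (t : ℝ) : 1 / 100 ≤ 1 + (Complex.I * XB A B t / (om ^ 2 - zB A B t)).im := by
  have h := slope (om ^ 2) (-zB A B t) (-XB A B t) ‖A‖ ‖B‖ (by rw [norm_pow, om_norm, one_pow])
    (by rw [show 2 * -zB A B t - -XB A B t = -(2 * zB A B t - XB A B t) by ring, norm_neg]; exact zX1 A B t)
    (by rw [show -zB A B t - -XB A B t = -(zB A B t - XB A B t) by ring, norm_neg]; exact zX2 A B t)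
    (by rw [norm_neg]; exact zX3 A B t) (norm_nonneg _) (norm_nonneg _) hZ
  rwa [mul_neg, neg_neg, ← sub_eq_add_neg] at h

theorem small (t : ℝ) : ‖zB A B t‖ ≤ 1 / 4 := by
  have h1 := zX3 A B t
  have h2 := norm_nonneg B
  linarith

theorem slit1 (t : ℝ) : om + zB A B t ∈ Complex.slitPlane := by
  refine Or.inl ?_
  have h1 := (abs_le.1 ((Complex.abs_re_le_norm (zB A B t)).trans (small hZ t))).1
  rw [Complex.add_re, om_re']
  linarith

theorem slit2 (t : ℝ) : om ^ 2 - zB A B t ∈ Complex.slitPlane := by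
  refine Or.inr ?_
  have h1 := (abs_le.1 ((Complex.abs_im_le_norm (zB A B t)).trans (small hZ t))).2
  have h3 : Real.sqrt 3 > 1 := by
    rw [gt_iff_lt, Real.lt_sqrt (by norm_num)]; norm_num
  have e : (om ^ 2).im = Real.sqrt 3 / 2 := by
    rw [pow_two, Complex.mul_im, om_re', om_im']; ring
  rw [Complex.sub_im, e]
  linarith

end

/-- the density of `θ - c + arg v (θ - c)` -/
theorem densI_ang {v v' : ℝ → ℂ} (hv : ∀ x, HasDerivAt v (v' x) x) (hcv : Continuous v')
    (hr : ∀ x, v x ∈ Complex.slitPlane) (hper : ∀ x, v (x + 2 * Real.pi) = v x)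
    (hs : ∀ x, 1 / 100 ≤ 1 + (v' x / v x).im) (c : ℝ) {ρ : ℝ} (hρ : 100 ≤ ρ) :
    DensI (fun θ => θ - c + (v (θ - c)).arg) ρ := by
  have hcont : Continuous v := continuous_iff_continuousAt.2 fun x => (hv x).continuousAt
  have hne : ∀ x, v x ≠ 0 := fun x => Complex.slitPlane_ne_zero (hr x)
  have hlog : ∀ x, HasDerivAt (fun θ : ℝ => Complex.log (v θ)) (v' x / v x) x := fun x =>
    (hv x).clog_real (hr x)
  have hd : ∀ x, HasDerivAt (fun θ : ℝ => θ + (v θ).arg) (1 + (v' x / v x).im) x := by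
    intro x
    have h1 : HasDerivAt (fun θ : ℝ => (Complex.log (v θ)).im) (v' x / v x).im x :=
      Complex.imCLM.hasFDerivAt.comp_hasDerivAt x (hlog x)
    have h3 : (fun θ : ℝ => θ + (v θ).arg) = fun θ : ℝ => θ + (Complex.log (v θ)).im := by
      funext θ; rw [Complex.log_im]
    rw [h3]
    exact (hasDerivAt_id x).add h1
  have hd' : ∀ x, HasDerivAt (fun θ : ℝ => θ - c + (v (θ - c)).arg) (1 + (v' (x - c) / v (x - c)).im) x := by
    intro x
    have h4 : HasDerivAt (fun θ : ℝ => θ - c) 1 x := by simpa using (hasDerivAt_id x).sub_const c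
    have h5 := (hd (x - c)).comp x h4
    rw [mul_one] at h5
    exact h5
  have hc' : Continuous fun x : ℝ => 1 + (v' (x - c) / v (x - c)).im :=
    continuous_const.add (Complex.continuous_im.comp
      ((hcv.comp (continuous_id.sub continuous_const)).div (hcont.comp (continuous_id.sub continuous_const))
        fun x => hne _))
  have h := Pool.Agent.Helper17.RC.densI_of_deriv hd' hc' (σ := 1 / 100) (by norm_num) (fun x => hs _) (fun x => by
    rw [show x + 2 * Real.pi - c = x - c + 2 * Real.pi by ring, hper]; ring)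
  intro F mF pF bF perF
  refine (h F mF pF bF perF).trans (mul_le_mul_of_nonneg_right ?_ ?_)
  · norm_num; exact hρ
  · exact intervalIntegral.integral_nonneg (by positivity) fun x _ => pF x

/-! ### the instance -/

section

variable {c : ZC} {A : ℝ} {B : ℂ} (hZ : |A| + 2 * ‖B‖ ≤ 1 / 4)

theorem boxC (hZ : |A| + 2 * ‖B‖ ≤ 1 / 4) : ‖(A : ℂ)‖ + 2 * ‖B‖ ≤ 1 / 4 := by
  rw [Complex.norm_real, Real.norm_eq_abs]
  exact hZ

theorem z0I_per (t : ℝ) : z0I A B (t + 2 * Real.pi) = z0I A B t := by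
  unfold z0I
  rw [show t + 2 * Real.pi = t + Real.pi + Real.pi by ring, zB_pi, zB_pi, neg_neg]

theorem cont_XB (A B : ℂ) : Continuous (XB A B) := by
  have k : ∀ k : ℝ, Continuous fun t : ℝ => ee (k * t) := fun k => continuous_ee.comp (continuous_const.mul continuous_id)
  unfold XB
  exact ((continuous_const.mul (continuous_const.mul (k _))).add (continuous_const.mul (continuous_const.mul (k _)))).add
    (continuous_const.mul (Complex.continuous_conj.comp (continuous_const.mul (k _))))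

include hZ

theorem eta_le : ‖(PI c A B).eta‖ ≤ 1 / 4 := by
  show ‖-2 * (A : ℂ) * (starRingEnd ℂ) B‖ ≤ 1 / 4
  rw [norm_mul, norm_mul, norm_neg, Complex.norm_conj, Complex.norm_real, Real.norm_eq_abs, Complex.norm_ofNat]
  have h1 := abs_nonneg A
  have h2 := norm_nonneg B
  nlinarith [mul_nonneg h1 h2]

/-- REGULARITY of the instance -/
theorem reg_PI (hρ : 100 ≤ c.rho) (hm : c.lam ≤ c.m) : (PI c A B).Reg := by
  have hC := boxC hZ
  have cz : Continuous (z0I A B) := continuous_zB A B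
  have hp := Real.pi_gt_three
  refine ⟨eta_le hZ, continuous_const, fun _ => rfl, ?_, ?_, ?_, ?_, ?_, ?_, ?_, ?_, ?_, ?_, ?_, ?_, ?_, ?_, ?_, ?_, ?_⟩
  · constructor <;>
    · show fc (fun _ => (0 : ℂ)) _ = 0
      unfold fc
      simp
  · exact Complex.measurable_arg.comp ((continuous_const.add cz).measurable)
  · exact Complex.measurable_arg.comp ((continuous_const.sub cz).measurable)
  · intro t
    show ee (om + z0I A B (t + 2 * Real.pi)).arg = ee (om + z0I A B t).arg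
    rw [z0I_per]
  · intro t
    show ee (om ^ 2 - z0I A B (t + 2 * Real.pi)).arg = ee (om ^ 2 - z0I A B t).arg
    rw [z0I_per]
  · exact (measurable_id.sub_const _).add (Complex.measurable_arg.comp
      ((continuous_const.add (cz.comp (continuous_id.sub continuous_const))).measurable))
  · exact (measurable_id.sub_const _).add (Complex.measurable_arg.comp
      ((continuous_const.sub (cz.comp (continuous_id.sub continuous_const))).measurable))
  · intro θ
    show θ + 2 * Real.pi - Real.pi / 3 + (om + z0I A B (θ + 2 * Real.pi - Real.pi / 3)).arg = _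
    rw [show θ + 2 * Real.pi - Real.pi / 3 = θ - Real.pi / 3 + 2 * Real.pi by ring, z0I_per]
    show _ = θ - Real.pi / 3 + (om + z0I A B (θ - Real.pi / 3)).arg + 2 * Real.pi
    ring
  · intro θ
    show θ + 2 * Real.pi - 2 * Real.pi / 3 + (om ^ 2 - z0I A B (θ + 2 * Real.pi - 2 * Real.pi / 3)).arg = _
    rw [show θ + 2 * Real.pi - 2 * Real.pi / 3 = θ - 2 * Real.pi / 3 + 2 * Real.pi by ring, z0I_per]
    show _ = θ - 2 * Real.pi / 3 + (om ^ 2 - z0I A B (θ - 2 * Real.pi / 3)).arg + 2 * Real.pi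
    ring
  · exact densI_ang (v := fun t => om + z0I A B t) (v' := fun t => -(Complex.I * XB A B t))
      (fun x => (zB_dd A B x).const_add om) (continuous_const.mul (cont_XB A B)).neg (slit1 hC)
      (fun x => by show om + z0I A B (x + 2 * Real.pi) = _; rw [z0I_per]) (slope1 hC) (Real.pi / 3) hρ
  · exact densI_ang (v := fun t => om ^ 2 - z0I A B t) (v' := fun t => Complex.I * XB A B t)
      (fun x => by
        have h := (zB_dd A B x).const_sub (om ^ 2)
        rwa [neg_neg] at h) (continuous_const.mul (cont_XB A B)) (slit2 hC)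
      (fun x => by show om ^ 2 - z0I A B (x + 2 * Real.pi) = _; rw [z0I_per]) (slope2 hC) (2 * Real.pi / 3) hρ
  · exact Pool.Agent.Helper99.RC.ps_meas _ _ _
  · intro φ
    exact Pool.Agent.Helper99.RC.ps_per _ _ _ _
  · intro φ
    refine (Pool.Agent.Helper99.RC.ps_abs _ _ _ _).trans ?_
    have h1 := abs_nonneg A
    have h2 := norm_nonneg B
    have h3 : |dI A B| ≤ 1 / 10 := by
      unfold dI
      have h5 : A ^ 2 ≤ 1 / 16 := by rw [← sq_abs]; nlinarith
      have h6 : ‖B‖ ^ 2 ≤ 1 / 64 := by nlinarith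
      rw [abs_le]
      constructor <;> nlinarith [sq_nonneg A, sq_nonneg ‖B‖]
    linarith
  · show (0 : ℝ) < 1 / 12
    norm_num
  · show (Function.support fun _ => (0 : ℂ)).Finite
    simp
  · show 0 ≤ c.m - c.lam
    linarith

/-- CURVATURE of the instance -/
theorem cur_PI (hρ : 100 ≤ c.rho) (hm : c.lam ≤ c.m) (hm' : c.m ≤ 1 - 2 * ‖(PI c A B).eta‖) : (PI c A B).Cur :=
  Pool.Agent.Helper30.SH.cur_zero _ (reg_PI hZ hρ hm) rfl hm'

/-- LOCAL LEMMA of the instance, from link (4) -/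
theorem loc_PI (HL : Helper50.SH.P4F (21 / 25) (4 / 5) 1 (3 / 2) (-(18 / 1000)) (36 / 1000) (33903 / 1048576) (1 / 2)) :
    (PI c A B).Loc := by
  have hC := boxC hZ
  have hb : Box cI (1 / 4) (-7 / 500) (9 / 500) (9 / 250) := box_F2'
  have bb := fun t => box hb hC t
  have h4 : (17 : ℝ) / 10 ≤ Real.sqrt 3 := Real.le_sqrt_of_sq_le (by norm_num)
  have e1 : Helper50.SH.d1 = om := by
    apply Complex.ext
    · rw [om_re']; rfl
    · rw [om_im']; rfl
  have e2 : Helper50.SH.d2 = om ^ 2 := by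
    apply Complex.ext
    · rw [pow_two, Complex.mul_re, om_re', om_im']
      have h5 : Real.sqrt 3 * Real.sqrt 3 = 3 := Real.mul_self_sqrt (by norm_num)
      show -(1 / 2) = _
      linear_combination ((1 : ℝ) / 4) * h5
    · rw [pow_two, Complex.mul_im, om_re', om_im']
      show Real.sqrt 3 / 2 = _
      ring
  refine Helper50.SH.loc_par (PI c A B) HL (by norm_num) (by norm_num) (z0I A B) (b0I A B) (fun t => zB_pi A B t)
    (fun t => ?_) (fun t => ?_) (fun t => ?_) (fun t => ?_) (fun t => ?_) (fun t => ?_) fun t b z => ?_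
  · have := (bb t).1
    show ‖zB A B t‖ ≤ 1 / 2
    linarith
  · have := (bb t).2.1
    show _ ≤ (bB cI A B t).re
    linarith
  · have := (bb t).2.2.1
    show (bB cI A B t).re ≤ _
    linarith
  · have := (bb t).2.2.2
    show |(bB cI A B t).im| ≤ _
    nlinarith
  · rw [e1]; rfl
  · rw [e2]; rfl
  · show (21 / 25 - 4 / 5 * ‖z0I A B t‖ ^ 2) * Lf (z - z0I A B t) - (b.re - (b0I A B t).re) ^ 2
      - 3 / 2 * (b.im - (b0I A B t).im) ^ 2 ≤ _
    unfold Lf
    rw [Complex.sub_re, Complex.sub_im, Complex.sub_re, Complex.sub_im]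
    apply le_of_eq
    ring

omit hZ in
/-- the factor of the local quadratic form -/
noncomputable def fI (A : ℝ) (B : ℂ) (t : ℝ) : ℝ := 21 / 25 - 4 / 5 * ‖z0I A B t‖ ^ 2

theorem fI_lo (t : ℝ) : 79 / 100 ≤ fI A B t := by
  have h := small (boxC hZ) t
  have h0 := norm_nonneg (zB A B t)
  unfold fI z0I
  nlinarith

omit hZ in
theorem fI_hi (t : ℝ) : fI A B t ≤ 21 / 25 := by
  unfold fI
  have := sq_nonneg ‖z0I A B t‖
  linarith

theorem fI_br : BR (fI A B) := by
  refine ⟨((continuous_const.sub (continuous_const.mul ((continuous_zB A B).norm.pow 2))).measurable), 1, fun t => ?_⟩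
  have h1 := fI_lo hZ t
  have h2 := fI_hi (A := A) (B := B) t
  rw [abs_le]
  constructor <;> linarith

omit hZ in
/-- the local form of the instance is centred at the base -/
theorem loC_PI : LoC (PI c A B) (b0I A B) (z0I A B) (fI A B) 1 (3 / 2) := by
  intro t b z
  show (21 / 25 - 4 / 5 * ‖z0I A B t‖ ^ 2) * Lf (z - z0I A B t) - (b.re - (b0I A B t).re) ^ 2
    - 3 / 2 * (b.im - (b0I A B t).im) ^ 2 = _
  unfold fI
  ring

theorem dat_PI : Dat (b0I A B) (z0I A B) := by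
  have hC := boxC hZ
  refine ⟨⟨(continuous_bB _ _ _).measurable, 1, fun t => ?_⟩, ⟨(continuous_zB _ _).measurable, 1 / 4, fun t => ?_⟩,
    fun t => bB_pi _ _ _ t, fun t => zB_pi _ _ t⟩
  · have hb : Box cI (1 / 4) (-7 / 500) (9 / 500) (9 / 250) := box_F2'
    obtain ⟨h1, h2, h3, h4⟩ := box hb hC t
    refine (Complex.norm_le_abs_re_add_abs_im _).trans ?_
    have h5 : |(b0I A B t).re| ≤ 9 / 500 := abs_le.2 ⟨by show _ ≤ (bB cI A B t).re; linarith, h3⟩
    have h6 : |(b0I A B t).im| ≤ 9 / 250 := h4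
    linarith
  · exact small hC t

theorem blo_PI {b z : ℝ → ℂ} (d : Dat b z) : (PI c A B).Blo b z := by
  have ds := dat_PI (A := A) (B := B) hZ
  obtain ⟨C1, h1⟩ := d.hb.b
  obtain ⟨C2, h2⟩ := d.hz.b
  obtain ⟨C3, h3⟩ := ds.hb.b
  obtain ⟨C4, h4⟩ := ds.hz.b
  have kb : BM b C1 := ⟨d.hb.m, h1⟩
  have kz : BM z C2 := ⟨d.hz.m, h2⟩
  have kbs : BM (b0I A B) C3 := ⟨ds.hb.m, h3⟩
  have kzs : BM (z0I A B) C4 := ⟨ds.hz.m, h4⟩
  have k := (((fI_br hZ).mul (Lf_br (kz.sub kzs))).sub ((((BR.re kb).sub (BR.re kbs)).sq).cmul 1)).sub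
    ((((BR.im kb).sub (BR.im kbs)).sq).cmul (3 / 2))
  have e : (fun t => (PI c A B).lo t (b t) (z t)) = fun t => fI A B t * Lf (z t - z0I A B t)
      - 1 * ((b t).re - (b0I A B t).re) ^ 2 - 3 / 2 * ((b t).im - (b0I A B t).im) ^ 2 :=
    funext fun t => loC_PI t (b t) (z t)
  refine ⟨?_, ?_⟩
  · rw [e]; exact k.m
  · obtain ⟨K, hK⟩ := k.b
    exact ⟨K, fun t => by rw [loC_PI t (b t) (z t)]; exact hK t⟩

/-- ALL STATIC CONDITIONS of the instance -/
theorem stat_PI (hρ : 100 ≤ c.rho) (hm : c.lam ≤ c.m) (hm' : c.m ≤ 1 - 2 * ‖(PI c A B).eta‖)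
    (HL : Helper50.SH.P4F (21 / 25) (4 / 5) 1 (3 / 2) (-(18 / 1000)) (36 / 1000) (33903 / 1048576) (1 / 2)) :
    Stat (PI c A B) :=
  ⟨reg_PI hZ hρ hm, cur_PI hZ hρ hm hm', loc_PI hZ HL, fun _ _ h => blo_PI hZ (Helper95.SH.AdmQ.dat (by norm_num) h)⟩

end

/-! ### the numbers of zone I -/

/-- `lam`, `pr2`, `cs` -/
noncomputable def lamI : ℝ := 33 / 250
noncomputable def pr2I : ℝ := 6
noncomputable def csI : ℝ := 11 / 40
noncomputable def h0I (A : ℝ) (B : ℂ) : ℝ := 33 / 200 * A ^ 2 - 9 / 40 * ‖B‖ ^ 2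

/-- the numbers: `m = 1 - 2 |η|` -/
noncomputable def zcI (A : ℝ) (B : ℂ) : ZC :=
  ⟨lamI, pr2I, h0I A B, csI, 1 - 2 * ‖-2 * (A : ℂ) * (starRingEnd ℂ) B‖, 100⟩

/-- the instance with the numbers -/
noncomputable def PZ (A : ℝ) (B : ℂ) : Par := PI (zcI A B) A B

theorem normEta (A : ℝ) (B : ℂ) : ‖-2 * (A : ℂ) * (starRingEnd ℂ) B‖ = 2 * (|A| * ‖B‖) := by
  rw [norm_mul, norm_mul, norm_neg, Complex.norm_conj, Complex.norm_real, Real.norm_eq_abs, Complex.norm_ofNat]
  ring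

theorem m_PZ (A : ℝ) (B : ℂ) : (PZ A B).m = 1 - 4 * (|A| * ‖B‖) := by
  show 1 - 2 * ‖-2 * (A : ℂ) * (starRingEnd ℂ) B‖ = _
  rw [normEta]
  ring

section

variable {A : ℝ} {B : ℂ} (hZ : |A| + 2 * ‖B‖ ≤ 1 / 4)
  (HL : Helper50.SH.P4F (21 / 25) (4 / 5) 1 (3 / 2) (-(18 / 1000)) (36 / 1000) (33903 / 1048576) (1 / 2))

include hZ

theorem lam_le_m : (zcI A B).lam ≤ (zcI A B).m := by
  show (33 / 250 : ℝ) ≤ 1 - 2 * ‖-2 * (A : ℂ) * (starRingEnd ℂ) B‖
  rw [normEta]
  have h1 := abs_nonneg A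
  have h2 := norm_nonneg B
  nlinarith [mul_nonneg h1 h2]

theorem reg_PZ : (PZ A B).Reg := reg_PI hZ le_rfl (lam_le_m hZ)

include HL

theorem stat_PZ : Stat (PZ A B) := stat_PI hZ le_rfl (lam_le_m hZ) le_rfl HL

/-- a certificate of zone I from the last two conditions and `0 ≤ EP` -/
theorem cert_PZ {b z : ℝ → ℂ} (h : AdmQ 2 b z) (hlam : (PZ A B).Lam b z) (hcs : (PZ A B).Cs b)
    (h0 : 0 ≤ (PZ A B).EP b z) : Cert b z := by
  have s := stat_PZ hZ HL
  exact ⟨PZ A B, ⟨s.reg, s.cur, s.loc, s.blo b z h, hlam, hcs⟩, h0⟩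

end

/-- ZONE I from the last two conditions (`Lam`, `Cs`: helper44) and `0 ≤ EP` -/
theorem stZ1_of {R : ℝ} (hR : R ≤ 1 / 5)
    (HL : Helper50.SH.P4F (21 / 25) (4 / 5) 1 (3 / 2) (-(18 / 1000)) (36 / 1000) (33903 / 1048576) (1 / 2))
    (H : ∀ b z : ℝ → ℂ, AdmQ 2 b z → Helper44.Far.Near b z → ∀ A : ℝ, 0 ≤ A → fc z (-3) = (A : ℂ) →
      A + 8 / 5 * ‖fc z (-5)‖ ≤ R → (PZ A (fc z (-5))).Lam b z ∧ (PZ A (fc z (-5))).Cs b ∧
        0 ≤ (PZ A (fc z (-5))).EP b z) : StZ1 R := by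
  intro b z h hn hA hz
  unfold ZI at hz
  have h0 := norm_nonneg (fc z (-3))
  have h5 := norm_nonneg (fc z (-5))
  obtain ⟨k1, k2, k3⟩ := H b z h hn ‖fc z (-3)‖ h0 hA hz
  refine cert_PZ (A := ‖fc z (-3)‖) (B := fc z (-5)) ?_ HL h k1 k2 k3
  rw [abs_of_nonneg h0]
  linarith

end Pool.Agent.Helper43.SH
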