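import Pool.Agent.Helper43.SH.FcI
import Pool.Agent.Helper61.RC.NFB

/-!
# SHARP (MP_b21509_co), zone I: `NS` around the base, and the complete expansion of `EP` on sections

`EPx`: `EP (SN N b) (SN N z) = EP b0 z0 + [LinP + 2 NSB] + [QuadL + NS (rest)]`.
-/

set_option autoImplicit false

open MeasureTheory Set Filter Metric

namespace Pool.Agent.Helper43.SH

open Helper49.LT hiding sg s3
open Helper49.RC Helper44.GQ Helper49.Sharp
open Helper56.RC (fc)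
open Helper87.RC (BM fc_add fc_cmul fc_sub)
open Helper95.RC (Lf BF Sup c1 c2 wc tr kq NF)
open Helper95.SH (Dat Lo SN pr qr wm C1 C2 fc_w pr_SN qr_SN fc_SN bf_SN dat_SN SN_re SN_im NS_SN fc_F1A fc_F2A)
open Pool.Agent.Helper20.RC (wR hw DensI)
open Pool.Agent.Helper33.SH

/-! ### linearity of the arrays -/

theorem wm_add (η : ℂ) (f g : ℤ → ℂ) (n : ℤ) : wm η (fun k => f k + g k) n = wm η f n + wm η g n := by
  unfold wm; ring

theorem wm_sub (η : ℂ) (f g : ℤ → ℂ) (n : ℤ) : wm η (fun k => f k - g k) n = wm η f n - wm η g n := by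
  unfold wm; ring

theorem c1_split (W x y t x' y' t' : ℤ → ℂ) (m : ℤ) : c1 2 W x y t m =
    c1 2 W x' y' t' m + c1 2 (fun _ => 0) (fun k => x k - x' k) (fun k => y k - y' k) (fun k => t k - t' k) m := by
  unfold c1; ring

theorem c2_split (W x y t x' y' t' : ℤ → ℂ) (m : ℤ) : c2 2 W x y t m =
    c2 2 W x' y' t' m + c2 2 (fun _ => 0) (fun k => x k - x' k) (fun k => y k - y' k) (fun k => t k - t' k) m := by
  unfold c2; ring

/-! ### sections of the base -/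

theorem sum_ck (L : List (ℤ × ℂ)) (N : ℕ) (h : ∀ x ∈ L, |x.1| ≤ N) (t : ℝ) :
    ∑ n ∈ Finset.Icc (-(N : ℤ)) N, ck L n * ee ((n : ℝ) * t) = tp L t := by
  induction L with
  | nil => simp [ck, tp]
  | cons x L ih =>
    have h1 : x.1 ∈ Finset.Icc (-(N : ℤ)) N := Finset.mem_Icc.2 (abs_le.1 (h x List.mem_cons_self))
    rw [tp_cons]
    show _ = x.2 * ee ((x.1 : ℝ) * t) + tp L t
    rw [← ih fun y hy => h y (List.mem_cons_of_mem _ hy)]
    have e : ∀ n : ℤ, ck (x :: L) n * ee ((n : ℝ) * t) =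
        (if n = x.1 then x.2 * ee ((x.1 : ℝ) * t) else 0) + ck L n * ee ((n : ℝ) * t) := by
      intro n
      rw [ck_cons]
      split_ifs with hn
      · rw [hn]; ring
      · ring
    simp_rw [e]
    rw [Finset.sum_add_distrib, Finset.sum_ite_eq', if_pos h1]

theorem SN_tp (L : List (ℤ × ℂ)) (N : ℕ) (h : ∀ x ∈ L, |x.1| ≤ N) : SN N (tp L) = tp L := by
  funext t
  unfold SN
  have e : fc (tp L) = ck L := funext fun n => fc_tp L n
  rw [e]
  exact sum_ck L N h t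

/-- the list of `b0` -/
noncomputable def bL (c : BC) (A B : ℂ) : List (ℤ × ℂ) :=
  b2L c A B ++ (b3L c A B).map fun x => (x.1, x.2 * Complex.I)

theorem tp_append (L L' : List (ℤ × ℂ)) (t : ℝ) : tp (L ++ L') t = tp L t + tp L' t := by
  simp [tp]

theorem tp_map (L : List (ℤ × ℂ)) (c : ℂ) (t : ℝ) : tp (L.map fun x => (x.1, x.2 * c)) t = tp L t * c := by
  induction L with
  | nil => simp [tp]
  | cons x L ih =>
    rw [List.map_cons, tp_cons, tp_cons]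
    simp only
    rw [ih]
    ring

theorem bB_tp (c : BC) (A B : ℂ) : bB c A B = tp (bL c A B) := by
  funext t
  unfold bL
  rw [tp_append, tp_map, ← b2B_tp, ← b3B_tp]
  rfl

theorem bL_deg (c : BC) (A B : ℂ) : ∀ x ∈ bL c A B, |x.1| ≤ (10 : ℕ) := by
  intro x hx
  rcases List.mem_append.1 hx with h | h
  · exact qL_deg _ _ _ _ _ x h
  · obtain ⟨y, hy, rfl⟩ := List.mem_map.1 h
    exact qL_deg _ _ _ _ _ y hy

section

variable {A : ℝ} {B : ℂ}

theorem SN_b0 {N : ℕ} (hN : 10 ≤ N) : SN N (b0I A B) = b0I A B := by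
  unfold b0I
  rw [bB_tp, SN_tp]
  intro x hx
  have := bL_deg cI A B x hx
  push_cast at this
  omega

theorem SN_z0 {N : ℕ} (hN : 10 ≤ N) : SN N (z0I A B) = z0I A B := by
  unfold z0I
  rw [zB_tp, SN_tp]
  intro x hx
  have := zL_deg A B x hx
  push_cast at this
  omega

theorem pr_b0 : pr (b0I A B) = ck (b2L cI A B) := by
  funext n
  unfold pr b0I
  simp only [bB_re]
  exact fc_b2B cI A B n

theorem qr_b0 : qr (b0I A B) = ck (b3L cI A B) := by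
  funext n
  unfold qr b0I
  simp only [bB_im]
  exact fc_b3B cI A B n

theorem fc_z0 : fc (z0I A B) = ck (zL A B) := by
  funext n
  exact fc_zB A B n

theorem tr_sup_eq {K N : ℕ} {f : ℤ → ℂ} (h : Sup K f) (hKN : K ≤ N) : tr N f = f := by
  funext n
  unfold tr
  split_ifs with hn
  · rfl
  · exact ((Helper95.SH.Sup.mono hKN h) n hn).symm

theorem tr_b2 {N : ℕ} (hN : 10 ≤ N) : tr N (ck (b2L cI A B)) = ck (b2L cI A B) :=
  tr_sup_eq (ck_sup (b2L cI A B) 10 (qL_deg _ _ _ _ _)) hN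

theorem tr_b3 {N : ℕ} (hN : 10 ≤ N) : tr N (ck (b3L cI A B)) = ck (b3L cI A B) :=
  tr_sup_eq (ck_sup (b3L cI A B) 10 (qL_deg _ _ _ _ _)) hN

theorem tr_z {N : ℕ} (hN : 10 ≤ N) : tr N (ck (zL A B)) = ck (zL A B) :=
  tr_sup_eq (ck_sup (zL A B) 5 (zL_deg _ _)) (by omega)

end

/-! ### `NS` around the base -/

section

variable {c : ZC} {A : ℝ} {B : ℂ} {b z : ℝ → ℂ}

/-- the coefficients of the weighted rest -/
noncomputable def xR (A : ℝ) (B : ℂ) (N : ℕ) (b : ℝ → ℂ) : ℤ → ℂ := fun n =>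
  wm (-2 * (A : ℂ) * (starRingEnd ℂ) B) (tr N (pr b)) n - wm (-2 * (A : ℂ) * (starRingEnd ℂ) B) (ck (b2L cI A B)) n
noncomputable def yR (A : ℝ) (B : ℂ) (N : ℕ) (b : ℝ → ℂ) : ℤ → ℂ := fun n =>
  wm (-2 * (A : ℂ) * (starRingEnd ℂ) B) (tr N (qr b)) n - wm (-2 * (A : ℂ) * (starRingEnd ℂ) B) (ck (b3L cI A B)) n
noncomputable def tR (A : ℝ) (B : ℂ) (N : ℕ) (z : ℝ → ℂ) : ℤ → ℂ := fun n =>
  wm (-2 * (A : ℂ) * (starRingEnd ℂ) B) (tr N (fc z)) n - wm (-2 * (A : ℂ) * (starRingEnd ℂ) B) (ck (zL A B)) n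

/-- the coefficients of the families of the base -/
noncomputable def B1 (c : ZC) (A : ℝ) (B : ℂ) : ℤ → ℂ :=
  C1 (PI c A B) (ck (b2L cI A B)) (ck (b3L cI A B)) (ck (zL A B))
noncomputable def B2 (c : ZC) (A : ℝ) (B : ℂ) : ℤ → ℂ :=
  C2 (PI c A B) (ck (b2L cI A B)) (ck (b3L cI A B)) (ck (zL A B))

/-- the coefficients of the families of the rest -/
noncomputable def R1 (x y t : ℤ → ℂ) : ℤ → ℂ := c1 2 (fun _ => 0) x y t
noncomputable def R2 (x y t : ℤ → ℂ) : ℤ → ℂ := c2 2 (fun _ => 0) x y t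

/-- `NS` AROUND THE BASE -/
theorem NSx (hZ : |A| + 2 * ‖B‖ ≤ 1 / 4) (hρ : 100 ≤ c.rho) (hm : c.lam ≤ c.m) (d : Dat b z) {N : ℕ} (hN : 10 ≤ N) :
    (PI c A B).NS (SN N b) (SN N z) = (PI c A B).NS (b0I A B) (z0I A B)
      + 2 * Pool.Agent.Helper61.RC.NSB (dI A B) A Real.pi (Finset.Icc (-((N + 3 : ℕ) : ℤ)) ((N + 3 : ℕ) : ℤ)) (B1 c A B) (B2 c A B)
          (R1 (xR A B N b) (yR A B N b) (tR A B N z)) (R2 (xR A B N b) (yR A B N b) (tR A B N z))
      + Pool.Agent.Helper99.RC.NS (dI A B) A Real.pi (Finset.Icc (-((N + 3 : ℕ) : ℤ)) ((N + 3 : ℕ) : ℤ))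
          (R1 (xR A B N b) (yR A B N b) (tR A B N z)) (R2 (xR A B N b) (yR A B N b) (tR A B N z)) := by
  have hr := reg_PI (c := c) hZ hρ hm
  have ds := dat_PI (A := A) (B := B) hZ
  have hps : (PI c A B).ps = Pool.Agent.Helper99.RC.ps (dI A B) A Real.pi := rfl
  have h1 := NS_SN hr d N (by omega)
  have h2 := NS_SN hr ds N (by omega)
  rw [SN_b0 hN, SN_z0 hN] at h2
  rw [fc_F1A hr d N, fc_F2A hr d N, hps, Pool.Agent.Helper99.RC.NF_closed] at h1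
  have k1 : fc ((PI c A B).F1 (b0I A B) (z0I A B)) = B1 c A B := by
    have := fc_F1A hr ds N
    rw [SN_b0 hN, SN_z0 hN, pr_b0, qr_b0, fc_z0, tr_b2 hN,
      tr_b3 hN, tr_z hN] at this
    exact this
  have k2 : fc ((PI c A B).F2 (b0I A B) (z0I A B)) = B2 c A B := by
    have := fc_F2A hr ds N
    rw [SN_b0 hN, SN_z0 hN, pr_b0, qr_b0, fc_z0, tr_b2 hN,
      tr_b3 hN, tr_z hN] at this
    exact this
  rw [k1, k2, hps, Pool.Agent.Helper99.RC.NF_closed] at h2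
  have e1 : C1 (PI c A B) (tr N (pr b)) (tr N (qr b)) (tr N (fc z)) =
      fun m => B1 c A B m + R1 (xR A B N b) (yR A B N b) (tR A B N z) m := funext fun m => c1_split _ _ _ _ _ _ _ m
  have e2 : C2 (PI c A B) (tr N (pr b)) (tr N (qr b)) (tr N (fc z)) =
      fun m => B2 c A B m + R2 (xR A B N b) (yR A B N b) (tR A B N z) m := funext fun m => c2_split _ _ _ _ _ _ _ m
  rw [h1, h2, e1, e2, Pool.Agent.Helper61.RC.NS_add]

/-- the weighted rest of the sections -/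
noncomputable def beR (A : ℝ) (B : ℂ) (N : ℕ) (b : ℝ → ℂ) : ℝ → ℂ :=
  wd (wR (-2 * (A : ℂ) * (starRingEnd ℂ) B) 0 0) (SN N b) (b0I A B)
noncomputable def rhR (A : ℝ) (B : ℂ) (N : ℕ) (z : ℝ → ℂ) : ℝ → ℂ :=
  wd (wR (-2 * (A : ℂ) * (starRingEnd ℂ) B) 0 0) (SN N z) (z0I A B)

theorem fc_beR_re (hZ : |A| + 2 * ‖B‖ ≤ 1 / 4) (hb : BF b) (N : ℕ) :
    fc (fun t => ((beR A B N b t).re : ℂ)) = xR A B N b := by
  have ds := dat_PI (A := A) (B := B) hZ
  obtain ⟨C1, h1⟩ := Helper95.SH.bm_re (bf_SN b N)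
  obtain ⟨C2, h2⟩ := Helper95.SH.bm_re ds.hb
  funext n
  have e : (fun t => ((beR A B N b t).re : ℂ)) = fun t => (wR (-2 * (A : ℂ) * (starRingEnd ℂ) B) 0 0 t : ℂ) *
      ((((SN N b t).re : ℝ) : ℂ) - (((b0I A B t).re : ℝ) : ℂ)) := by
    funext t
    unfold beR wd
    rw [Complex.re_ofReal_mul, Complex.sub_re]
    push_cast
    ring
  rw [e, fc_w _ (h1.sub h2)]
  have e2 : fc (fun t => (((SN N b t).re : ℝ) : ℂ) - (((b0I A B t).re : ℝ) : ℂ)) =
      fun n => tr N (pr b) n - ck (b2L cI A B) n := by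
    funext n
    rw [fc_sub h1 h2]
    have a1 : fc (fun t => (((SN N b t).re : ℝ) : ℂ)) = tr N (pr b) := pr_SN hb N
    have a2 : fc (fun t => (((b0I A B t).re : ℝ) : ℂ)) = ck (b2L cI A B) := pr_b0
    rw [a1, a2]
  rw [e2]
  exact wm_sub _ _ _ n

theorem fc_beR_im (hZ : |A| + 2 * ‖B‖ ≤ 1 / 4) (hb : BF b) (N : ℕ) :
    fc (fun t => ((beR A B N b t).im : ℂ)) = yR A B N b := by
  have ds := dat_PI (A := A) (B := B) hZ
  obtain ⟨C1, h1⟩ := Helper95.SH.bm_im (bf_SN b N)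
  obtain ⟨C2, h2⟩ := Helper95.SH.bm_im ds.hb
  funext n
  have e : (fun t => ((beR A B N b t).im : ℂ)) = fun t => (wR (-2 * (A : ℂ) * (starRingEnd ℂ) B) 0 0 t : ℂ) *
      ((((SN N b t).im : ℝ) : ℂ) - (((b0I A B t).im : ℝ) : ℂ)) := by
    funext t
    unfold beR wd
    rw [Complex.im_ofReal_mul, Complex.sub_im]
    push_cast
    ring
  rw [e, fc_w _ (h1.sub h2)]
  have e2 : fc (fun t => (((SN N b t).im : ℝ) : ℂ) - (((b0I A B t).im : ℝ) : ℂ)) =
      fun n => tr N (qr b) n - ck (b3L cI A B) n := by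
    funext n
    rw [fc_sub h1 h2]
    have a1 : fc (fun t => (((SN N b t).im : ℝ) : ℂ)) = tr N (qr b) := qr_SN hb N
    have a2 : fc (fun t => (((b0I A B t).im : ℝ) : ℂ)) = ck (b3L cI A B) := qr_b0
    rw [a1, a2]
  rw [e2]
  exact wm_sub _ _ _ n

theorem fc_rhR (hZ : |A| + 2 * ‖B‖ ≤ 1 / 4) (N : ℕ) : fc (rhR A B N z) = tR A B N z := by
  have ds := dat_PI (A := A) (B := B) hZ
  obtain ⟨C1, h1⟩ := (bf_SN z N).b
  obtain ⟨C2, h2⟩ := ds.hz.b
  have k1 : BM (SN N z) C1 := ⟨(bf_SN z N).m, h1⟩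
  have k2 : BM (z0I A B) C2 := ⟨ds.hz.m, h2⟩
  funext n
  have e : rhR A B N z = fun t => (wR (-2 * (A : ℂ) * (starRingEnd ℂ) B) 0 0 t : ℂ) * (SN N z t - z0I A B t) := rfl
  rw [e, fc_w _ (k1.sub k2)]
  have e2 : fc (fun t => SN N z t - z0I A B t) = fun n => tr N (fc z) n - ck (zL A B) n := by
    funext n
    rw [fc_sub k1 k2, fc_SN, fc_z0]
  rw [e2]
  exact wm_sub _ _ _ n

/-- THE COMPLETE EXPANSION on sections -/
theorem EPx (hZ : |A| + 2 * ‖B‖ ≤ 1 / 4) (hρ : 100 ≤ c.rho) (hm : c.lam ≤ c.m) (d : Dat b z) {N : ℕ} (hN : 10 ≤ N) :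
    (PI c A B).EP (SN N b) (SN N z) = (PI c A B).EP (b0I A B) (z0I A B)
      + (LinP (PI c A B) (b0I A B) (z0I A B) (beR A B N b) (rhR A B N z)
        + 2 * Pool.Agent.Helper61.RC.NSB (dI A B) A Real.pi (Finset.Icc (-((N + 3 : ℕ) : ℤ)) ((N + 3 : ℕ) : ℤ)) (B1 c A B) (B2 c A B)
          (R1 (xR A B N b) (yR A B N b) (tR A B N z)) (R2 (xR A B N b) (yR A B N b) (tR A B N z)))
      + (QuadL (PI c A B) (fI A B) 1 (3 / 2) (beR A B N b) (rhR A B N z)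
        + Pool.Agent.Helper99.RC.NS (dI A B) A Real.pi (Finset.Icc (-((N + 3 : ℕ) : ℤ)) ((N + 3 : ℕ) : ℤ))
          (R1 (xR A B N b) (yR A B N b) (tR A B N z)) (R2 (xR A B N b) (yR A B N b) (tR A B N z))) := by
  have hr := reg_PI (c := c) hZ hρ hm
  have ds := dat_PI (A := A) (B := B) hZ
  have h1 := EP_exp_lo hr (fI_br hZ) loC_PI (dat_SN d N) ds
  have h2 := NSx (c := c) hZ hρ hm d hN
  have e1 : wd (PI c A B).w (SN N b) (b0I A B) = beR A B N b := rfl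
  have e2 : wd (PI c A B).w (SN N z) (z0I A B) = rhR A B N z := rfl
  rw [h1, h2, e1, e2]
  ring

end

end Pool.Agent.Helper43.SH
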