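import Pool.Agent.Helper43.SH.GoodI2

/-!
# SHARP (MP_b21509_co), zone I: facts on the arrays of the weighted rest

Hermitian symmetry of `xR`, `yR`; Bessel for `tR`, `xR`, `yR`; the modes `-3`, `-5` of `tR` are small.
-/

set_option autoImplicit false

open MeasureTheory Set Filter Metric

namespace Pool.Agent.Helper43.SH

open Helper49.LT hiding sg s3
open Helper49.RC Helper44.GQ Helper49.Sharp
open Helper56.RC (fc)
open Helper87.RC (BM fc_add fc_cmul fc_sub pars)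
open Helper95.RC (Lf BF Sup c1 c2 wc tr kq NF)
open Helper95.SH (Dat Lo SN pr qr wm C1 C2 bf_SN fc_SN)
open Pool.Agent.Helper20.RC (wR hw DensI wR_bd)
open Pool.Agent.Helper33.SH

/-- BESSEL -/
theorem sum_le_mean {f : ℝ → ℂ} {C : ℝ} (h : BM f C) (F : Finset ℤ) :
    ∑ n ∈ F, ‖fc f n‖ ^ 2 ≤ mean fun t => ‖f t‖ ^ 2 :=
  sum_le_hasSum F (fun n _ => by positivity) (pars h)

theorem norm_le_mean {f : ℝ → ℂ} {C : ℝ} (h : BM f C) (n : ℤ) :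
    ‖fc f n‖ ^ 2 ≤ mean fun t => ‖f t‖ ^ 2 := by
  have := sum_le_mean h {n}
  rwa [Finset.sum_singleton] at this

section

variable {A : ℝ} {B : ℂ}

/-- the weight of zone I -/
noncomputable abbrev wI (A : ℝ) (B : ℂ) : ℝ → ℝ := wR (-2 * (A : ℂ) * (starRingEnd ℂ) B) 0 0

theorem nt_eta : ‖(-2 * (A : ℂ) * (starRingEnd ℂ) B : ℂ)‖ = 2 * (|A| * ‖B‖) := by
  rw [norm_mul, norm_mul, norm_neg, Complex.norm_ofNat, Complex.norm_real, RCLike.norm_conj, Real.norm_eq_abs]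
  ring

theorem AB_le (hZ : |A| + 2 * ‖B‖ ≤ 1 / 4) : |A| * ‖B‖ ≤ 1 / 128 := by
  have h1 := abs_nonneg A
  have h2 := norm_nonneg B
  nlinarith [sq_nonneg (|A| - 2 * ‖B‖)]

theorem wI_low (hZ : |A| + 2 * ‖B‖ ≤ 1 / 4) (t : ℝ) : 10 / 11 ≤ wI A B t := by
  have h1 := wR_bd (-2 * (A : ℂ) * (starRingEnd ℂ) B) 0 0 t
  rw [nt_eta, norm_zero, add_zero, add_zero] at h1
  have h2 := AB_le hZ
  have h3 := (abs_le.1 h1).1
  have e : wI A B t = wR (-2 * (A : ℂ) * (starRingEnd ℂ) B) 0 0 t := rfl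
  rw [e]
  linarith

theorem wI_bm (hZ : |A| + 2 * ‖B‖ ≤ 1 / 4) : ∃ C, BM (fun t => (wI A B t : ℂ)) C :=
  Helper95.RC.bmw (reg_PZ hZ).wgt

/-! ### the rest is bounded -/

theorem u_bm (hZ : |A| + 2 * ‖B‖ ≤ 1 / 4) (N : ℕ) (z : ℝ → ℂ) : ∃ C, BM (fun t => SN N z t - z0I A B t) C := by
  have ds := dat_PI (A := A) (B := B) hZ
  obtain ⟨C1, h1⟩ := (bf_SN z N).b
  obtain ⟨C2, h2⟩ := ds.hz.b
  have k1 : BM (SN N z) C1 := ⟨(bf_SN z N).m, h1⟩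
  have k2 : BM (z0I A B) C2 := ⟨ds.hz.m, h2⟩
  exact ⟨_, k1.sub k2⟩

theorem v_bm (hZ : |A| + 2 * ‖B‖ ≤ 1 / 4) (N : ℕ) (b : ℝ → ℂ) : ∃ C, BM (fun t => SN N b t - b0I A B t) C := by
  have ds := dat_PI (A := A) (B := B) hZ
  obtain ⟨C1, h1⟩ := (bf_SN b N).b
  obtain ⟨C2, h2⟩ := ds.hb.b
  have k1 : BM (SN N b) C1 := ⟨(bf_SN b N).m, h1⟩
  have k2 : BM (b0I A B) C2 := ⟨ds.hb.m, h2⟩
  exact ⟨_, k1.sub k2⟩

theorem rhR_bm (hZ : |A| + 2 * ‖B‖ ≤ 1 / 4) (N : ℕ) (z : ℝ → ℂ) : ∃ C, BM (rhR A B N z) C := by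
  obtain ⟨C, h⟩ := wI_bm hZ
  obtain ⟨D, k⟩ := u_bm hZ N z
  exact ⟨_, h.mul k⟩

theorem beR_bm (hZ : |A| + 2 * ‖B‖ ≤ 1 / 4) (N : ℕ) (b : ℝ → ℂ) : ∃ C, BM (beR A B N b) C := by
  obtain ⟨C, h⟩ := wI_bm hZ
  obtain ⟨D, k⟩ := v_bm hZ N b
  exact ⟨_, h.mul k⟩

theorem re_bm {f : ℝ → ℂ} {C : ℝ} (h : BM f C) : BM (fun t => ((f t).re : ℂ)) C :=
  ⟨Complex.measurable_ofReal.comp (Complex.measurable_re.comp h.m), fun t => by
    rw [Complex.norm_real, Real.norm_eq_abs]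
    exact (Complex.abs_re_le_norm _).trans (h.b t)⟩

theorem im_bm {f : ℝ → ℂ} {C : ℝ} (h : BM f C) : BM (fun t => ((f t).im : ℂ)) C :=
  ⟨Complex.measurable_ofReal.comp (Complex.measurable_im.comp h.m), fun t => by
    rw [Complex.norm_real, Real.norm_eq_abs]
    exact (Complex.abs_im_le_norm _).trans (h.b t)⟩

/-! ### symmetry -/

theorem xR_neg (hZ : |A| + 2 * ‖B‖ ≤ 1 / 4) {b : ℝ → ℂ} (hb : BF b) (N : ℕ) (n : ℤ) :
    xR A B N b (-n) = (starRingEnd ℂ) (xR A B N b n) := by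
  rw [← fc_beR_re hZ hb N]
  have := Helper95.RC.fc_real_neg (fun t => (beR A B N b t).re) n
  rw [this]

theorem yR_neg (hZ : |A| + 2 * ‖B‖ ≤ 1 / 4) {b : ℝ → ℂ} (hb : BF b) (N : ℕ) (n : ℤ) :
    yR A B N b (-n) = (starRingEnd ℂ) (yR A B N b n) := by
  rw [← fc_beR_im hZ hb N]
  have := Helper95.RC.fc_real_neg (fun t => (beR A B N b t).im) n
  rw [this]

/-! ### Bessel -/

theorem sum_tR (hZ : |A| + 2 * ‖B‖ ≤ 1 / 4) (N : ℕ) (z : ℝ → ℂ) (F : Finset ℤ) :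
    ∑ n ∈ F, ‖tR A B N z n‖ ^ 2 ≤ mean fun t => ‖rhR A B N z t‖ ^ 2 := by
  obtain ⟨C, h⟩ := rhR_bm hZ N z
  have := sum_le_mean h F
  rwa [fc_rhR hZ N] at this

theorem sum_xR (hZ : |A| + 2 * ‖B‖ ≤ 1 / 4) {b : ℝ → ℂ} (hb : BF b) (N : ℕ) (F : Finset ℤ) :
    ∑ n ∈ F, ‖xR A B N b n‖ ^ 2 ≤ mean fun t => (beR A B N b t).re ^ 2 := by
  obtain ⟨C, h⟩ := beR_bm hZ N b
  have := sum_le_mean (re_bm h) F
  rw [fc_beR_re hZ hb N] at this
  refine this.trans (le_of_eq ?_)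
  congr 1
  funext t
  rw [Complex.norm_real, Real.norm_eq_abs, sq_abs]

theorem sum_yR (hZ : |A| + 2 * ‖B‖ ≤ 1 / 4) {b : ℝ → ℂ} (hb : BF b) (N : ℕ) (F : Finset ℤ) :
    ∑ n ∈ F, ‖yR A B N b n‖ ^ 2 ≤ mean fun t => (beR A B N b t).im ^ 2 := by
  obtain ⟨C, h⟩ := beR_bm hZ N b
  have := sum_le_mean (im_bm h) F
  rw [fc_beR_im hZ hb N] at this
  refine this.trans (le_of_eq ?_)
  congr 1
  funext t
  rw [Complex.norm_real, Real.norm_eq_abs, sq_abs]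

/-! ### the modes `-3`, `-5` -/

/-- the coefficients of the rest before the weight -/
noncomputable def uR (A : ℝ) (B : ℂ) (N : ℕ) (z : ℝ → ℂ) : ℤ → ℂ := fun n => tr N (fc z) n - ck (zL A B) n

theorem tR_uR (N : ℕ) (z : ℝ → ℂ) (n : ℤ) : tR A B N z n = wm (-2 * (A : ℂ) * (starRingEnd ℂ) B) (uR A B N z) n :=
  (wm_sub _ _ _ n).symm

theorem uR_fc (hZ : |A| + 2 * ‖B‖ ≤ 1 / 4) (N : ℕ) (z : ℝ → ℂ) (n : ℤ) :
    fc (fun t => SN N z t - z0I A B t) n = uR A B N z n := by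
  have ds := dat_PI (A := A) (B := B) hZ
  obtain ⟨C1, h1⟩ := (bf_SN z N).b
  obtain ⟨C2, h2⟩ := ds.hz.b
  have k1 : BM (SN N z) C1 := ⟨(bf_SN z N).m, h1⟩
  have k2 : BM (z0I A B) C2 := ⟨ds.hz.m, h2⟩
  rw [fc_sub k1 k2, fc_SN, fc_z0]
  rfl

theorem mean_mono {f g : ℝ → ℝ} (hf : IntervalIntegrable f volume 0 (2 * Real.pi))
    (hg : IntervalIntegrable g volume 0 (2 * Real.pi)) (h : ∀ t, f t ≤ g t) : mean f ≤ mean g := by
  unfold mean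
  have hp := Real.pi_pos
  exact mul_le_mul_of_nonneg_left (intervalIntegral.integral_mono_on (by linarith) hf hg fun t _ => h t)
    (by positivity)

theorem uR_le (hZ : |A| + 2 * ‖B‖ ≤ 1 / 4) (N : ℕ) (z : ℝ → ℂ) (n : ℤ) :
    ‖uR A B N z n‖ ≤ 11 / 10 * Real.sqrt (mean fun t => ‖rhR A B N z t‖ ^ 2) := by
  obtain ⟨D, k⟩ := u_bm hZ N z
  obtain ⟨E, l⟩ := rhR_bm hZ N z
  have h1 := norm_le_mean k n
  rw [uR_fc hZ] at h1
  have i1 : IntervalIntegrable (fun t => ‖SN N z t - z0I A B t‖ ^ 2) volume 0 (2 * Real.pi) := by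
    have := (k.mul k.conj).i 0 (2 * Real.pi)
    have e : (fun t => ‖SN N z t - z0I A B t‖ ^ 2) = fun t => ((SN N z t - z0I A B t) *
        (starRingEnd ℂ) (SN N z t - z0I A B t)).re := by
      funext t
      rw [Complex.mul_conj, Complex.ofReal_re, Complex.normSq_eq_norm_sq]
    rw [e]
    exact ⟨this.1.re, this.2.re⟩
  have i2 : IntervalIntegrable (fun t => ‖rhR A B N z t‖ ^ 2) volume 0 (2 * Real.pi) := by
    have := (l.mul l.conj).i 0 (2 * Real.pi)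
    have e : (fun t => ‖rhR A B N z t‖ ^ 2) = fun t => (rhR A B N z t * (starRingEnd ℂ) (rhR A B N z t)).re := by
      funext t
      rw [Complex.mul_conj, Complex.ofReal_re, Complex.normSq_eq_norm_sq]
    rw [e]
    exact ⟨this.1.re, this.2.re⟩
  have h2 : (mean fun t => ‖SN N z t - z0I A B t‖ ^ 2) ≤ mean fun t => 121 / 100 * ‖rhR A B N z t‖ ^ 2 := by
    refine mean_mono i1 (i2.const_mul _) fun t => ?_
    have hw := wI_low hZ t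
    have e : rhR A B N z t = (wI A B t : ℂ) * (SN N z t - z0I A B t) := rfl
    rw [e, norm_mul, Complex.norm_real, Real.norm_eq_abs, abs_of_pos (by linarith)]
    have hn := norm_nonneg (SN N z t - z0I A B t)
    have h3 : 10 / 11 * ‖SN N z t - z0I A B t‖ ≤ wI A B t * ‖SN N z t - z0I A B t‖ :=
      mul_le_mul_of_nonneg_right hw hn
    have h4 : (10 / 11 * ‖SN N z t - z0I A B t‖) ^ 2 ≤ (wI A B t * ‖SN N z t - z0I A B t‖) ^ 2 :=
      pow_le_pow_left₀ (by positivity) h3 2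
    nlinarith
  have h3 : (mean fun t => 121 / 100 * ‖rhR A B N z t‖ ^ 2) = 121 / 100 * mean fun t => ‖rhR A B N z t‖ ^ 2 := by
    unfold mean
    rw [intervalIntegral.integral_const_mul]
    ring
  have h4 : ‖uR A B N z n‖ ^ 2 ≤ (11 / 10) ^ 2 * mean fun t => ‖rhR A B N z t‖ ^ 2 := by
    have := h1.trans h2
    rw [h3] at this
    linarith
  have h5 : 0 ≤ mean fun t => ‖rhR A B N z t‖ ^ 2 := by
    unfold mean
    have hp := Real.pi_pos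
    have : 0 ≤ ∫ t in (0 : ℝ)..(2 * Real.pi), ‖rhR A B N z t‖ ^ 2 :=
      intervalIntegral.integral_nonneg (by linarith) fun t _ => by positivity
    positivity
  have h6 := Real.sqrt_le_sqrt h4
  rw [Real.sqrt_sq (norm_nonneg _), Real.sqrt_mul (by positivity), Real.sqrt_sq (by norm_num)] at h6
  exact h6

theorem tR3_le (hZ : |A| + 2 * ‖B‖ ≤ 1 / 4) {z : ℝ → ℂ} (h3 : fc z (-3) = (A : ℂ)) (h5 : fc z (-5) = B) {N : ℕ}
    (hN : 10 ≤ N) :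
    ‖tR A B N z (-3)‖ ≤ 11 / 5 * (|A| * ‖B‖) * Real.sqrt (mean fun t => ‖rhR A B N z t‖ ^ 2) := by
  obtain ⟨e3, e5⟩ := rest_zero (A := A) (B := B) h3 h5 hN
  have e3 : uR A B N z (-3) = 0 := e3
  have e5 : uR A B N z (-3 - 2) = 0 := by
    rw [show (-3 - 2 : ℤ) = -5 by norm_num]; exact e5
  have h1 := uR_le hZ N z (-3 + 2)
  rw [tR_uR]
  unfold wm
  rw [e3, e5, mul_zero, add_zero, zero_add, norm_mul, RCLike.norm_conj, nt_eta]
  have h2 : 0 ≤ |A| * ‖B‖ := by positivity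
  calc 2 * (|A| * ‖B‖) * ‖uR A B N z (-3 + 2)‖ ≤
      2 * (|A| * ‖B‖) * (11 / 10 * Real.sqrt (mean fun t => ‖rhR A B N z t‖ ^ 2)) :=
        mul_le_mul_of_nonneg_left h1 (by positivity)
    _ = _ := by ring

theorem tR5_le (hZ : |A| + 2 * ‖B‖ ≤ 1 / 4) {z : ℝ → ℂ} (h3 : fc z (-3) = (A : ℂ)) (h5 : fc z (-5) = B) {N : ℕ}
    (hN : 10 ≤ N) :
    ‖tR A B N z (-5)‖ ≤ 11 / 5 * (|A| * ‖B‖) * Real.sqrt (mean fun t => ‖rhR A B N z t‖ ^ 2) := by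
  obtain ⟨e3, e5⟩ := rest_zero (A := A) (B := B) h3 h5 hN
  have e5 : uR A B N z (-5) = 0 := e5
  have e3 : uR A B N z (-5 + 2) = 0 := by
    rw [show (-5 + 2 : ℤ) = -3 by norm_num]; exact e3
  have h1 := uR_le hZ N z (-5 - 2)
  rw [tR_uR]
  unfold wm
  rw [e3, e5, mul_zero, add_zero, zero_add, norm_mul, nt_eta]
  calc 2 * (|A| * ‖B‖) * ‖uR A B N z (-5 - 2)‖ ≤
      2 * (|A| * ‖B‖) * (11 / 10 * Real.sqrt (mean fun t => ‖rhR A B N z t‖ ^ 2)) :=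
        mul_le_mul_of_nonneg_left h1 (by positivity)
    _ = _ := by ring

end

end Pool.Agent.Helper43.SH
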