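import Pool.Agent.Helper49.RC.StSharp

/-!
# SHARP (MP_b21509_co): the explicit base functions `z₀`, `b₀` and their ranges

The coefficients are parameters (structure `BC`).  With `a = A e^{-3it}`, `s = B e^{-5it}` everything is pointwise.
`box`: if `|A| + 2 |B| ≤ ρ` then `|z₀| ≤ ρ` and `b₀` is in a box `[lo, hi] × [-be, be]`; the numbers of the box come
from four inequalities between quadratic forms of two nonnegative variables.
-/

set_option autoImplicit false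

namespace Pool.Agent.Helper43.SH

open Helper49.LT hiding sg
open ComplexConjugate

/-- the coefficients of `b₀` -/
structure BC where
  k1 : ℝ
  k2 : ℝ
  k3 : ℝ
  k4 : ℝ
  k5 : ℝ
  k6 : ℝ
  l3 : ℝ
  l4 : ℝ
  l5 : ℝ
  l6 : ℝ

/-- `z₀` at `a = A e^{-3it}`, `s = B e^{-5it}` -/
noncomputable def zp (a s : ℂ) : ℂ := a + s - 1 / 2 * conj s

/-- `b₂₀` at `a = A e^{-3it}`, `s = B e^{-5it}` -/
noncomputable def b2p (c : BC) (a s : ℂ) : ℝ :=
  c.k1 * ‖a‖ ^ 2 + c.k2 * ‖s‖ ^ 2 +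
    2 * (c.k3 * (a * conj s) + c.k4 * (conj a * conj a) + c.k5 * (conj a * conj s) + c.k6 * (conj s * conj s)).re

/-- `b₃₀` at `a = A e^{-3it}`, `s = B e^{-5it}` -/
noncomputable def b3p (c : BC) (a s : ℂ) : ℝ :=
  2 * (Complex.I *
    (c.l3 * (a * conj s) + c.l4 * (conj a * conj a) + c.l5 * (conj a * conj s) + c.l6 * (conj s * conj s))).re

/-- the base of `z` -/
noncomputable def zB (A B : ℂ) (t : ℝ) : ℂ := zp (A * ee (-3 * t)) (B * ee (-5 * t))
/-- the base of `b₂` -/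
noncomputable def b2B (c : BC) (A B : ℂ) (t : ℝ) : ℝ := b2p c (A * ee (-3 * t)) (B * ee (-5 * t))
/-- the base of `b₃` -/
noncomputable def b3B (c : BC) (A B : ℂ) (t : ℝ) : ℝ := b3p c (A * ee (-3 * t)) (B * ee (-5 * t))
/-- the base of `b = b₂ + i b₃` -/
noncomputable def bB (c : BC) (A B : ℂ) (t : ℝ) : ℂ := (b2B c A B t : ℂ) + (b3B c A B t : ℂ) * Complex.I

@[simp] theorem bB_re (c : BC) (A B : ℂ) (t : ℝ) : (bB c A B t).re = b2B c A B t := by
  simp [bB]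

@[simp] theorem bB_im (c : BC) (A B : ℂ) (t : ℝ) : (bB c A B t).im = b3B c A B t := by
  simp [bB]

/-! ### the Fourier form -/

theorem conj_ee (t : ℝ) : conj (ee t) = ee (-t) := by
  unfold ee
  rw [← Complex.exp_conj]
  congr 1
  simp

theorem zB_eq (A B : ℂ) (t : ℝ) :
    zB A B t = A * ee (-3 * t) + B * ee (-5 * t) - 1 / 2 * (conj B * ee (5 * t)) := by
  unfold zB zp
  rw [map_mul, conj_ee]
  congr 4
  ring

private theorem pr (u v : ℂ) (x y : ℝ) : u * ee x * (v * ee y) = u * v * ee (x + y) := by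
  rw [ee_add]; ring

theorem quad_eq (k3 k4 k5 k6 : ℝ) (A B : ℂ) (t : ℝ) :
    (k3 : ℂ) * (A * ee (-3 * t) * conj (B * ee (-5 * t))) +
      k4 * (conj (A * ee (-3 * t)) * conj (A * ee (-3 * t))) +
      k5 * (conj (A * ee (-3 * t)) * conj (B * ee (-5 * t))) +
      k6 * (conj (B * ee (-5 * t)) * conj (B * ee (-5 * t))) =
    k3 * (A * conj B) * ee (2 * t) + k4 * (conj A * conj A) * ee (6 * t) + k5 * (conj A * conj B) * ee (8 * t) +
      k6 * (conj B * conj B) * ee (10 * t) := by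
  simp only [map_mul, conj_ee]
  rw [pr, pr, pr, pr]
  rw [show -3 * t + -(-5 * t) = 2 * t by ring, show -(-3 * t) + -(-3 * t) = 6 * t by ring,
    show -(-3 * t) + -(-5 * t) = 8 * t by ring, show -(-5 * t) + -(-5 * t) = 10 * t by ring]
  ring

theorem b2B_eq (c : BC) (A B : ℂ) (t : ℝ) :
    b2B c A B t = c.k1 * ‖A‖ ^ 2 + c.k2 * ‖B‖ ^ 2 + 2 * (c.k3 * (A * conj B) * ee (2 * t) +
      c.k4 * (conj A * conj A) * ee (6 * t) + c.k5 * (conj A * conj B) * ee (8 * t) +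
      c.k6 * (conj B * conj B) * ee (10 * t)).re := by
  unfold b2B b2p
  rw [quad_eq, norm_mul, norm_mul, norm_ee, norm_ee, mul_one, mul_one]

theorem b3B_eq (c : BC) (A B : ℂ) (t : ℝ) :
    b3B c A B t = 2 * (Complex.I * (c.l3 * (A * conj B) * ee (2 * t) +
      c.l4 * (conj A * conj A) * ee (6 * t) + c.l5 * (conj A * conj B) * ee (8 * t) +
      c.l6 * (conj B * conj B) * ee (10 * t))).re := by
  unfold b3B b3p
  rw [quad_eq]

/-! ### regularity -/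

theorem continuous_zB (A B : ℂ) : Continuous (zB A B) := by
  have h : ∀ c : ℝ, Continuous fun t : ℝ => ee (c * t) := fun c => continuous_ee.comp (continuous_const.mul continuous_id)
  have h3 := h (-3)
  have h5 := h (-5)
  unfold zB zp
  fun_prop

theorem continuous_b2B (c : BC) (A B : ℂ) : Continuous (b2B c A B) := by
  have h : ∀ c : ℝ, Continuous fun t : ℝ => ee (c * t) := fun c => continuous_ee.comp (continuous_const.mul continuous_id)
  have h3 := h (-3)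
  have h5 := h (-5)
  unfold b2B b2p
  fun_prop

theorem continuous_b3B (c : BC) (A B : ℂ) : Continuous (b3B c A B) := by
  have h : ∀ c : ℝ, Continuous fun t : ℝ => ee (c * t) := fun c => continuous_ee.comp (continuous_const.mul continuous_id)
  have h3 := h (-3)
  have h5 := h (-5)
  unfold b3B b3p
  fun_prop

theorem continuous_bB (c : BC) (A B : ℂ) : Continuous (bB c A B) := by
  have h2 := continuous_b2B c A B
  have h3 := continuous_b3B c A B
  unfold bB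
  fun_prop

private theorem eem3 (t : ℝ) : ee (-3 * (t + Real.pi)) = -ee (-3 * t) := by
  have h1 : conj (ee Real.pi) = -1 := by rw [ee_pi]; simp
  rw [conj_ee] at h1
  rw [show -3 * (t + Real.pi) = -3 * t + (-Real.pi + (-Real.pi + -Real.pi)) by ring, ee_add, ee_add, ee_add, h1]
  ring

private theorem eem5 (t : ℝ) : ee (-5 * (t + Real.pi)) = -ee (-5 * t) := by
  have h1 : conj (ee Real.pi) = -1 := by rw [ee_pi]; simp
  rw [conj_ee] at h1
  rw [show -5 * (t + Real.pi) = -5 * t + (-Real.pi + (-Real.pi + (-Real.pi + (-Real.pi + -Real.pi)))) by ring,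
    ee_add, ee_add, ee_add, ee_add, ee_add, h1]
  ring

theorem zp_neg (a s : ℂ) : zp (-a) (-s) = -zp a s := by
  unfold zp
  rw [map_neg]
  ring

theorem b2p_neg (c : BC) (a s : ℂ) : b2p c (-a) (-s) = b2p c a s := by
  unfold b2p
  rw [map_neg, map_neg, norm_neg, norm_neg, neg_mul_neg, neg_mul_neg, neg_mul_neg, neg_mul_neg]

theorem b3p_neg (c : BC) (a s : ℂ) : b3p c (-a) (-s) = b3p c a s := by
  unfold b3p
  rw [map_neg, map_neg, neg_mul_neg, neg_mul_neg, neg_mul_neg, neg_mul_neg]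

theorem zB_pi (A B : ℂ) (t : ℝ) : zB A B (t + Real.pi) = -zB A B t := by
  unfold zB
  rw [eem3, eem5, mul_neg, mul_neg, zp_neg]

theorem bB_pi (c : BC) (A B : ℂ) (t : ℝ) : bB c A B (t + Real.pi) = bB c A B t := by
  unfold bB b2B b3B
  rw [eem3, eem5, mul_neg, mul_neg, b2p_neg, b3p_neg]

/-! ### ranges -/

theorem norm_zp_le (a s : ℂ) : ‖zp a s‖ ≤ ‖a‖ + 3 / 2 * ‖s‖ := by
  unfold zp
  have h1 : ‖(1 / 2 : ℂ) * conj s‖ = 1 / 2 * ‖s‖ := by
    rw [norm_mul, Complex.norm_conj]; norm_num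
  calc ‖a + s - 1 / 2 * conj s‖ ≤ ‖a + s‖ + ‖(1 / 2 : ℂ) * conj s‖ := norm_sub_le _ _
    _ ≤ ‖a‖ + ‖s‖ + 1 / 2 * ‖s‖ := by rw [h1]; gcongr; exact norm_add_le _ _
    _ = _ := by ring

private theorem quad_le (k3 k4 k5 k6 : ℝ) (a s : ℂ) :
    ‖(k3 : ℂ) * (a * conj s) + k4 * (conj a * conj a) + k5 * (conj a * conj s) + k6 * (conj s * conj s)‖ ≤
      |k4| * ‖a‖ ^ 2 + |k6| * ‖s‖ ^ 2 + (|k3| + |k5|) * (‖a‖ * ‖s‖) := by
  refine (norm_add_le _ _).trans ?_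
  refine (add_le_add_left (norm_add_le _ _) _).trans ?_
  refine (add_le_add_left (add_le_add_left (norm_add_le _ _) _) _).trans ?_
  simp only [norm_mul, Complex.norm_conj, Complex.norm_real, Real.norm_eq_abs]
  apply le_of_eq
  ring

theorem b2p_le (c : BC) {r hi : ℝ} (H : ∀ x y : ℝ, 0 ≤ x → 0 ≤ y → x + 2 * y ≤ r →
    (c.k1 + 2 * |c.k4|) * x ^ 2 + (c.k2 + 2 * |c.k6|) * y ^ 2 + 2 * (|c.k3| + |c.k5|) * (x * y) ≤ hi)
    {a s : ℂ} (h : ‖a‖ + 2 * ‖s‖ ≤ r) : b2p c a s ≤ hi := by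
  have h1 := H ‖a‖ ‖s‖ (norm_nonneg _) (norm_nonneg _) h
  have h2 := quad_le c.k3 c.k4 c.k5 c.k6 a s
  have h3 := (Complex.re_le_norm _).trans h2
  unfold b2p
  linarith

theorem le_b2p (c : BC) {r lo : ℝ} (H : ∀ x y : ℝ, 0 ≤ x → 0 ≤ y → x + 2 * y ≤ r →
    lo ≤ (c.k1 - 2 * |c.k4|) * x ^ 2 + (c.k2 - 2 * |c.k6|) * y ^ 2 - 2 * (|c.k3| + |c.k5|) * (x * y))
    {a s : ℂ} (h : ‖a‖ + 2 * ‖s‖ ≤ r) : lo ≤ b2p c a s := by
  have h1 := H ‖a‖ ‖s‖ (norm_nonneg _) (norm_nonneg _) h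
  have h2 := quad_le c.k3 c.k4 c.k5 c.k6 a s
  have h3 := (abs_le.1 ((Complex.abs_re_le_norm _).trans h2)).1
  unfold b2p
  linarith

theorem abs_b3p_le (c : BC) {r be : ℝ} (H : ∀ x y : ℝ, 0 ≤ x → 0 ≤ y → x + 2 * y ≤ r →
    2 * (|c.l4| * x ^ 2 + |c.l6| * y ^ 2 + (|c.l3| + |c.l5|) * (x * y)) ≤ be)
    {a s : ℂ} (h : ‖a‖ + 2 * ‖s‖ ≤ r) : |b3p c a s| ≤ be := by
  have h1 := H ‖a‖ ‖s‖ (norm_nonneg _) (norm_nonneg _) h
  have h2 := quad_le c.l3 c.l4 c.l5 c.l6 a s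
  have h3 := Complex.abs_re_le_norm (Complex.I *
    (c.l3 * (a * conj s) + c.l4 * (conj a * conj a) + c.l5 * (conj a * conj s) + c.l6 * (conj s * conj s)))
  rw [norm_mul, Complex.norm_I, one_mul] at h3
  unfold b3p
  rw [abs_mul, abs_two]
  linarith

/-- the box of the coefficients `c` for `|A| + 2 |B| ≤ r` -/
structure Box (c : BC) (r lo hi be : ℝ) : Prop where
  up : ∀ x y : ℝ, 0 ≤ x → 0 ≤ y → x + 2 * y ≤ r →
    (c.k1 + 2 * |c.k4|) * x ^ 2 + (c.k2 + 2 * |c.k6|) * y ^ 2 + 2 * (|c.k3| + |c.k5|) * (x * y) ≤ hi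
  dn : ∀ x y : ℝ, 0 ≤ x → 0 ≤ y → x + 2 * y ≤ r →
    lo ≤ (c.k1 - 2 * |c.k4|) * x ^ 2 + (c.k2 - 2 * |c.k6|) * y ^ 2 - 2 * (|c.k3| + |c.k5|) * (x * y)
  im : ∀ x y : ℝ, 0 ≤ x → 0 ≤ y → x + 2 * y ≤ r →
    2 * (|c.l4| * x ^ 2 + |c.l6| * y ^ 2 + (|c.l3| + |c.l5|) * (x * y)) ≤ be

private theorem nrm (A B : ℂ) (t : ℝ) {r : ℝ} (h : ‖A‖ + 2 * ‖B‖ ≤ r) :
    ‖A * ee (-3 * t)‖ + 2 * ‖B * ee (-5 * t)‖ ≤ r := by
  rw [norm_mul, norm_mul, norm_ee, norm_ee, mul_one, mul_one]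
  exact h

/-- LAST STEP of link (4): the ranges of the base functions -/
theorem box {c : BC} {r lo hi be : ℝ} (H : Box c r lo hi be) {A B : ℂ} (h : ‖A‖ + 2 * ‖B‖ ≤ r) (t : ℝ) :
    ‖zB A B t‖ ≤ r ∧ lo ≤ (bB c A B t).re ∧ (bB c A B t).re ≤ hi ∧ |(bB c A B t).im| ≤ be := by
  rw [bB_re, bB_im]
  have h1 := nrm A B t h
  refine ⟨(norm_zp_le _ _).trans ?_, le_b2p c H.dn h1, b2p_le c H.up h1, abs_b3p_le c H.im h1⟩
  have h2 := norm_nonneg (B * ee (-5 * t))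
  linarith

/-- a larger box -/
theorem Box.mono {c : BC} {r lo hi be lo' hi' be' : ℝ} (H : Box c r lo hi be) (h1 : lo' ≤ lo) (h2 : hi ≤ hi')
    (h3 : be ≤ be') : Box c r lo' hi' be' :=
  ⟨fun x y a b d => (H.up x y a b d).trans h2, fun x y a b d => h1.trans (H.dn x y a b d),
    fun x y a b d => (H.im x y a b d).trans h3⟩

/-- zone II: the base is frozen at `ρ (A, B) / (|A| + 2 |B|)` -/
theorem frozen (A B : ℂ) {r : ℝ} (hr : 0 ≤ r) :
    ‖((r / (‖A‖ + 2 * ‖B‖) : ℝ) : ℂ) * A‖ + 2 * ‖((r / (‖A‖ + 2 * ‖B‖) : ℝ) : ℂ) * B‖ ≤ r := by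
  rw [norm_mul, norm_mul, Complex.norm_real, Real.norm_eq_abs, abs_of_nonneg (by positivity)]
  rcases (add_nonneg (norm_nonneg A) (mul_nonneg zero_le_two (norm_nonneg B))).eq_or_lt with h0 | h0
  · rw [← h0, div_zero, zero_mul, zero_mul]
    simpa using hr
  · apply le_of_eq
    field_simp

/-! ### the numbers -/

/-- coefficients of version 1 -/
noncomputable def cV1 : BC := ⟨7 / 50, -1 / 8, -3 / 20, -1 / 50, 17 / 100, 1 / 40, -1 / 8, -3 / 20, 23 / 100, -7 / 100⟩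

/-- coefficients of version 1.1 -/
noncomputable def cV2 : BC := ⟨7 / 50, -19 / 100, -4 / 25, -1 / 50, 19 / 100, 3 / 100, -13 / 100, -7 / 50, 1 / 4, -7 / 100⟩

/-- coefficients of version 1.2: `b₀` depends on `A` only (helper18) -/
noncomputable def cA : BC := ⟨33 / 200, 0, 0, -57 / 1000, 0, 0, 0, -71 / 250, 0, 0⟩

theorem box_A : Box cA (1 / 4) 0 (7 / 400) (71 / 2000) := by
  constructor <;> intro x y hx hy h <;> simp only [cA] <;> norm_num [abs_of_nonneg, abs_of_neg] <;>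
    nlinarith [mul_nonneg hx hy, mul_nonneg hx (sub_nonneg.2 h), mul_nonneg hy (sub_nonneg.2 h)]

/-- FINAL coefficients of zone I -/
noncomputable def cF : BC := ⟨33 / 200, -1 / 4, 0, -57 / 1000, 0, 0, 0, -71 / 250, 0, 0⟩

theorem box_F : Box cF (1 / 4) (-1 / 256) (7 / 400) (71 / 2000) := by
  constructor <;> intro x y hx hy h <;> simp only [cF] <;> norm_num [abs_of_nonneg, abs_of_neg] <;>
    nlinarith [mul_nonneg hx hy, mul_nonneg hx (sub_nonneg.2 h), mul_nonneg hy (sub_nonneg.2 h)]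

/-- the box of link (4) -/
theorem box_F4 : Box cF (1 / 4) (-9 / 500) (9 / 250) (7 / 125) :=
  box_F.mono (by norm_num) (by norm_num) (by norm_num)

theorem b2B_F (A B : ℂ) (t : ℝ) : b2B cF A B t = 33 / 200 * ‖A‖ ^ 2 - 1 / 4 * ‖B‖ ^ 2 -
    57 / 1000 * (2 * (conj A * conj A * ee (6 * t)).re) := by
  rw [b2B_eq]
  simp only [cF, Complex.ofReal_zero, zero_mul, add_zero, zero_add]
  rw [show (((-57 / 1000 : ℝ) : ℂ)) * (conj A * conj A) * ee (6 * t) =
    ((-57 / 1000 : ℝ) : ℂ) * (conj A * conj A * ee (6 * t)) by ring, Complex.re_ofReal_mul]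
  ring

theorem b3B_F (A B : ℂ) (t : ℝ) : b3B cF A B t =
    2 * (-(71 / 250 : ℂ) * Complex.I * (conj A * conj A * ee (6 * t))).re := by
  rw [b3B_eq]
  simp only [cF, Complex.ofReal_zero, zero_mul, add_zero, zero_add]
  congr 2
  push_cast
  ring

/-- coefficients of version 1.5 / 1.6 of SHARP.md (nine numbers) -/
noncomputable def cF2 : BC := ⟨33 / 200, -9 / 40, -31 / 100, -11 / 200, 57 / 200, 1 / 20, -19 / 50, -7 / 25, 51 / 100, -9 / 200⟩

theorem box_F2 : Box cF2 (1 / 4) (-9 / 500) (9 / 250) (7 / 125) := by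
  constructor <;> intro x y hx hy h <;> simp only [cF2] <;> norm_num [abs_of_nonneg, abs_of_neg] <;>
    nlinarith [mul_nonneg hx hy, mul_nonneg hx (sub_nonneg.2 h), mul_nonneg hy (sub_nonneg.2 h)]

/-- the sharper box of version 1.5 -/
theorem box_F2' : Box cF2 (1 / 4) (-7 / 500) (9 / 500) (9 / 250) := by
  constructor <;> intro x y hx hy h <;> simp only [cF2] <;> norm_num [abs_of_nonneg, abs_of_neg] <;>
    nlinarith [mul_nonneg hx hy, mul_nonneg hx (sub_nonneg.2 h), mul_nonneg hy (sub_nonneg.2 h)]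

theorem box_V1 : Box cV1 (2 / 5) (-9 / 500) (9 / 250) (7 / 125) := by
  constructor <;> intro x y hx hy h <;> simp only [cV1] <;> norm_num [abs_of_nonneg, abs_of_neg] <;>
    nlinarith [mul_nonneg hx hy, mul_nonneg hx (sub_nonneg.2 h), mul_nonneg hy (sub_nonneg.2 h)]

theorem box_V2 : Box cV2 (2 / 5) (-9 / 500) (9 / 250) (7 / 125) := by
  constructor <;> intro x y hx hy h <;> simp only [cV2] <;> norm_num [abs_of_nonneg, abs_of_neg] <;>
    nlinarith [mul_nonneg hx hy, mul_nonneg hx (sub_nonneg.2 h), mul_nonneg hy (sub_nonneg.2 h)]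

end Pool.Agent.Helper43.SH
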