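import Pool.Agent.Helper95.SH.Dat
import Pool.Agent.Helper49.RC.Comb4

/-!
# SHARP (MP_b21509_co), module G-ALG: the exact expansion of `EP` at a base point

`EP b z = EP bs zs + LinP + QuadP + (NS b z - NS bs zs) + (m - lam) ⟨w (lo(b,z) - lo(bs,zs))⟩` in the weighted rest
variables `β = w (b - bs)`, `ρ = w (z - zs)`.
-/

set_option autoImplicit false

open MeasureTheory Set Filter Topology

namespace Pool.Agent.Helper43.SH

open Helper49.LT hiding sg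
open Helper49.RC (om)
open Helper49.Sharp
open Helper44.GQ (aQ cQ F1Q F2Q AAQ BBQ)
open Helper56.RC (fc)
open Helper87.RC (BM intg_of_bdd fc_add fc_sub fc_cmul pars)
open Helper95.RC (Lf BF)
open Helper95.SH (Dat mo mo_BM mo_sub eM_mo eM_summable lk_int)
open Pool.Agent.Helper20.RC (wR hw alQ L1 lk lk_ge lk_sq sM eM eD DensI wR_wgt)

/-- the linear part of the first edge -/
noncomputable def g1L (β ρ : ℂ) : ℂ :=
  (starRingEnd ℂ) om * (β.re : ℂ) + ((Real.sqrt 3 : ℂ) + Complex.I / 4) * (β.im : ℂ) + ρ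
/-- the linear part of the second edge -/
noncomputable def g2L (β ρ : ℂ) : ℂ :=
  (starRingEnd ℂ) om ^ 2 * (β.re : ℂ) + ((Real.sqrt 3 : ℂ) - Complex.I / 4) * (β.im : ℂ) - ρ

theorem om_re' : om.re = 1 / 2 := by
  unfold om ee
  rw [Complex.exp_ofReal_mul_I_re, Real.cos_pi_div_three]
theorem om_im' : om.im = Real.sqrt 3 / 2 := by
  unfold om ee
  rw [Complex.exp_ofReal_mul_I_im, Real.sin_pi_div_three]

theorem g1L_re (β ρ : ℂ) : (g1L β ρ).re = β.re / 2 + Real.sqrt 3 * β.im + ρ.re := by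
  unfold g1L
  simp [om_re', om_im']
  ring

theorem g1L_im (β ρ : ℂ) : (g1L β ρ).im = -(Real.sqrt 3 / 2) * β.re + β.im / 4 + ρ.im := by
  unfold g1L
  simp [om_re', om_im']
  ring

theorem g2L_re (β ρ : ℂ) : (g2L β ρ).re = -β.re / 2 + Real.sqrt 3 * β.im - ρ.re := by
  have h3 : Real.sqrt 3 * Real.sqrt 3 = 3 := Real.mul_self_sqrt (by norm_num)
  unfold g2L
  simp [om_re', om_im', pow_two]
  linear_combination (-(β.re) / 4) * h3

theorem g2L_im (β ρ : ℂ) : (g2L β ρ).im = -(Real.sqrt 3 / 2) * β.re - β.im / 4 - ρ.im := by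
  unfold g2L
  simp [om_re', om_im', pow_two]
  ring

theorem g1_re' (b z : ℂ) : (g1 b z).re = Real.sqrt 3 * b.im + (1 + b.re) / 2 + z.re := by
  simp [g1, cQ, aQ]
  ring

theorem g1_im' (b z : ℂ) : (g1 b z).im = Real.sqrt 3 / 2 * (1 - b.re) + b.im / 4 + z.im := by
  simp [g1, cQ, aQ]
  ring

theorem g2_re' (b z : ℂ) : (g2 b z).re = Real.sqrt 3 * b.im - (1 + b.re) / 2 - z.re := by
  simp [g2, cQ, aQ]
  ring

theorem g2_im' (b z : ℂ) : (g2 b z).im = Real.sqrt 3 / 2 * (1 - b.re) - b.im / 4 - z.im := by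
  simp [g2, cQ, aQ]
  ring

theorem g1_diff (w : ℝ) (b z b' z' : ℂ) :
    (w : ℂ) * g1 b z = (w : ℂ) * g1 b' z' + g1L ((w : ℂ) * (b - b')) ((w : ℂ) * (z - z')) := by
  apply Complex.ext
  · simp only [Complex.add_re, Complex.re_ofReal_mul, g1L_re, g1_re', Complex.im_ofReal_mul, Complex.sub_re,
      Complex.sub_im]
    ring
  · simp only [Complex.add_im, Complex.re_ofReal_mul, g1L_im, g1_im', Complex.im_ofReal_mul, Complex.sub_re,
      Complex.sub_im]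
    ring

theorem g2_diff (w : ℝ) (b z b' z' : ℂ) :
    (w : ℂ) * g2 b z = (w : ℂ) * g2 b' z' + g2L ((w : ℂ) * (b - b')) ((w : ℂ) * (z - z')) := by
  apply Complex.ext
  · simp only [Complex.add_re, Complex.re_ofReal_mul, g2L_re, g2_re', Complex.im_ofReal_mul, Complex.sub_re,
      Complex.sub_im]
    ring
  · simp only [Complex.add_im, Complex.re_ofReal_mul, g2L_im, g2_im', Complex.im_ofReal_mul, Complex.sub_re,
      Complex.sub_im]
    ring

/-! ### the homogeneous functionals of the weighted rest `(β, ρ)` -/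

/-- weighted difference -/
noncomputable def wd (w : ℝ → ℝ) (f g : ℝ → ℂ) (t : ℝ) : ℂ := (w t : ℂ) * (f t - g t)
/-- families of the rest (fixed frame) -/
noncomputable def f1R (β ρ : ℝ → ℂ) (θ : ℝ) : ℂ :=
  ee (θ - Real.pi / 3) * g1L (β (θ - Real.pi / 3)) (ρ (θ - Real.pi / 3))
noncomputable def f2R (β ρ : ℝ → ℂ) (θ : ℝ) : ℂ :=
  ee (θ - 2 * Real.pi / 3) * g2L (β (θ - 2 * Real.pi / 3)) (ρ (θ - 2 * Real.pi / 3))
/-- `δ = β₂ + i β₃/2` -/
noncomputable def dl (β : ℝ → ℂ) (t : ℝ) : ℂ := ((β t).re : ℂ) + Complex.I * (((β t).im / 2 : ℝ) : ℂ)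
/-- the harmonic 2 -/
noncomputable def sgR (β : ℝ → ℂ) : ℂ :=
  fc (fun t => ((β t).re : ℂ)) 2 - Complex.I * fc (fun t => ((β t).im : ℂ)) 2
noncomputable def hR (β : ℝ → ℂ) : ℝ := (fc (dl β) 0).re
noncomputable def hK (β : ℝ → ℂ) (k : ℕ) : ℂ := Hk (noh2 (dl β)) k
noncomputable def eR (P : Par) (β ρ : ℝ → ℂ) (k : ℕ) : ℂ := eM (f1R β ρ) (f2R β ρ) P.ph1 P.ph2 (lk k)
noncomputable def e0R (P : Par) (β ρ : ℝ → ℂ) : ℝ := (eM (f1R β ρ) (f2R β ρ) P.ph1 P.ph2 0).re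

/-- local directions -/
noncomputable def W1 (P : Par) (t : ℝ) : ℂ :=
  ((P.H (P.th1 t) : ℂ) + Complex.I * (P.H1 (P.th1 t) : ℂ)) * P.u1 t - (P.lam : ℂ) * (P.u1 t - P.v1 t)
noncomputable def W2 (P : Par) (t : ℝ) : ℂ :=
  ((P.H (P.th2 t) : ℂ) + Complex.I * (P.H1 (P.th2 t) : ℂ)) * P.u2 t - (P.lam : ℂ) * (P.u2 t - P.v2 t)

/-- the linear part of `EP` at `(bs, zs)` without `NS` and `lo` -/
noncomputable def LinP (P : Par) (bs zs β ρ : ℝ → ℂ) : ℝ :=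
  4 / 3 * ((starRingEnd ℂ) (P.eta + P.sig bs) * sgR β).re
  + 2 * (fc (dl β) 0 + (starRingEnd ℂ) P.eta * fc (dl β) 2 / 3 - P.eta * fc (dl β) (-2)).re
  + (∑' j : ℤ, 2 * ((starRingEnd ℂ) (fc (P.al bs) (2 * j)) * fc (dl β) (2 * j)).re / (2 * (j : ℝ) + 1))
  + 2 * hR β * P.e00 bs zs + 2 * P.H0 bs * e0R P β ρ - 2 * P.pr2 * (P.H0 bs - P.h0) * hR β
  + (∑' k : ℕ, (2 * (Hk (P.dal bs) k * (starRingEnd ℂ) (eR P β ρ k)).re
      + 2 * (hK β k * (starRingEnd ℂ) (P.eA bs zs k + P.ga k)).re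
      - 4 / P.nu * (lk k ^ 2 - 1) * ((starRingEnd ℂ) (Hk (P.dal bs) k) * hK β k).re
      - P.nu * ((starRingEnd ℂ) (P.eA bs zs k - P.ga k) * eR P β ρ k).re / (lk k ^ 2 - 1)))
  + mean (fun t => 2 * ((starRingEnd ℂ) (W1 P t) * g1L (β t) (ρ t)).re
      + 2 * ((starRingEnd ℂ) (W2 P t) * g2L (β t) (ρ t)).re + 2 * (9 - P.cs) * ((starRingEnd ℂ) (bs t) * β t).re)

/-- the quadratic part of `EP` without `NS` and `lo` -/
noncomputable def QuadP (P : Par) (β ρ : ℝ → ℂ) : ℝ :=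
  2 / 3 * ‖sgR β‖ ^ 2 + (∑' j : ℤ, ‖fc (dl β) (2 * j)‖ ^ 2 / (2 * (j : ℝ) + 1))
  + 2 * hR β * e0R P β ρ - P.pr2 * hR β ^ 2 + D2 P.nu (hK β) (eR P β ρ) (fun _ => 0)
  + mean (fun t => (9 - P.cs) * ‖β t‖ ^ 2 / P.w t)

/-! ### series -/

theorem re_mul_le (a e : ℂ) (q : ℝ) (hq : 0 < q) :
    |(a * (starRingEnd ℂ) e).re| ≤ q * ‖a‖ ^ 2 + ‖e‖ ^ 2 / q := by
  have h1 : |(a * (starRingEnd ℂ) e).re| ≤ ‖a‖ * ‖e‖ := by
    refine (Complex.abs_re_le_norm _).trans (le_of_eq ?_)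
    rw [norm_mul, RCLike.norm_conj]
  refine h1.trans ?_
  rw [← sub_nonneg]
  have e1 : q * ‖a‖ ^ 2 + ‖e‖ ^ 2 / q - ‖a‖ * ‖e‖ =
      ((q * ‖a‖ - ‖e‖ / 2) ^ 2 + 3 / 4 * ‖e‖ ^ 2) / q := by
    field_simp
    ring
  rw [e1]
  positivity

section D2

variable {a b e x γ : ℕ → ℂ} {ν : ℝ}

theorem sae (ha : Summable fun k => (lk k ^ 2 - 1) * ‖a k‖ ^ 2)
    (he : Summable fun k => ‖e k‖ ^ 2 / (lk k ^ 2 - 1)) :
    Summable fun k => (a k * (starRingEnd ℂ) (e k)).re := by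
  refine Summable.of_norm_bounded (ha.add he) fun k => ?_
  rw [Real.norm_eq_abs]
  exact re_mul_le _ _ _ (lk_sq k)

theorem saa (ha : Summable fun k => (lk k ^ 2 - 1) * ‖a k‖ ^ 2)
    (hb : Summable fun k => (lk k ^ 2 - 1) * ‖b k‖ ^ 2) :
    Summable fun k => (lk k ^ 2 - 1) * ((starRingEnd ℂ) (a k) * b k).re := by
  refine Summable.of_norm_bounded (ha.add hb) fun k => ?_
  have h := re_mul_le (b k) (a k) 1 one_pos
  rw [Real.norm_eq_abs, abs_mul, abs_of_pos (lk_sq k), mul_comm ((starRingEnd ℂ) (a k)), ← mul_add]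
  refine mul_le_mul_of_nonneg_left ?_ (lk_sq k).le
  linarith

theorem see (he : Summable fun k => ‖e k‖ ^ 2 / (lk k ^ 2 - 1))
    (hx : Summable fun k => ‖x k‖ ^ 2 / (lk k ^ 2 - 1)) :
    Summable fun k => ((starRingEnd ℂ) (e k) * x k).re / (lk k ^ 2 - 1) := by
  refine Summable.of_norm_bounded (he.add hx) fun k => ?_
  have h := re_mul_le (x k) (e k) 1 one_pos
  rw [Real.norm_eq_abs, abs_div, abs_of_pos (lk_sq k), mul_comm ((starRingEnd ℂ) (e k)), ← add_div]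
  refine div_le_div_of_nonneg_right ?_ (lk_sq k).le
  linarith

theorem ssub (he : Summable fun k => ‖e k‖ ^ 2 / (lk k ^ 2 - 1))
    (hx : Summable fun k => ‖x k‖ ^ 2 / (lk k ^ 2 - 1)) :
    Summable fun k => ‖e k - x k‖ ^ 2 / (lk k ^ 2 - 1) := by
  refine Summable.of_nonneg_of_le (fun k => div_nonneg (by positivity) (lk_sq k).le) (fun k => ?_)
    ((he.mul_left 2).add (hx.mul_left 2))
  have h1 : ‖e k - x k‖ ^ 2 ≤ 2 * ‖e k‖ ^ 2 + 2 * ‖x k‖ ^ 2 := by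
    have h2 := norm_sub_le (e k) (x k)
    have h3 := pow_le_pow_left₀ (norm_nonneg _) h2 2
    nlinarith [sq_nonneg (‖e k‖ - ‖x k‖)]
  calc ‖e k - x k‖ ^ 2 / (lk k ^ 2 - 1) ≤ (2 * ‖e k‖ ^ 2 + 2 * ‖x k‖ ^ 2) / (lk k ^ 2 - 1) :=
        div_le_div_of_nonneg_right h1 (lk_sq k).le
    _ = _ := by ring

theorem sfin (hγ : (Function.support γ).Finite) : Summable fun k => ‖γ k‖ ^ 2 / (lk k ^ 2 - 1) := by
  refine summable_of_ne_finset_zero (s := hγ.toFinset) fun k hk => ?_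
  have : γ k = 0 := by
    by_contra h
    exact hk (hγ.mem_toFinset.2 h)
  rw [this]
  simp

theorem D2_exp (ha : Summable fun k => (lk k ^ 2 - 1) * ‖a k‖ ^ 2)
    (hb : Summable fun k => (lk k ^ 2 - 1) * ‖b k‖ ^ 2)
    (he : Summable fun k => ‖e k‖ ^ 2 / (lk k ^ 2 - 1))
    (hx : Summable fun k => ‖x k‖ ^ 2 / (lk k ^ 2 - 1)) (hγ : (Function.support γ).Finite) :
    D2 ν (fun k => a k + b k) (fun k => e k + x k) γ = D2 ν a e γ
      + (∑' k : ℕ, (2 * (a k * (starRingEnd ℂ) (x k)).re + 2 * (b k * (starRingEnd ℂ) (e k + γ k)).re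
        - 4 / ν * (lk k ^ 2 - 1) * ((starRingEnd ℂ) (a k) * b k).re
        - ν * ((starRingEnd ℂ) (e k - γ k) * x k).re / (lk k ^ 2 - 1)))
      + D2 ν b x (fun _ => 0) := by
  have hg := sfin hγ
  have heg := ssub he hg
  have heg' : Summable fun k => ‖e k + γ k‖ ^ 2 / (lk k ^ 2 - 1) := by
    have h1 : Summable fun k => ‖-γ k‖ ^ 2 / (lk k ^ 2 - 1) := by simpa only [norm_neg] using hg
    have h2 := ssub he h1
    simpa only [sub_neg_eq_add] using h2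
  have s1 : Summable fun k => (2 * (a k * (starRingEnd ℂ) (e k)).re + 2 * (a k * (starRingEnd ℂ) (γ k)).re
      - 2 / ν * (lk k ^ 2 - 1) * ‖a k‖ ^ 2 - ν / 2 * ‖e k - γ k‖ ^ 2 / (lk k ^ 2 - 1)) := by
    have t1 := (sae ha he).mul_left 2
    have t2 := (sae ha hg).mul_left 2
    have t3 := ha.mul_left (2 / ν)
    have t4 := heg.mul_left (ν / 2)
    refine (((t1.add t2).sub t3).sub t4).congr fun k => ?_
    ring
  have s2 : Summable fun k => (2 * (a k * (starRingEnd ℂ) (x k)).re + 2 * (b k * (starRingEnd ℂ) (e k + γ k)).re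
      - 4 / ν * (lk k ^ 2 - 1) * ((starRingEnd ℂ) (a k) * b k).re
      - ν * ((starRingEnd ℂ) (e k - γ k) * x k).re / (lk k ^ 2 - 1)) := by
    have t1 := (sae ha hx).mul_left 2
    have t2 := (sae hb heg').mul_left 2
    have t3 := (saa ha hb).mul_left (4 / ν)
    have t4 := (see heg hx).mul_left ν
    refine (((t1.add t2).sub t3).sub t4).congr fun k => ?_
    ring
  have s3 : Summable fun k => (2 * (b k * (starRingEnd ℂ) (x k)).re + 2 * (b k * (starRingEnd ℂ) (0 : ℂ)).re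
      - 2 / ν * (lk k ^ 2 - 1) * ‖b k‖ ^ 2 - ν / 2 * ‖x k - 0‖ ^ 2 / (lk k ^ 2 - 1)) := by
    have t1 := (sae hb hx).mul_left 2
    have t3 := hb.mul_left (2 / ν)
    have t4 := hx.mul_left (ν / 2)
    refine ((t1.sub t3).sub t4).congr fun k => ?_
    simp only [map_zero, mul_zero, Complex.zero_re, add_zero, sub_zero]
    ring
  unfold D2
  rw [← s1.tsum_add s2, ← (s1.add s2).tsum_add s3]
  refine tsum_congr fun k => ?_
  have n1 : ∀ u v : ℂ, ‖u + v‖ ^ 2 = ‖u‖ ^ 2 + 2 * ((starRingEnd ℂ) u * v).re + ‖v‖ ^ 2 := by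
    intro u v
    simp only [← Complex.normSq_eq_norm_sq, Complex.normSq_apply, Complex.add_re, Complex.add_im, Complex.mul_re,
      Complex.conj_re, Complex.conj_im]
    ring
  have n2 : ‖e k + x k - γ k‖ ^ 2 = ‖e k - γ k‖ ^ 2 + 2 * ((starRingEnd ℂ) (e k - γ k) * x k).re + ‖x k‖ ^ 2 := by
    rw [show e k + x k - γ k = (e k - γ k) + x k by ring, n1]
  have n3 : ((a k + b k) * (starRingEnd ℂ) (e k + x k)).re + ((a k + b k) * (starRingEnd ℂ) (γ k)).re =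
      (a k * (starRingEnd ℂ) (e k)).re + (a k * (starRingEnd ℂ) (γ k)).re + (a k * (starRingEnd ℂ) (x k)).re +
      (b k * (starRingEnd ℂ) (e k + γ k)).re + (b k * (starRingEnd ℂ) (x k)).re := by
    simp only [map_add, mul_add, add_mul, Complex.add_re]
    ring
  simp only
  rw [n2, n1 (a k) (b k)]
  simp only [map_zero, mul_zero, Complex.zero_re, add_zero, sub_zero]
  have n4 := n3
  have hq := (lk_sq k).ne'
  linear_combination 2 * n4

end D2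

/-- the coefficients `H_l` of a bounded function -/
theorem Hk_summable {α : ℝ → ℂ} {E : ℝ} (h : BM α E) : Summable fun k => (lk k ^ 2 - 1) * ‖Hk α k‖ ^ 2 := by
  have hp := (pars h).summable
  have i1 : Function.Injective fun k : ℕ => (2 * (k : ℤ) + 2 : ℤ) := fun a b hab => by
    simp only at hab; omega
  have i2 : Function.Injective fun k : ℕ => (-(2 * (k : ℤ) + 2) : ℤ) := fun a b hab => by
    simp only at hab; omega
  have s1 := hp.comp_injective i1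
  have s2 := hp.comp_injective i2
  refine Summable.of_nonneg_of_le (fun k => mul_nonneg (lk_sq k).le (by positivity)) (fun k => ?_)
    (s1.add (s2.mul_left 2))
  have hl := lk_ge k
  set x := ‖fc α (2 * (k : ℤ) + 2)‖ with hx
  set y := ‖fc α (-(2 * (k : ℤ) + 2))‖ with hy
  have hx0 : 0 ≤ x := norm_nonneg _
  have hy0 : 0 ≤ y := norm_nonneg _
  have n1 : ‖((lk k : ℂ) + 1)‖ = lk k + 1 := by
    have : ((lk k : ℂ) + 1) = ((lk k + 1 : ℝ) : ℂ) := by push_cast; rfl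
    rw [this, Complex.norm_real, Real.norm_eq_abs, abs_of_pos (by linarith)]
  have n2 : ‖((lk k : ℂ) - 1)‖ = lk k - 1 := by
    have : ((lk k : ℂ) - 1) = ((lk k - 1 : ℝ) : ℂ) := by push_cast; rfl
    rw [this, Complex.norm_real, Real.norm_eq_abs, abs_of_pos (by linarith)]
  have h1 : ‖Hk α k‖ ≤ (x / (lk k + 1) + y / (lk k - 1)) / 2 := by
    unfold Hk
    rw [norm_div, Complex.norm_ofNat]
    refine div_le_div_of_nonneg_right ?_ (by norm_num)
    refine (norm_sub_le _ _).trans (le_of_eq ?_)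
    rw [norm_div, norm_div, n1, n2, RCLike.norm_conj]
  have h2 := pow_le_pow_left₀ (norm_nonneg _) h1 2
  have p1 : 0 < lk k + 1 := by linarith
  have p2 : 0 < lk k - 1 := by linarith
  calc (lk k ^ 2 - 1) * ‖Hk α k‖ ^ 2 ≤ (lk k ^ 2 - 1) * ((x / (lk k + 1) + y / (lk k - 1)) / 2) ^ 2 :=
        mul_le_mul_of_nonneg_left h2 (lk_sq k).le
    _ ≤ (lk k ^ 2 - 1) * (((x / (lk k + 1)) ^ 2 + (y / (lk k - 1)) ^ 2) / 2) := by
        refine mul_le_mul_of_nonneg_left ?_ (lk_sq k).le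
        nlinarith [sq_nonneg (x / (lk k + 1) - y / (lk k - 1))]
    _ = x ^ 2 * ((lk k - 1) / (lk k + 1)) / 2 + y ^ 2 * ((lk k + 1) / (lk k - 1)) / 2 := by
        field_simp
        ring
    _ ≤ x ^ 2 * 1 / 2 + y ^ 2 * 3 / 2 := by
        have q1 : (lk k - 1) / (lk k + 1) ≤ 1 := by rw [div_le_one p1]; linarith
        have q2 : (lk k + 1) / (lk k - 1) ≤ 3 := by rw [div_le_iff₀ p2]; linarith
        have := mul_le_mul_of_nonneg_left q1 (sq_nonneg x)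
        have := mul_le_mul_of_nonneg_left q2 (sq_nonneg y)
        linarith
    _ ≤ _ := by
        show _ ≤ x ^ 2 + 2 * y ^ 2
        nlinarith [sq_nonneg x, sq_nonneg y]

theorem Hk_add {α δ : ℝ → ℂ} {E D : ℝ} (h : BM α E) (h' : BM δ D) (k : ℕ) :
    Hk (fun t => α t + δ t) k = Hk α k + Hk δ k := by
  unfold Hk
  rw [fc_add h h', fc_add h h', map_add]
  ring

theorem noh2_add {α δ : ℝ → ℂ} {E D : ℝ} (h : BM α E) (h' : BM δ D) (t : ℝ) :
    noh2 (fun t => α t + δ t) t = noh2 α t + noh2 δ t := by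
  unfold noh2
  rw [fc_add h h', fc_add h h']
  ring

theorem fc_noh2_zero {δ : ℝ → ℂ} {D : ℝ} (h : BM δ D) : fc (noh2 δ) 0 = fc δ 0 := by
  have e : noh2 δ = fun t => (δ t - fc δ 2 * ee (((2 : ℤ) : ℝ) * t)) - fc δ (-2) * ee (((-2 : ℤ) : ℝ) * t) := by
    funext t
    unfold noh2
    push_cast
    rfl
  have b1 : BM (fun t : ℝ => ee (((2 : ℤ) : ℝ) * t)) 1 := BM.eec _
  have b2 : BM (fun t : ℝ => ee (((-2 : ℤ) : ℝ) * t)) 1 := BM.eec _
  rw [e, fc_sub (h.sub (b1.cmul _)) (b2.cmul _), fc_sub h (b1.cmul _), fc_cmul, fc_cmul,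
    Pool.Agent.Helper20.RC.fc_eek, Pool.Agent.Helper20.RC.fc_eek]
  simp

theorem mo_add {g g' : ℝ → ℂ} {D D' : ℝ} {φ : ℝ → ℝ} (hg : BM g D) (hg' : BM g' D') (hφ : Measurable φ) (m : ℝ) :
    mo φ (fun t => g t + g' t) m = mo φ g m + mo φ g' m := by
  have h := mo_sub hg (hg'.cmul (-1)) hφ m
  have e1 : (fun t => g t - -1 * g' t) = fun t => g t + g' t := by funext t; ring
  have e2 : mo φ (fun t => -1 * g' t) m = -mo φ g' m := by
    unfold mo Helper95.RC.av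
    rw [← mul_neg, ← intervalIntegral.integral_neg]
    congr 1
    refine intervalIntegral.integral_congr fun t _ => ?_
    show -1 * g' t * _ = -(g' t * _)
    ring
  rw [e1, e2, sub_neg_eq_add] at h
  exact h

theorem eM_add {g1 g2 h1 h2 : ℝ → ℂ} {D1 D2 E1 E2 : ℝ} {φ1 φ2 : ℝ → ℝ} (b1 : BM g1 D1) (b2 : BM g2 D2)
    (c1 : BM h1 E1) (c2 : BM h2 E2) (m1 : Measurable φ1) (m2 : Measurable φ2) (l : ℝ) :
    eM (fun t => g1 t + h1 t) (fun t => g2 t + h2 t) φ1 φ2 l = eM g1 g2 φ1 φ2 l + eM h1 h2 φ1 φ2 l := by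
  rw [eM_mo (b1.add c1) (b2.add c2) m1 m2, eM_mo b1 b2 m1 m2, eM_mo c1 c2 m1 m2, mo_add b1 c1 m1, mo_add b2 c2 m2]
  have e1 : (fun t => (starRingEnd ℂ) (g1 t + h1 t)) = fun t => (starRingEnd ℂ) (g1 t) + (starRingEnd ℂ) (h1 t) := by
    funext t; rw [map_add]
  have e2 : (fun t => (starRingEnd ℂ) (g2 t + h2 t)) = fun t => (starRingEnd ℂ) (g2 t) + (starRingEnd ℂ) (h2 t) := by
    funext t; rw [map_add]
  rw [e1, e2, mo_add b1.conj c1.conj m1, mo_add b2.conj c2.conj m2]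
  ring

/-! ### the data and their rest -/

section

variable {P : Par} {b z bs zs : ℝ → ℂ}

theorem wd_BM (hr : P.Reg) {f g : ℝ → ℂ} (hf : BF f) (hg : BF g) : ∃ C, BM (wd P.w f g) C := by
  obtain ⟨C1, h1⟩ := hf.b
  obtain ⟨C2, h2⟩ := hg.b
  obtain ⟨C, hC⟩ := (w_br hr).b
  have hw : BM (fun t => (P.w t : ℂ)) C :=
    ⟨Complex.measurable_ofReal.comp (w_br hr).m, fun t => by rw [Complex.norm_real, Real.norm_eq_abs]; exact hC t⟩
  exact ⟨_, hw.mul (BM.sub ⟨hf.m, h1⟩ ⟨hg.m, h2⟩)⟩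

theorem F1_exp (θ : ℝ) : P.F1 b z θ = P.F1 bs zs θ + f1R (wd P.w b bs) (wd P.w z zs) θ := by
  have h1 := F1_at (P := P) (b := b) (z := z) (θ - Real.pi / 3)
  have h2 := F1_at (P := P) (b := bs) (z := zs) (θ - Real.pi / 3)
  rw [sub_add_cancel] at h1 h2
  rw [h1, h2]
  unfold f1R wd
  have h3 := g1_diff (P.w (θ - Real.pi / 3)) (b (θ - Real.pi / 3)) (z (θ - Real.pi / 3)) (bs (θ - Real.pi / 3))
    (zs (θ - Real.pi / 3))
  linear_combination (ee (θ - Real.pi / 3)) * h3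

theorem F2_exp (θ : ℝ) : P.F2 b z θ = P.F2 bs zs θ + f2R (wd P.w b bs) (wd P.w z zs) θ := by
  have h1 := F2_at (P := P) (b := b) (z := z) (θ - 2 * Real.pi / 3)
  have h2 := F2_at (P := P) (b := bs) (z := zs) (θ - 2 * Real.pi / 3)
  rw [sub_add_cancel] at h1 h2
  rw [h1, h2]
  unfold f2R wd
  have h3 := g2_diff (P.w (θ - 2 * Real.pi / 3)) (b (θ - 2 * Real.pi / 3)) (z (θ - 2 * Real.pi / 3))
    (bs (θ - 2 * Real.pi / 3)) (zs (θ - 2 * Real.pi / 3))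
  linear_combination (ee (θ - 2 * Real.pi / 3)) * h3

theorem al_exp (t : ℝ) : P.al b t = P.al bs t + dl (wd P.w b bs) t := by
  show alQ P.w 2 b t = alQ P.w 2 bs t + _
  unfold alQ dl wd
  rw [Complex.re_ofReal_mul, Complex.im_ofReal_mul, Complex.sub_re, Complex.sub_im]
  push_cast
  ring

/-- bounded real and imaginary parts -/
theorem reC_BM {f : ℝ → ℂ} {C : ℝ} (h : BM f C) : BM (fun t => ((f t).re : ℂ)) C :=
  ⟨Complex.measurable_ofReal.comp (Complex.measurable_re.comp h.m), fun t => by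
    rw [Complex.norm_real, Real.norm_eq_abs]; exact (Complex.abs_re_le_norm _).trans (h.b t)⟩
theorem imC_BM {f : ℝ → ℂ} {C : ℝ} (h : BM f C) : BM (fun t => ((f t).im : ℂ)) C :=
  ⟨Complex.measurable_ofReal.comp (Complex.measurable_im.comp h.m), fun t => by
    rw [Complex.norm_real, Real.norm_eq_abs]; exact (Complex.abs_im_le_norm _).trans (h.b t)⟩

theorem dl_BM {β : ℝ → ℂ} {C : ℝ} (h : BM β C) : ∃ E, BM (dl β) E := by
  have h2 := (reC_BM h).add ((imC_BM h).cmul (Complex.I / 2))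
  have e : dl β = fun t => ((β t).re : ℂ) + (Complex.I / 2) * ((β t).im : ℂ) := by
    funext t; unfold dl; push_cast; ring
  rw [e]
  exact ⟨_, h2⟩

theorem g1L_BM {β ρ : ℝ → ℂ} {C D : ℝ} (h : BM β C) (k : BM ρ D) : ∃ E, BM (fun t => g1L (β t) (ρ t)) E :=
  ⟨_, (((reC_BM h).cmul _).add ((imC_BM h).cmul _)).add k⟩
theorem g2L_BM {β ρ : ℝ → ℂ} {C D : ℝ} (h : BM β C) (k : BM ρ D) : ∃ E, BM (fun t => g2L (β t) (ρ t)) E :=
  ⟨_, (((reC_BM h).cmul _).add ((imC_BM h).cmul _)).sub k⟩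

theorem f1R_BM {β ρ : ℝ → ℂ} {C D : ℝ} (h : BM β C) (k : BM ρ D) : ∃ E, BM (f1R β ρ) E := by
  obtain ⟨E, hE⟩ := g1L_BM h k
  have h1 := bm_ee.mul hE
  exact ⟨_, ⟨h1.m.comp (measurable_id.sub_const _), fun t => h1.b _⟩⟩
theorem f2R_BM {β ρ : ℝ → ℂ} {C D : ℝ} (h : BM β C) (k : BM ρ D) : ∃ E, BM (f2R β ρ) E := by
  obtain ⟨E, hE⟩ := g2L_BM h k
  have h1 := bm_ee.mul hE
  exact ⟨_, ⟨h1.m.comp (measurable_id.sub_const _), fun t => h1.b _⟩⟩

theorem al_BMd (hr : P.Reg) (d : Dat b z) : ∃ E, BM (P.al b) E := by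
  obtain ⟨C2, h2⟩ := Helper95.RC.bm_wre hr.wgt d.hb
  obtain ⟨C3, h3⟩ := Helper95.RC.bm_wim hr.wgt d.hb
  have e : P.al b = fun t => ((P.w t * (b t).re : ℝ) : ℂ) + (Complex.I / 2) * ((P.w t * (b t).im : ℝ) : ℂ) := by
    funext t
    show alQ P.w 2 b t = _
    unfold alQ
    push_cast
    ring
  rw [e]
  exact ⟨_, h2.add (h3.cmul _)⟩

theorem sig_exp (hr : P.Reg) (d : Dat b z) (ds : Dat bs zs) : P.sig b = P.sig bs + sgR (wd P.w b bs) := by
  obtain ⟨C2, h2⟩ := Helper95.RC.bm_wre hr.wgt ds.hb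
  obtain ⟨C3, h3⟩ := Helper95.RC.bm_wim hr.wgt ds.hb
  obtain ⟨C, hC⟩ := wd_BM hr d.hb ds.hb
  have e2 : (fun t => ((P.w t * (b t).re : ℝ) : ℂ)) = fun t => ((P.w t * (bs t).re : ℝ) : ℂ) +
      ((wd P.w b bs t).re : ℂ) := by
    funext t
    unfold wd
    rw [Complex.re_ofReal_mul, Complex.sub_re]
    push_cast
    ring
  have e3 : (fun t => ((P.w t * (b t).im : ℝ) : ℂ)) = fun t => ((P.w t * (bs t).im : ℝ) : ℂ) +
      ((wd P.w b bs t).im : ℂ) := by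
    funext t
    unfold wd
    rw [Complex.im_ofReal_mul, Complex.sub_im]
    push_cast
    ring
  unfold Par.sig sgR
  rw [e2, e3, fc_add h2 (reC_BM hC), fc_add h3 (imC_BM hC)]
  ring

theorem dal_exp (hr : P.Reg) (d : Dat b z) (ds : Dat bs zs) :
    P.dal b = fun t => P.dal bs t + noh2 (dl (wd P.w b bs)) t := by
  obtain ⟨C, hC⟩ := wd_BM hr d.hb ds.hb
  obtain ⟨E, hE⟩ := dl_BM hC
  obtain ⟨E1, h1⟩ := al_BMd hr ds
  funext t
  unfold Par.dal
  have e : P.al b = fun t => P.al bs t + dl (wd P.w b bs) t := funext fun t => al_exp t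
  rw [e, noh2_add h1 hE]
  ring

theorem dal_BMd (hr : P.Reg) (d : Dat b z) : ∃ E, BM (P.dal b) E := by
  obtain ⟨E1, h1⟩ := al_BMd hr d
  obtain ⟨E2, h2⟩ := a0_bm hr
  exact ⟨_, (noh2_bm h1).sub h2⟩

theorem H0_exp (hr : P.Reg) (d : Dat b z) (ds : Dat bs zs) : P.H0 b = P.H0 bs + hR (wd P.w b bs) := by
  obtain ⟨C, hC⟩ := wd_BM hr d.hb ds.hb
  obtain ⟨E, hE⟩ := dl_BM hC
  obtain ⟨E1, h1⟩ := dal_BMd hr ds
  unfold Par.H0 hR
  rw [dal_exp hr d ds, fc_add h1 (noh2_bm hE), fc_noh2_zero hE, Complex.add_re]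

theorem Hk_exp (hr : P.Reg) (d : Dat b z) (ds : Dat bs zs) (k : ℕ) :
    Hk (P.dal b) k = Hk (P.dal bs) k + hK (wd P.w b bs) k := by
  obtain ⟨C, hC⟩ := wd_BM hr d.hb ds.hb
  obtain ⟨E, hE⟩ := dl_BM hC
  obtain ⟨E1, h1⟩ := dal_BMd hr ds
  rw [dal_exp hr d ds, Hk_add h1 (noh2_bm hE)]
  rfl

theorem F_BMd (hr : P.Reg) (d : Dat b z) : ∃ D, BM (P.F1 b z) D ∧ BM (P.F2 b z) D := by
  obtain ⟨C1, h1⟩ := Helper95.SH.bm_F1 (q := 2) hr.wgt d
  obtain ⟨C2, h2⟩ := Helper95.SH.bm_F2 (q := 2) hr.wgt d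
  exact ⟨max C1 C2, ⟨h1.m, fun t => (h1.b t).trans (le_max_left _ _)⟩,
    ⟨h2.m, fun t => (h2.b t).trans (le_max_right _ _)⟩⟩

theorem eM_exp (hr : P.Reg) (d : Dat b z) (ds : Dat bs zs) (l : ℝ) :
    eM (P.F1 b z) (P.F2 b z) P.ph1 P.ph2 l = eM (P.F1 bs zs) (P.F2 bs zs) P.ph1 P.ph2 l +
      eM (f1R (wd P.w b bs) (wd P.w z zs)) (f2R (wd P.w b bs) (wd P.w z zs)) P.ph1 P.ph2 l := by
  obtain ⟨C, hC⟩ := wd_BM hr d.hb ds.hb
  obtain ⟨C', hC'⟩ := wd_BM hr d.hz ds.hz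
  obtain ⟨D1, b1, b2⟩ := F_BMd hr ds
  obtain ⟨E1, c1⟩ := f1R_BM hC hC'
  obtain ⟨E2, c2⟩ := f2R_BM hC hC'
  rw [← eM_add b1 b2 c1 c2 hr.mph1 hr.mph2]
  have e1 : P.F1 b z = fun t => P.F1 bs zs t + f1R (wd P.w b bs) (wd P.w z zs) t := funext fun θ => F1_exp θ
  have e2 : P.F2 b z = fun t => P.F2 bs zs t + f2R (wd P.w b bs) (wd P.w z zs) t := funext fun θ => F2_exp θ
  rw [← e1, ← e2]

theorem sq_add (u v : ℂ) : ‖u + v‖ ^ 2 = ‖u‖ ^ 2 + 2 * ((starRingEnd ℂ) u * v).re + ‖v‖ ^ 2 := by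
  simp only [← Complex.normSq_eq_norm_sq, Complex.normSq_apply, Complex.add_re, Complex.add_im, Complex.mul_re,
    Complex.conj_re, Complex.conj_im]
  ring

/-- the link 1 term -/
theorem L1_exp {η : ℂ} {α δ : ℝ → ℂ} {E D : ℝ} (h : BM α E) (h' : BM δ D) :
    L1 η 0 0 (fun t => α t + δ t) = L1 η 0 0 α
      + 2 * (fc δ 0 + (starRingEnd ℂ) η * fc δ 2 / 3 - η * fc δ (-2)).re
      + (∑' j : ℤ, 2 * ((starRingEnd ℂ) (fc α (2 * j)) * fc δ (2 * j)).re / (2 * (j : ℝ) + 1))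
      + (∑' j : ℤ, ‖fc δ (2 * j)‖ ^ 2 / (2 * (j : ℝ) + 1)) := by
  have i1 : Function.Injective fun j : ℤ => (2 * j : ℤ) := fun a b hab => by
    simp only at hab; omega
  have hα := (pars h).summable.comp_injective i1
  have hδ := (pars h').summable.comp_injective i1
  have hd : ∀ j : ℤ, 1 ≤ |2 * (j : ℝ) + 1| := by
    intro j
    have h1 : (1 : ℤ) ≤ |2 * j + 1| := Int.one_le_abs (by omega)
    have h2 : ((|2 * j + 1| : ℤ) : ℝ) = |2 * (j : ℝ) + 1| := by push_cast; rfl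
    rw [← h2]
    exact_mod_cast h1
  have key : ∀ {u : ℤ → ℝ} {v : ℤ → ℝ}, Summable v → (∀ j, |u j| ≤ v j) →
      Summable fun j : ℤ => u j / (2 * (j : ℝ) + 1) := by
    intro u v hv huv
    refine Summable.of_norm_bounded hv fun j => ?_
    rw [Real.norm_eq_abs, abs_div]
    exact (div_le_self (abs_nonneg _) (hd j)).trans (huv j)
  have s1 : Summable fun j : ℤ => ‖fc α (2 * j)‖ ^ 2 / (2 * (j : ℝ) + 1) :=
    key hα fun j => by rw [abs_of_nonneg (by positivity)]; exact le_rfl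
  have s3 : Summable fun j : ℤ => ‖fc δ (2 * j)‖ ^ 2 / (2 * (j : ℝ) + 1) :=
    key hδ fun j => by rw [abs_of_nonneg (by positivity)]; exact le_rfl
  have s2 : Summable fun j : ℤ => 2 * ((starRingEnd ℂ) (fc α (2 * j)) * fc δ (2 * j)).re / (2 * (j : ℝ) + 1) := by
    refine key ((hα.add hδ).mul_left 2) fun j => ?_
    have h1 := re_mul_le (fc δ (2 * j)) (fc α (2 * j)) 1 one_pos
    rw [abs_mul, abs_two, mul_comm ((starRingEnd ℂ) (fc α (2 * j)))]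
    show _ ≤ 2 * (‖fc α (2 * j)‖ ^ 2 + ‖fc δ (2 * j)‖ ^ 2)
    linarith
  have e : ∑' j : ℤ, ‖fc (fun t => α t + δ t) (2 * j)‖ ^ 2 / (2 * (j : ℝ) + 1) =
      (∑' j : ℤ, ‖fc α (2 * j)‖ ^ 2 / (2 * (j : ℝ) + 1))
      + (∑' j : ℤ, 2 * ((starRingEnd ℂ) (fc α (2 * j)) * fc δ (2 * j)).re / (2 * (j : ℝ) + 1))
      + (∑' j : ℤ, ‖fc δ (2 * j)‖ ^ 2 / (2 * (j : ℝ) + 1)) := by
    rw [← s1.tsum_add s2, ← (s1.add s2).tsum_add s3]
    refine tsum_congr fun j => ?_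
    rw [fc_add h h', sq_add]
    ring
  unfold L1
  rw [e]
  simp only [map_zero, zero_mul, zero_div, add_zero, sub_zero, norm_zero, fc_add h h']
  have h3 : (3 : ℂ) = ((3 : ℝ) : ℂ) := by norm_num
  simp only [mul_add, add_div, Complex.add_re, Complex.sub_re]
  ring

/-- bounded measurable edges -/
theorem g_BMd (d : Dat b z) : ∃ D, BM (fun t => g1 (b t) (z t)) D ∧ BM (fun t => g2 (b t) (z t)) D ∧ BM b D := by
  obtain ⟨C1, h1⟩ := d.hb.b
  obtain ⟨C2, h2⟩ := d.hz.b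
  have kb : BM b C1 := ⟨d.hb.m, h1⟩
  have kz : BM z C2 := ⟨d.hz.m, h2⟩
  obtain ⟨E1, k1⟩ := g1L_BM kb kz
  obtain ⟨E2, k2⟩ := g2L_BM kb kz
  have c1 := (BM.const' (g1 0 0)).add k1
  have c2 := (BM.const' (g2 0 0)).add k2
  have e1 : (fun t => g1 (b t) (z t)) = fun t => g1 0 0 + g1L (b t) (z t) := by
    funext t
    have := g1_diff 1 (b t) (z t) 0 0
    simpa using this
  have e2 : (fun t => g2 (b t) (z t)) = fun t => g2 0 0 + g2L (b t) (z t) := by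
    funext t
    have := g2_diff 1 (b t) (z t) 0 0
    simpa using this
  rw [e1, e2]
  refine ⟨max C1 (max (‖g1 0 0‖ + E1) (‖g2 0 0‖ + E2)), ⟨c1.m, fun t => (c1.b t).trans ?_⟩,
    ⟨c2.m, fun t => (c2.b t).trans ?_⟩, ⟨kb.m, fun t => (kb.b t).trans (le_max_left _ _)⟩⟩
  · exact (le_max_left _ _).trans (le_max_right _ _)
  · exact (le_max_right _ _).trans (le_max_right _ _)

theorem W1_BM (hr : P.Reg) : ∃ E, BM (W1 P) E := by
  have hH := H_br hr (th1_meas hr)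
  have hH1 := H1_br hr (th1_meas hr)
  obtain ⟨A, hA⟩ := hH.b
  obtain ⟨B, hB⟩ := hH1.b
  have k1 : BM (fun t => (P.H (P.th1 t) : ℂ)) A :=
    ⟨Complex.measurable_ofReal.comp hH.m, fun t => by rw [Complex.norm_real, Real.norm_eq_abs]; exact hA t⟩
  have k2 : BM (fun t => (P.H1 (P.th1 t) : ℂ)) B :=
    ⟨Complex.measurable_ofReal.comp hH1.m, fun t => by rw [Complex.norm_real, Real.norm_eq_abs]; exact hB t⟩
  exact ⟨_, ((k1.add (k2.cmul Complex.I)).mul (u1_bm hr)).sub (((u1_bm hr).sub (v1_bm hr)).cmul _)⟩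

theorem W2_BM (hr : P.Reg) : ∃ E, BM (W2 P) E := by
  have hH := H_br hr (th2_meas hr)
  have hH1 := H1_br hr (th2_meas hr)
  obtain ⟨A, hA⟩ := hH.b
  obtain ⟨B, hB⟩ := hH1.b
  have k1 : BM (fun t => (P.H (P.th2 t) : ℂ)) A :=
    ⟨Complex.measurable_ofReal.comp hH.m, fun t => by rw [Complex.norm_real, Real.norm_eq_abs]; exact hA t⟩
  have k2 : BM (fun t => (P.H1 (P.th2 t) : ℂ)) B :=
    ⟨Complex.measurable_ofReal.comp hH1.m, fun t => by rw [Complex.norm_real, Real.norm_eq_abs]; exact hB t⟩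
  exact ⟨_, ((k1.add (k2.cmul Complex.I)).mul (u2_bm hr)).sub (((u2_bm hr).sub (v2_bm hr)).cmul _)⟩

/-- the local term through the local directions -/
theorem TL_W (P : Par) (t : ℝ) (b z : ℂ) : P.TL t b z =
    2 * ((starRingEnd ℂ) (W1 P t) * g1 b z).re + 2 * ((starRingEnd ℂ) (W2 P t) * g2 b z).re
      + (9 - P.cs) * ‖b‖ ^ 2 + (P.m - P.lam) * P.lo t b z := by
  unfold Par.TL Par.T1 Par.T2 W1 W2
  simp only [map_add, map_sub, map_mul, Complex.conj_I, Complex.conj_ofReal, Complex.mul_re, Complex.mul_im,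
    Complex.add_re, Complex.add_im, Complex.sub_re, Complex.sub_im, Complex.neg_re, Complex.neg_im,
    Complex.ofReal_re, Complex.ofReal_im, Complex.I_re, Complex.I_im, Complex.conj_re, Complex.conj_im]
  ring

theorem TL_br (hr : P.Reg) (d : Dat b z) (hl : P.Blo b z) : BR fun t => P.w t * P.TL t (b t) (z t) := by
  obtain ⟨D, k1, k2, k3⟩ := g_BMd d
  obtain ⟨E1, m1⟩ := W1_BM hr
  obtain ⟨E2, m2⟩ := W2_BM hr
  have a1 := (BR.re (m1.conj.mul k1)).cmul 2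
  have a2 := (BR.re (m2.conj.mul k2)).cmul 2
  have a3 := (BR.nrm k3).sq.cmul (9 - P.cs)
  have a4 := BR.cmul (f := fun t => P.lo t (b t) (z t)) ⟨hl.1, hl.2⟩ (P.m - P.lam)
  have h := (w_br hr).mul (((a1.add a2).add a3).add a4)
  have e : (fun t => P.w t * P.TL t (b t) (z t)) = fun t => P.w t *
      (2 * ((starRingEnd ℂ) (W1 P t) * g1 (b t) (z t)).re + 2 * ((starRingEnd ℂ) (W2 P t) * g2 (b t) (z t)).re
      + (9 - P.cs) * ‖b t‖ ^ 2 + (P.m - P.lam) * P.lo t (b t) (z t)) := by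
    funext t
    rw [TL_W]
  rw [e]
  exact h

theorem w_pos (hr : P.Reg) (t : ℝ) : 1 / 2 ≤ P.w t := by
  have h := (abs_le.1 (Pool.Agent.Helper20.RC.wR_bd P.eta 0 0 t)).1
  simp only [norm_zero, add_zero] at h
  have h2 := hr.eta
  show 1 / 2 ≤ wR P.eta 0 0 t
  linarith

/-- pointwise difference of the local terms -/
theorem TL_diff (hr : P.Reg) (t : ℝ) : P.w t * P.TL t (b t) (z t) = P.w t * P.TL t (bs t) (zs t)
    + (2 * ((starRingEnd ℂ) (W1 P t) * g1L (wd P.w b bs t) (wd P.w z zs t)).re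
      + 2 * ((starRingEnd ℂ) (W2 P t) * g2L (wd P.w b bs t) (wd P.w z zs t)).re
      + 2 * (9 - P.cs) * ((starRingEnd ℂ) (bs t) * wd P.w b bs t).re)
    + (9 - P.cs) * ‖wd P.w b bs t‖ ^ 2 / P.w t
    + (P.m - P.lam) * (P.w t * (P.lo t (b t) (z t) - P.lo t (bs t) (zs t))) := by
  have hw : P.w t ≠ 0 := by
    have := w_pos hr t
    intro h
    rw [h] at this
    norm_num at this
  have h1 := g1_diff (P.w t) (b t) (z t) (bs t) (zs t)
  have h2 := g2_diff (P.w t) (b t) (z t) (bs t) (zs t)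
  have k1 : P.w t * ((starRingEnd ℂ) (W1 P t) * g1 (b t) (z t)).re =
      P.w t * ((starRingEnd ℂ) (W1 P t) * g1 (bs t) (zs t)).re
      + ((starRingEnd ℂ) (W1 P t) * g1L (wd P.w b bs t) (wd P.w z zs t)).re := by
    rw [← Complex.re_ofReal_mul, ← Complex.re_ofReal_mul, ← Complex.add_re]
    congr 1
    unfold wd
    linear_combination ((starRingEnd ℂ) (W1 P t)) * h1
  have k2 : P.w t * ((starRingEnd ℂ) (W2 P t) * g2 (b t) (z t)).re =
      P.w t * ((starRingEnd ℂ) (W2 P t) * g2 (bs t) (zs t)).re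
      + ((starRingEnd ℂ) (W2 P t) * g2L (wd P.w b bs t) (wd P.w z zs t)).re := by
    rw [← Complex.re_ofReal_mul, ← Complex.re_ofReal_mul, ← Complex.add_re]
    congr 1
    unfold wd
    linear_combination ((starRingEnd ℂ) (W2 P t)) * h2
  have k3 : P.w t * ‖b t‖ ^ 2 = P.w t * ‖bs t‖ ^ 2 + 2 * ((starRingEnd ℂ) (bs t) * wd P.w b bs t).re
      + ‖wd P.w b bs t‖ ^ 2 / P.w t := by
    have e1 : b t = bs t + (b t - bs t) := by ring
    have e2 : ‖wd P.w b bs t‖ ^ 2 / P.w t = P.w t * ‖b t - bs t‖ ^ 2 := by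
      unfold wd
      rw [norm_mul, mul_pow, Complex.norm_real, Real.norm_eq_abs, sq_abs]
      field_simp
    have e3 : ((starRingEnd ℂ) (bs t) * wd P.w b bs t).re = P.w t * ((starRingEnd ℂ) (bs t) * (b t - bs t)).re := by
      unfold wd
      rw [← Complex.re_ofReal_mul]
      congr 1
      ring
    have e4 := sq_add (bs t) (b t - bs t)
    rw [← e1] at e4
    rw [e2, e3, e4]
    ring
  rw [TL_W, TL_W, mul_div_assoc]
  linear_combination 2 * k1 + 2 * k2 + (9 - P.cs) * k3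

/-- THE EXACT EXPANSION OF `EP` -/
theorem EP_exp (hr : P.Reg) (d : Dat b z) (ds : Dat bs zs) (hl : P.Blo b z) (hls : P.Blo bs zs) :
    P.EP b z = P.EP bs zs + LinP P bs zs (wd P.w b bs) (wd P.w z zs) + QuadP P (wd P.w b bs) (wd P.w z zs)
      + (P.NS b z - P.NS bs zs)
      + (P.m - P.lam) * mean (fun t => P.w t * (P.lo t (b t) (z t) - P.lo t (bs t) (zs t))) := by
  obtain ⟨C, hC⟩ := wd_BM hr d.hb ds.hb
  obtain ⟨C', hC'⟩ := wd_BM hr d.hz ds.hz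
  obtain ⟨E, hE⟩ := dl_BM hC
  obtain ⟨E1, h1⟩ := al_BMd hr ds
  obtain ⟨E2, h2⟩ := dal_BMd hr ds
  obtain ⟨D1, b1, b2⟩ := F_BMd hr ds
  obtain ⟨G1, c1⟩ := f1R_BM hC hC'
  obtain ⟨G2, c2⟩ := f2R_BM hC hC'
  -- the pieces
  have p1 := sig_exp hr d ds
  have p2 := L1_exp (η := P.eta) h1 hE
  have ea : P.al b = fun t => P.al bs t + dl (wd P.w b bs) t := funext fun t => al_exp t
  rw [← ea] at p2
  have p3 := H0_exp hr d ds
  have p4 : P.e00 b z = P.e00 bs zs + e0R P (wd P.w b bs) (wd P.w z zs) := by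
    unfold Par.e00 e0R
    rw [eM_exp hr d ds, Complex.add_re]
  have e1 : Hk (P.dal b) = fun k => Hk (P.dal bs) k + hK (wd P.w b bs) k := funext fun k => Hk_exp hr d ds k
  have e2 : P.eA b z = fun k => P.eA bs zs k + eR P (wd P.w b bs) (wd P.w z zs) k := funext fun k =>
    eM_exp hr d ds (lk k)
  have p5 := D2_exp (ν := P.nu) (γ := P.ga) (a := Hk (P.dal bs)) (b := hK (wd P.w b bs)) (e := P.eA bs zs)
    (x := eR P (wd P.w b bs) (wd P.w z zs)) (Hk_summable h2) (Hk_summable (noh2_bm hE))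
    (eM_summable b1 b2 hr.mph1 hr.mph2 hr.dph1 hr.dph2)
    (eM_summable c1 c2 hr.mph1 hr.mph2 hr.dph1 hr.dph2) hr.fga
  rw [← e1, ← e2] at p5
  -- the mean
  have p6 : mean (fun t => P.w t * P.TL t (b t) (z t)) = mean (fun t => P.w t * P.TL t (bs t) (zs t))
      + mean (fun t => 2 * ((starRingEnd ℂ) (W1 P t) * g1L (wd P.w b bs t) (wd P.w z zs t)).re
      + 2 * ((starRingEnd ℂ) (W2 P t) * g2L (wd P.w b bs t) (wd P.w z zs t)).re
      + 2 * (9 - P.cs) * ((starRingEnd ℂ) (bs t) * wd P.w b bs t).re)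
      + mean (fun t => (9 - P.cs) * ‖wd P.w b bs t‖ ^ 2 / P.w t)
      + (P.m - P.lam) * mean (fun t => P.w t * (P.lo t (b t) (z t) - P.lo t (bs t) (zs t))) := by
    obtain ⟨F1, m1⟩ := W1_BM hr
    obtain ⟨F2, m2⟩ := W2_BM hr
    obtain ⟨N1, n1⟩ := g1L_BM hC hC'
    obtain ⟨N2, n2⟩ := g2L_BM hC hC'
    obtain ⟨_, _, _, kb⟩ := g_BMd ds
    have q1 := TL_br hr ds hls
    have q2 : BR (fun t => 2 * ((starRingEnd ℂ) (W1 P t) * g1L (wd P.w b bs t) (wd P.w z zs t)).re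
        + 2 * ((starRingEnd ℂ) (W2 P t) * g2L (wd P.w b bs t) (wd P.w z zs t)).re
        + 2 * (9 - P.cs) * ((starRingEnd ℂ) (bs t) * wd P.w b bs t).re) :=
      (((BR.re (m1.conj.mul n1)).cmul 2).add ((BR.re (m2.conj.mul n2)).cmul 2)).add
        ((BR.re (kb.conj.mul hC)).cmul _)
    have q3 : BR (fun t => (9 - P.cs) * ‖wd P.w b bs t‖ ^ 2 / P.w t) := by
      have r1 : BR fun t => (P.w t)⁻¹ := ⟨(w_br hr).m.inv, 2, fun t => by
        have := w_pos hr t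
        rw [abs_inv, abs_of_pos (by linarith)]
        have h4 : (P.w t)⁻¹ ≤ (1 / 2 : ℝ)⁻¹ := inv_anti₀ (by norm_num) this
        simpa using h4⟩
      have r2 := ((BR.nrm hC).sq.cmul (9 - P.cs)).mul r1
      have e : (fun t => (9 - P.cs) * ‖wd P.w b bs t‖ ^ 2 / P.w t) =
          fun t => (9 - P.cs) * ‖wd P.w b bs t‖ ^ 2 * (P.w t)⁻¹ := by
        funext t; rw [div_eq_mul_inv]
      rw [e]
      exact r2
    have q4 : BR (fun t => P.w t * (P.lo t (b t) (z t) - P.lo t (bs t) (zs t))) :=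
      (w_br hr).mul (BR.sub (f := fun t => P.lo t (b t) (z t)) (g := fun t => P.lo t (bs t) (zs t))
        ⟨hl.1, hl.2⟩ ⟨hls.1, hls.2⟩)
    rw [← mean_add q1 q2, ← mean_add (q1.add q2) q3, ← mean_cmul, ← mean_add ((q1.add q2).add q3) (q4.cmul _)]
    exact mean_congr fun t => TL_diff hr t
  unfold Par.EP LinP QuadP
  rw [p1, p2, p3, p4, p5, p6, sq_add]
  simp only [map_add, add_mul, Complex.add_re]
  have e9 : ((starRingEnd ℂ) (sgR (wd P.w b bs)) * P.eta).re = ((starRingEnd ℂ) P.eta * sgR (wd P.w b bs)).re := by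
    simp only [Complex.mul_re, Complex.conj_re, Complex.conj_im]
    ring
  rw [e9]
  ring

end

end Pool.Agent.Helper43.SH
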