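import Pool.Agent.Helper43.SH.GoodI
import Pool.Agent.Helper95.SH.CoordQ

/-!
# SHARP (MP_b21509_co), zone I: Fourier coefficients of the base and the structure `Lo (PZ A B) 10`
-/

set_option autoImplicit false

open MeasureTheory Set Filter Metric

namespace Pool.Agent.Helper43.SH

open Helper49.LT hiding sg s3
open Helper49.RC Helper44.GQ Helper49.Sharp
open Helper56.RC (fc)
open Helper87.RC (BM fc_add fc_cmul)
open Helper95.RC (Lf BF Sup)
open Helper95.SH (Dat Lo)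
open Pool.Agent.Helper20.RC (wR hw DensI)
open Pool.Agent.Helper33.SH

/-- a trigonometric polynomial, as a list of (frequency, coefficient) -/
noncomputable def tp (L : List (ℤ × ℂ)) (t : ℝ) : ℂ := (L.map fun x => x.2 * ee ((x.1 : ℝ) * t)).sum

/-- its coefficients -/
noncomputable def ck (L : List (ℤ × ℂ)) (n : ℤ) : ℂ := (L.map fun x => if n = x.1 then x.2 else 0).sum

theorem tp_nil : tp [] = fun _ => 0 := by
  funext t
  simp [tp]

theorem tp_cons (x : ℤ × ℂ) (L : List (ℤ × ℂ)) : tp (x :: L) = fun t => x.2 * ee ((x.1 : ℝ) * t) + tp L t := by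
  funext t
  simp [tp]

theorem ck_cons (x : ℤ × ℂ) (L : List (ℤ × ℂ)) (n : ℤ) : ck (x :: L) n = (if n = x.1 then x.2 else 0) + ck L n := by
  simp [ck]

theorem tp_bm (L : List (ℤ × ℂ)) : ∃ C, BM (tp L) C := by
  induction L with
  | nil =>
    rw [tp_nil]
    exact ⟨0, measurable_const, fun t => by simp⟩
  | cons x L ih =>
    obtain ⟨C, h⟩ := ih
    rw [tp_cons]
    have h1 : BM (fun t : ℝ => ee ((x.1 : ℝ) * t)) 1 := BM.eec _
    exact ⟨_, (h1.cmul x.2).add h⟩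

/-- the coefficients of a trigonometric polynomial -/
theorem fc_tp (L : List (ℤ × ℂ)) (n : ℤ) : fc (tp L) n = ck L n := by
  induction L with
  | nil =>
    rw [tp_nil]
    unfold fc ck
    simp
  | cons x L ih =>
    obtain ⟨C, h⟩ := tp_bm L
    have h1 : BM (fun t : ℝ => ee ((x.1 : ℝ) * t)) 1 := BM.eec _
    rw [tp_cons, fc_add (h1.cmul x.2) h, fc_cmul, Pool.Agent.Helper20.RC.fc_eek, ih, ck_cons]
    split_ifs <;> ring

theorem ck_sup (L : List (ℤ × ℂ)) (K : ℕ) (h : ∀ x ∈ L, |x.1| ≤ K) : Sup K (ck L) := by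
  intro n hn
  induction L with
  | nil => simp [ck]
  | cons x L ih =>
    rw [ck_cons, ih fun y hy => h y (List.mem_cons_of_mem _ hy), if_neg, add_zero]
    intro h1
    have h2 := h x List.mem_cons_self
    rw [← h1, abs_le] at h2
    exact hn (Finset.mem_Icc.2 h2)

/-- the list of `z0` -/
noncomputable def zL (A B : ℂ) : List (ℤ × ℂ) := [(-3, A), (-5, B), (5, -(1 / 2 * (starRingEnd ℂ) B))]

theorem zB_tp (A B : ℂ) : zB A B = tp (zL A B) := by
  funext t
  rw [zB_eq]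
  simp only [tp, zL, List.map_cons, List.map_nil, List.sum_cons, List.sum_nil]
  push_cast
  ring

/-- `x e(n t) + conj` -/
noncomputable def qL (k0 x2 x6 x8 x10 : ℂ) : List (ℤ × ℂ) := [(0, k0), (2, x2), (-2, (starRingEnd ℂ) x2), (6, x6),
  (-6, (starRingEnd ℂ) x6), (8, x8), (-8, (starRingEnd ℂ) x8), (10, x10), (-10, (starRingEnd ℂ) x10)]

theorem two_re (x : ℂ) : ((2 * x.re : ℝ) : ℂ) = x + (starRingEnd ℂ) x := by
  rw [Complex.add_conj]

theorem qL_tp (k0 x2 x6 x8 x10 : ℂ) (t : ℝ) : tp (qL k0 x2 x6 x8 x10) t = k0 +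
    ((2 * (x2 * ee (2 * t) + x6 * ee (6 * t) + x8 * ee (8 * t) + x10 * ee (10 * t)).re : ℝ) : ℂ) := by
  rw [two_re]
  simp only [tp, qL, List.map_cons, List.map_nil, List.sum_cons, List.sum_nil, map_add, map_mul, conj_ee]
  have e0 : ee (((0 : ℤ) : ℝ) * t) = 1 := by
    unfold ee; simp
  rw [e0]
  push_cast
  rw [show -(2 * t) = -2 * t by ring, show -(6 * t) = -6 * t by ring, show -(8 * t) = -8 * t by ring,
    show -(10 * t) = -10 * t by ring]
  ring

/-- the list of `b2_0` -/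
noncomputable def b2L (c : BC) (A B : ℂ) : List (ℤ × ℂ) := qL ((c.k1 * ‖A‖ ^ 2 + c.k2 * ‖B‖ ^ 2 : ℝ) : ℂ)
  (c.k3 * (A * (starRingEnd ℂ) B)) (c.k4 * ((starRingEnd ℂ) A * (starRingEnd ℂ) A))
  (c.k5 * ((starRingEnd ℂ) A * (starRingEnd ℂ) B)) (c.k6 * ((starRingEnd ℂ) B * (starRingEnd ℂ) B))

/-- the list of `b3_0` -/
noncomputable def b3L (c : BC) (A B : ℂ) : List (ℤ × ℂ) := qL 0
  (Complex.I * (c.l3 * (A * (starRingEnd ℂ) B))) (Complex.I * (c.l4 * ((starRingEnd ℂ) A * (starRingEnd ℂ) A)))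
  (Complex.I * (c.l5 * ((starRingEnd ℂ) A * (starRingEnd ℂ) B)))
  (Complex.I * (c.l6 * ((starRingEnd ℂ) B * (starRingEnd ℂ) B)))

theorem b2B_tp (c : BC) (A B : ℂ) : (fun t => ((b2B c A B t : ℝ) : ℂ)) = tp (b2L c A B) := by
  funext t
  unfold b2L
  rw [qL_tp, b2B_eq]
  push_cast
  rfl

theorem b3B_tp (c : BC) (A B : ℂ) : (fun t => ((b3B c A B t : ℝ) : ℂ)) = tp (b3L c A B) := by
  funext t
  unfold b3L
  rw [qL_tp, b3B_eq, zero_add]
  congr 3
  ring

theorem fc_zB (A B : ℂ) (n : ℤ) : fc (zB A B) n = ck (zL A B) n := by rw [zB_tp, fc_tp]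

theorem fc_b2B (c : BC) (A B : ℂ) (n : ℤ) : fc (fun t => ((b2B c A B t : ℝ) : ℂ)) n = ck (b2L c A B) n := by
  rw [b2B_tp, fc_tp]

theorem fc_b3B (c : BC) (A B : ℂ) (n : ℤ) : fc (fun t => ((b3B c A B t : ℝ) : ℂ)) n = ck (b3L c A B) n := by
  rw [b3B_tp, fc_tp]

theorem zL_deg (A B : ℂ) : ∀ x ∈ zL A B, |x.1| ≤ (5 : ℕ) := by
  intro x hx
  simp only [zL, List.mem_cons, List.not_mem_nil, or_false] at hx
  rcases hx with rfl | rfl | rfl <;> norm_num

theorem qL_deg (k0 x2 x6 x8 x10 : ℂ) : ∀ x ∈ qL k0 x2 x6 x8 x10, |x.1| ≤ (10 : ℕ) := by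
  intro x hx
  simp only [qL, List.mem_cons, List.not_mem_nil, or_false] at hx
  rcases hx with rfl | rfl | rfl | rfl | rfl | rfl | rfl | rfl | rfl <;> norm_num

section

variable {A : ℝ} {B : ℂ}

/-- the structure of helper95 for the local form of zone I -/
noncomputable def lo_PI (c : ZC) (hZ : |A| + 2 * ‖B‖ ≤ 1 / 4) : Lo (PI c A B) 10 where
  f := fI A B
  zs := z0I A B
  b2s := fun t => b2B cI A B t
  b3s := fun t => b3B cI A B t
  p2 := 1
  p3 := 3 / 2
  hf := fI_br hZ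
  hz := ⟨1 / 4, (continuous_zB A B).measurable, fun t => small (boxC hZ) t⟩
  h2 := ⟨(continuous_b2B cI A B).measurable, 1, fun t => by
    have hb : Box cI (1 / 4) (-7 / 500) (9 / 500) (9 / 250) := box_F2'
    obtain ⟨_, h2, h3, _⟩ := box hb (boxC hZ) t
    rw [bB_re] at h2 h3
    rw [abs_le]
    constructor <;> linarith⟩
  h3 := ⟨(continuous_b3B cI A B).measurable, 1, fun t => by
    have hb : Box cI (1 / 4) (-7 / 500) (9 / 500) (9 / 250) := box_F2'
    obtain ⟨_, _, _, h4⟩ := box hb (boxC hZ) t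
    rw [bB_im] at h4
    linarith⟩
  sz := by
    intro n hn
    show fc (zB A B) n = 0
    rw [fc_zB]
    exact (Helper95.SH.Sup.mono (by norm_num) (ck_sup _ 5 (zL_deg _ _))) n hn
  s2 := by
    intro n hn
    rw [fc_b2B]
    exact ck_sup _ 10 (qL_deg _ _ _ _ _) n hn
  s3 := by
    intro n hn
    rw [fc_b3B]
    exact ck_sup _ 10 (qL_deg _ _ _ _ _) n hn
  eq := by
    intro t b z
    rw [loC_PI t b z]
    show _ - 1 * (b.re - (bB cI A B t).re) ^ 2 - 3 / 2 * (b.im - (bB cI A B t).im) ^ 2 = _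
    rw [bB_re, bB_im]

end

end Pool.Agent.Helper43.SH
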