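import Pool.Agent.Helper43.SH.NSx
import Pool.Agent.Helper44.RC.M_NR4

/-!
# SHARP (MP_b21509_co), zone I: reduction of `StZ1 R` to the inequality `0 ≤ E + Lin + Q` on sections
-/

set_option autoImplicit false

open MeasureTheory Set Filter Metric

namespace Pool.Agent.Helper43.SH

open Helper49.LT hiding sg s3
open Helper49.RC Helper44.GQ Helper49.Sharp
open Helper56.RC (fc)
open Helper56.SH (Stat Cert StZ1 ZI)
open Helper95.RC (Lf BF Sup c1 c2 wc tr kq NF)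
open Helper95.SH (Dat Lo SN pr qr wm C1 C2)
open Pool.Agent.Helper33.SH

/-- ZONE I from `0 ≤ EP` -/
theorem stZ1_EP {R : ℝ} (hR : R ≤ 1 / 5)
    (HL : Helper50.SH.P4F (21 / 25) (4 / 5) 1 (3 / 2) (-(18 / 1000)) (36 / 1000) (33903 / 1048576) (1 / 2))
    (H : ∀ b z : ℝ → ℂ, AdmQ 2 b z → Helper44.Far.Near b z → ∀ A : ℝ, 0 ≤ A → fc z (-3) = (A : ℂ) →
      A + 8 / 5 * ‖fc z (-5)‖ ≤ R → 0 ≤ (PZ A (fc z (-5))).EP b z) : StZ1 R := by
  refine stZ1_of hR HL fun b z h hn A hA h3 hz => ?_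
  have n5 := norm_nonneg (fc z (-5))
  have hZ : |A| + 2 * ‖fc z (-5)‖ ≤ 1 / 4 := by
    rw [abs_of_nonneg hA]
    linarith
  have hAB : A + 3 / 2 * ‖fc z (-5)‖ ≤ 1 / 5 := by linarith
  exact ⟨Helper44.Far.lamI _ h hn (reg_PZ hZ) hA hAB h3 rfl rfl rfl rfl, Helper44.Far.csI _ h hn hA hAB rfl,
    H b z h hn A hA h3 hz⟩

/-- the window of `NS` -/
noncomputable abbrev WN (N : ℕ) : Finset ℤ := Finset.Icc (-((N + 3 : ℕ) : ℤ)) ((N + 3 : ℕ) : ℤ)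

/-- (V): the value at the base -/
noncomputable def VI (A : ℝ) (B : ℂ) : ℝ := (PZ A B).EP (b0I A B) (z0I A B)

/-- (G): the linear part at the rest of the sections -/
noncomputable def GI (A : ℝ) (B : ℂ) (N : ℕ) (b z : ℝ → ℂ) : ℝ :=
  LinP (PZ A B) (b0I A B) (z0I A B) (beR A B N b) (rhR A B N z)
    + 2 * Pool.Agent.Helper61.RC.NSB (dI A B) A Real.pi (WN N) (B1 (zcI A B) A B) (B2 (zcI A B) A B)
      (R1 (xR A B N b) (yR A B N b) (tR A B N z)) (R2 (xR A B N b) (yR A B N b) (tR A B N z))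

/-- (Q): the quadratic part at the rest of the sections -/
noncomputable def QI (A : ℝ) (B : ℂ) (N : ℕ) (b z : ℝ → ℂ) : ℝ :=
  QuadL (PZ A B) (fI A B) 1 (3 / 2) (beR A B N b) (rhR A B N z)
    + Pool.Agent.Helper99.RC.NS (dI A B) A Real.pi (WN N)
      (R1 (xR A B N b) (yR A B N b) (tR A B N z)) (R2 (xR A B N b) (yR A B N b) (tR A B N z))

/-- `EP = V + G + Q` on sections -/
theorem EP_VGQ {A : ℝ} {B : ℂ} (hZ : |A| + 2 * ‖B‖ ≤ 1 / 4) {b z : ℝ → ℂ} (d : Dat b z) {N : ℕ} (hN : 10 ≤ N) :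
    (PZ A B).EP (SN N b) (SN N z) = VI A B + GI A B N b z + QI A B N b z :=
  EPx hZ le_rfl (lam_le_m hZ) d hN

/-- THE REDUCTION: zone I from `0 ≤ V + G + Q` on large sections -/
theorem stZ1_VGQ {R : ℝ} (hR : R ≤ 1 / 5)
    (HL : Helper50.SH.P4F (21 / 25) (4 / 5) 1 (3 / 2) (-(18 / 1000)) (36 / 1000) (33903 / 1048576) (1 / 2))
    (N0 : ℕ) (H : ∀ (A : ℝ) (B : ℂ), 0 ≤ A → A + 8 / 5 * ‖B‖ ≤ R → ∀ b z : ℝ → ℂ, Dat b z → fc z (-3) = (A : ℂ) →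
      fc z (-5) = B → ∀ N, N0 ≤ N → 0 ≤ VI A B + GI A B N b z + QI A B N b z) : StZ1 R := by
  refine stZ1_EP hR HL fun b z h hn A hA h3 hz => ?_
  have n5 := norm_nonneg (fc z (-5))
  have hZ : |A| + 2 * ‖fc z (-5)‖ ≤ 1 / 4 := by
    rw [abs_of_nonneg hA]
    linarith
  have d : Dat b z := Helper95.SH.AdmQ.dat (by norm_num) h
  refine Helper95.SH.EP_nonneg_adm (reg_PZ hZ) (lo_PI _ hZ).ql h (max N0 10) fun N hN => ?_
  rw [show (PZ A (fc z (-5))).EP (SN N b) (SN N z) = _ from EP_VGQ hZ d (le_trans (le_max_right _ _) hN)]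
  exact H A (fc z (-5)) hA hz b z d h3 rfl N (le_trans (le_max_left _ _) hN)

/-- the rest has no harmonics `-3`, `-5` before the weight -/
theorem rest_zero {A : ℝ} {B : ℂ} {z : ℝ → ℂ} (h3 : fc z (-3) = (A : ℂ)) (h5 : fc z (-5) = B) {N : ℕ} (hN : 10 ≤ N) :
    tr N (fc z) (-3) - ck (zL A B) (-3) = 0 ∧ tr N (fc z) (-5) - ck (zL A B) (-5) = 0 := by
  have e3 : tr N (fc z) (-3) = fc z (-3) := by
    unfold tr
    rw [if_pos (Finset.mem_Icc.2 ⟨by omega, by omega⟩)]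
  have e5 : tr N (fc z) (-5) = fc z (-5) := by
    unfold tr
    rw [if_pos (Finset.mem_Icc.2 ⟨by omega, by omega⟩)]
  rw [e3, e5, h3, h5]
  constructor <;> simp [ck, zL]

end Pool.Agent.Helper43.SH
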